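import Pool.Agent.NH13.LV.Defs

/-!
# LV-7: from the cumulative averages to the local averages
-/

set_option autoImplicit false

open MeasureTheory Filter Topology Set

namespace Pool.Agent.NH13.LV.LcH

/-- the functions `Gq t A B` of `t` are integrable on compact intervals -/
theorem ii (hG : S_G) {A B p q : ℝ} (hA : 0 < A) (hAB : A ≤ B) (hp : 0 < p) (hpq : p ≤ q) :
    IntervalIntegrable (fun t => Gq t A B) volume p q := by
  obtain ⟨C, hC⟩ := hG.2.2.2.2 A B hA hAB p q hp hpq
  rw [intervalIntegrable_iff_integrableOn_Icc_of_le hpq]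
  refine Measure.integrableOn_of_bounded (M := |C|) (by simp) (hG.2.2.2.1 A B hA hAB).aestronglyMeasurable ?_
  filter_upwards [ae_restrict_mem measurableSet_Icc] with t ht
  have h0 : 0 ≤ Gq t A B := hG.1 t A B (lt_of_lt_of_le hp ht.1) hA hAB
  rw [Real.norm_of_nonneg h0]
  exact (hC t ht).trans (le_abs_self C)

/-- the choice of the smaller exponent -/
theorem choose_exp {η a δ : ℝ} (hη : 0 < η) (ha : 1 ≤ a) (hδ : 0 < δ) :
    ∃ a' : ℝ, 1 ≤ a' ∧ a' ≤ a ∧ a - a' ≤ δ ∧
      ∀ᶠ T : ℝ in atTop, ((1 + η) * T) ^ (a' - 1) ≤ T ^ (a - 1) := by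
  rcases ha.eq_or_lt with h1 | h1
  · refine ⟨1, le_rfl, ha, by rw [← h1]; linarith, ?_⟩
    filter_upwards with T
    rw [← h1, sub_self, Real.rpow_zero, Real.rpow_zero]
  · refine ⟨max 1 (a - δ), le_max_left _ _, max_le ha (by linarith), ?_, ?_⟩
    · have := le_max_right 1 (a - δ)
      linarith
    · set a' := max 1 (a - δ) with ha'
      have hlt : 0 < a - a' := by
        have : a' < a := max_lt h1 (by linarith)
        linarith
      have h2 := (tendsto_rpow_atTop hlt).eventually_ge_atTop ((1 + η) ^ (a' - 1))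
      filter_upwards [h2, eventually_gt_atTop 0] with T hT hT0
      rw [Real.mul_rpow (by linarith) hT0.le]
      have h3 : T ^ (a - 1) = T ^ (a - a') * T ^ (a' - 1) := by
        rw [← Real.rpow_add hT0]
        congr 1
        ring
      rw [h3]
      exact mul_le_mul_of_nonneg_right hT (Real.rpow_nonneg hT0.le _)

theorem log_ratio {η : ℝ} (hη : 0 < η) :
    Tendsto (fun T : ℝ => Real.log ((1 + η) * T) ^ 2 / Real.log T ^ 2) atTop (𝓝 1) := by
  have h1 : Tendsto (fun T : ℝ => Real.log (1 + η) / Real.log T + 1) atTop (𝓝 (0 + 1)) :=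
    (Real.tendsto_log_atTop.const_div_atTop _).add tendsto_const_nhds
  rw [zero_add] at h1
  have h2 := h1.pow 2
  rw [one_pow] at h2
  refine h2.congr' ?_
  filter_upwards [eventually_gt_atTop 1] with T hT
  have h3 : 0 < Real.log T := Real.log_pos hT
  rw [Real.log_mul (by linarith) (by linarith), ← div_pow, add_div, div_self h3.ne']

end LcH

open LcH

/-- LV-7. -/
theorem t_loc : S_loc := by
  intro hG hK hC η hη a b ha hab ε hε
  have hδ : 0 < η * ε / (2 * (1 + η)) := by positivity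
  obtain ⟨a', ha'1, ha'a, hd, hexp⟩ := choose_exp hη ha hδ
  have hT2 : Tendsto (fun T : ℝ => (1 + η) * T) atTop atTop :=
    tendsto_id.const_mul_atTop (by linarith)
  have l1 := (hC a' b ha'1 (lt_of_le_of_lt ha'a hab)).comp hT2
  have l2 := hC a b ha hab
  have lim : Tendsto (fun T : ℝ => ((1 + η) * ((Real.log ((1 + η) * T) ^ 2 / Real.log T ^ 2) *
      Kc ((1 + η) * T) a' b) - Kc T a b) / η) atTop
      (𝓝 (((1 + η) * (1 * (b - a')) - (b - a)) / η)) :=
    ((((log_ratio hη).mul l1).const_mul (1 + η)).sub l2).div_const η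
  have hlt : ((1 + η) * (1 * (b - a')) - (b - a)) / η < b - a + ε := by
    rw [div_lt_iff₀ hη]
    have h1 : (1 + η) * (a - a') ≤ η * ε / 2 := by
      have := mul_le_mul_of_nonneg_left hd (show (0 : ℝ) ≤ 1 + η by linarith)
      have h2 : (1 + η) * (η * ε / (2 * (1 + η))) = η * ε / 2 := by
        field_simp
      linarith
    nlinarith [mul_pos hη hε]
  filter_upwards [lim.eventually_lt_const hlt, hexp, eventually_gt_atTop 1] with T h1 h2 hT
  refine le_trans ?_ h1.le
  have hT0 : 0 < T := by linarith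
  have hη1 : 1 < 1 + η := by linarith
  have hT2' : 1 < (1 + η) * T := by nlinarith
  have hTT : T ≤ (1 + η) * T := by nlinarith
  have hL : 0 < Real.log T := Real.log_pos hT
  have hL2 : 0 < Real.log ((1 + η) * T) := Real.log_pos hT2'
  have hA : 0 < T ^ (a - 1) := Real.rpow_pos_of_pos hT0 _
  have hAB : T ^ (a - 1) ≤ T ^ (b - 1) := Real.rpow_le_rpow_of_exponent_le hT.le (by linarith)
  have hA' : 0 < ((1 + η) * T) ^ (a' - 1) := Real.rpow_pos_of_pos (by linarith) _
  have hB' : T ^ (b - 1) ≤ ((1 + η) * T) ^ (b - 1) :=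
    Real.rpow_le_rpow hT0.le hTT (by linarith)
  rw [hK.2 η T a b hη hT hab.le]
  -- the first integral
  have i1 : IntervalIntegrable (fun t => Gq t (T ^ (a - 1)) (T ^ (b - 1))) volume (1 / 2) (T - 1 / 2) :=
    ii hG hA hAB (by norm_num) (by linarith)
  have i2 : IntervalIntegrable (fun t => Gq t (T ^ (a - 1)) (T ^ (b - 1))) volume
      (1 / 2) ((1 + η) * T - 1 / 2) := ii hG hA hAB (by norm_num) (by linarith)
  have i3 : IntervalIntegrable (fun t => Gq t (((1 + η) * T) ^ (a' - 1)) (((1 + η) * T) ^ (b - 1)))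
      volume (1 / 2) ((1 + η) * T - 1 / 2) :=
    ii hG hA' (h2.trans (hAB.trans hB')) (by norm_num) (by linarith)
  have e1 : ∫ t in (T - 1 / 2)..((1 + η) * T - 1 / 2), Gq t (T ^ (a - 1)) (T ^ (b - 1)) =
      (∫ t in (1 / 2)..((1 + η) * T - 1 / 2), Gq t (T ^ (a - 1)) (T ^ (b - 1))) -
        ∫ t in (1 / 2)..(T - 1 / 2), Gq t (T ^ (a - 1)) (T ^ (b - 1)) := by
    rw [intervalIntegral.integral_interval_sub_left i2 i1]
  have e2 : ∫ t in (1 / 2)..(T - 1 / 2), Gq t (T ^ (a - 1)) (T ^ (b - 1)) =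
      T * Real.log T ^ 2 * Kc T a b := by
    rw [hK.1 T a b hT hab.le, ← mul_assoc, mul_one_div_cancel (by positivity), one_mul]
  have e3 : ∫ t in (1 / 2)..((1 + η) * T - 1 / 2),
      Gq t (((1 + η) * T) ^ (a' - 1)) (((1 + η) * T) ^ (b - 1)) =
      (1 + η) * T * Real.log ((1 + η) * T) ^ 2 * Kc ((1 + η) * T) a' b := by
    rw [hK.1 ((1 + η) * T) a' b hT2' (by linarith), ← mul_assoc,
      mul_one_div_cancel (by positivity), one_mul]
  have e4 : ∫ t in (1 / 2)..((1 + η) * T - 1 / 2), Gq t (T ^ (a - 1)) (T ^ (b - 1)) ≤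
      ∫ t in (1 / 2)..((1 + η) * T - 1 / 2),
        Gq t (((1 + η) * T) ^ (a' - 1)) (((1 + η) * T) ^ (b - 1)) := by
    refine intervalIntegral.integral_mono_on (by linarith) i2 i3 fun t ht => ?_
    exact hG.2.1 t _ _ _ _ (by linarith [ht.1]) hA' h2 hAB hB'
  rw [e3] at e4
  rw [e1, e2]
  have h5 : 0 < η * T * Real.log T ^ 2 := by positivity
  rw [one_div, inv_mul_le_iff₀ h5]
  have h6 : η * T * Real.log T ^ 2 * (((1 + η) * (Real.log ((1 + η) * T) ^ 2 / Real.log T ^ 2 *
      Kc ((1 + η) * T) a' b) - Kc T a b) / η) =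
      (1 + η) * T * Real.log ((1 + η) * T) ^ 2 * Kc ((1 + η) * T) a' b -
        T * Real.log T ^ 2 * Kc T a b := by
    field_simp
  rw [h6]
  linarith

end Pool.Agent.NH13.LV
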