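import Pool.Agent.NH13.LV.Defs

/-! LV-6: from the lines to the cumulative averages. -/

set_option autoImplicit false

open MeasureTheory Filter Topology Set

namespace Pool.Agent.NH13.LV

namespace Lm

theorem gq_int (hG : S_G) {A B p q : ℝ} (hA : 0 < A) (hAB : A ≤ B) (hp : 0 < p) (hpq : p ≤ q) :
    IntervalIntegrable (fun t => Gq t A B) volume p q := by
  obtain ⟨h1, -, -, h4, h5⟩ := hG
  obtain ⟨C, hC⟩ := h5 A B hA hAB p q hp hpq
  rw [intervalIntegrable_iff_integrableOn_Icc_of_le hpq]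
  refine Measure.integrableOn_of_bounded (M := C) ?_ (h4 A B hA hAB).aestronglyMeasurable ?_
  · rw [Real.volume_Icc]
    exact ENNReal.ofReal_ne_top
  · refine (ae_restrict_iff' measurableSet_Icc).2 (Eventually.of_forall fun t ht => ?_)
    rw [Real.norm_of_nonneg (h1 t A B (hp.trans_le ht.1) hA hAB)]
    exact hC t ht

theorem int_le {f : ℝ → ℝ} {p q M : ℝ} (hpq : p ≤ q) (hf : IntervalIntegrable f volume p q)
    (h : ∀ t ∈ Icc p q, f t ≤ M) : ∫ t in p..q, f t ≤ (q - p) * M := by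
  calc ∫ t in p..q, f t ≤ ∫ _t in p..q, M :=
        intervalIntegral.integral_mono_on hpq hf intervalIntegrable_const h
    _ = (q - p) * M := by rw [intervalIntegral.integral_const, smul_eq_mul]

theorem le_int {f : ℝ → ℝ} {p q M : ℝ} (hpq : p ≤ q) (hf : IntervalIntegrable f volume p q)
    (h : ∀ t ∈ Icc p q, M ≤ f t) : (q - p) * M ≤ ∫ t in p..q, f t := by
  calc (q - p) * M = ∫ _t in p..q, M := by rw [intervalIntegral.integral_const, smul_eq_mul]
    _ ≤ ∫ t in p..q, f t := intervalIntegral.integral_mono_on hpq intervalIntegrable_const hf h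

theorem psi_bd (h : PsiB) : ∃ C : ℝ, 0 < C ∧ ∀ y : ℝ, 0 ≤ y →
    |Chebyshev.psi y - y| ≤ C * (Real.sqrt (y + 2) * Real.log (y + 2) ^ 2) := by
  obtain ⟨C, hC, hb⟩ := h
  have hl2 : 0 < Real.log 2 := Real.log_pos (by norm_num)
  refine ⟨C + 2 / Real.log 2 ^ 2, by positivity, fun y hy => ?_⟩
  have hs : 1 ≤ Real.sqrt (y + 2) := by
    rw [Real.one_le_sqrt]; linarith
  have hlog : Real.log 2 ≤ Real.log (y + 2) := Real.log_le_log (by norm_num) (by linarith)
  have hlsq : Real.log 2 ^ 2 ≤ Real.log (y + 2) ^ 2 := pow_le_pow_left₀ hl2.le hlog 2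
  have hX : 0 ≤ Real.sqrt (y + 2) * Real.log (y + 2) ^ 2 := by positivity
  rcases lt_or_ge y 2 with h2 | h2
  · rw [Chebyshev.psi_eq_zero_of_lt_two h2, zero_sub, abs_neg, abs_of_nonneg hy]
    have h3 : Real.log 2 ^ 2 ≤ Real.sqrt (y + 2) * Real.log (y + 2) ^ 2 := by
      calc Real.log 2 ^ 2 = 1 * Real.log 2 ^ 2 := (one_mul _).symm
        _ ≤ Real.sqrt (y + 2) * Real.log (y + 2) ^ 2 := mul_le_mul hs hlsq (by positivity)
            (by positivity)
    have h4 : 2 ≤ 2 / Real.log 2 ^ 2 * (Real.sqrt (y + 2) * Real.log (y + 2) ^ 2) := by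
      rw [div_mul_eq_mul_div, le_div_iff₀ (by positivity)]
      nlinarith
    nlinarith
  · have h3 := hb y h2
    have h4 : Real.sqrt y ≤ Real.sqrt (y + 2) := Real.sqrt_le_sqrt (by linarith)
    have h5 : Real.log y ≤ Real.log (y + 2) := Real.log_le_log (by linarith) (by linarith)
    have h6 : 0 ≤ Real.log y := Real.log_nonneg (by linarith)
    have h7 : Real.sqrt y * Real.log y ^ 2 ≤ Real.sqrt (y + 2) * Real.log (y + 2) ^ 2 :=
      mul_le_mul h4 (pow_le_pow_left₀ h6 h5 2) (by positivity) (by positivity)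
    calc |Chebyshev.psi y - y| ≤ C * (Real.sqrt y * Real.log y ^ 2) := h3
      _ ≤ C * (Real.sqrt (y + 2) * Real.log (y + 2) ^ 2) := mul_le_mul_of_nonneg_left h7 hC.le
      _ ≤ (C + 2 / Real.log 2 ^ 2) * (Real.sqrt (y + 2) * Real.log (y + 2) ^ 2) :=
          mul_le_mul_of_nonneg_right (by have : 0 ≤ 2 / Real.log 2 ^ 2 := by positivity
                                         linarith) hX

theorem vv_bd (h : PsiB) : ∃ C : ℝ, 0 < C ∧ ∀ t H : ℝ, 0 < t → 1 ≤ H →
    vv (t * H) H ≤ C * ((t + 3) * H * Real.log ((t + 3) * H) ^ 4) := by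
  obtain ⟨C, hC, hb⟩ := psi_bd h
  refine ⟨(2 * C) ^ 2, by positivity, fun t H ht hH => ?_⟩
  have htH : 0 < t * H := by positivity
  set Z := (t + 3) * H with hZ
  have hZ1 : 1 ≤ Z := by rw [hZ]; nlinarith
  have key : ∀ y : ℝ, 0 ≤ y → y + 2 ≤ Z →
      |Chebyshev.psi y - y| ≤ C * (Real.sqrt Z * Real.log Z ^ 2) := by
    intro y hy hyZ
    have h4 : Real.sqrt (y + 2) ≤ Real.sqrt Z := Real.sqrt_le_sqrt hyZ
    have h5 : Real.log (y + 2) ≤ Real.log Z := Real.log_le_log (by linarith) hyZ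
    have h6 : 0 ≤ Real.log (y + 2) := Real.log_nonneg (by linarith)
    exact (hb y hy).trans (mul_le_mul_of_nonneg_left
      (mul_le_mul h4 (pow_le_pow_left₀ h6 h5 2) (by positivity) (by positivity)) hC.le)
  have k1 := key (t * H) htH.le (by rw [hZ]; nlinarith)
  have k2 := key (t * H + H) (by positivity) (by rw [hZ]; nlinarith)
  have k3 : |Chebyshev.psi (t * H + H) - Chebyshev.psi (t * H) - H| ≤
      2 * C * (Real.sqrt Z * Real.log Z ^ 2) := by
    have e : Chebyshev.psi (t * H + H) - Chebyshev.psi (t * H) - H =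
        (Chebyshev.psi (t * H + H) - (t * H + H)) - (Chebyshev.psi (t * H) - t * H) := by ring
    rw [e]
    have := abs_sub (Chebyshev.psi (t * H + H) - (t * H + H)) (Chebyshev.psi (t * H) - t * H)
    linarith
  unfold vv
  rw [← sq_abs]
  calc |Chebyshev.psi (t * H + H) - Chebyshev.psi (t * H) - H| ^ 2 ≤
        (2 * C * (Real.sqrt Z * Real.log Z ^ 2)) ^ 2 := pow_le_pow_left₀ (abs_nonneg _) k3 2
    _ = (2 * C) ^ 2 * (Real.sqrt Z ^ 2 * Real.log Z ^ 4) := by ring
    _ = (2 * C) ^ 2 * (Z * Real.log Z ^ 4) := by rw [Real.sq_sqrt (by linarith)]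

theorem gq_bd (h : PsiB) : ∃ C : ℝ, 0 < C ∧ ∀ t A B : ℝ, 0 < t → 1 ≤ A → A ≤ B →
    Gq t A B ≤ C * ((t + 3) * Real.log ((t + 3) * B) ^ 4 * Real.log B) := by
  obtain ⟨C, hC, hb⟩ := vv_bd h
  refine ⟨C, hC, fun t A B ht hA hAB => ?_⟩
  have hA0 : 0 < A := by linarith
  have hB0 : 0 < B := by linarith
  set K := C * ((t + 3) * Real.log ((t + 3) * B) ^ 4) with hK
  have hK0 : 0 ≤ K := by positivity
  have h1 : ‖∫ H in A..B, vv (t * H) H / H ^ 2‖ ≤ ∫ H in A..B, K * (1 / H) := by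
    refine intervalIntegral.norm_integral_le_of_norm_le hAB
      (Eventually.of_forall fun H hH => ?_) ?_
    · have hH1 : 1 ≤ H := hA.trans hH.1.le
      have hH0 : 0 < H := by linarith
      have hv0 : 0 ≤ vv (t * H) H := by unfold vv; positivity
      rw [Real.norm_of_nonneg (by positivity)]
      have h2 := hb t H ht hH1
      have h3 : Real.log ((t + 3) * H) ≤ Real.log ((t + 3) * B) :=
        Real.log_le_log (by positivity) (mul_le_mul_of_nonneg_left hH.2 (by linarith))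
      have h4 : 0 ≤ Real.log ((t + 3) * H) := Real.log_nonneg (by nlinarith)
      have h5 := pow_le_pow_left₀ h4 h3 4
      rw [div_le_iff₀ (by positivity)]
      calc vv (t * H) H ≤ C * ((t + 3) * H * Real.log ((t + 3) * H) ^ 4) := h2
        _ ≤ C * ((t + 3) * H * Real.log ((t + 3) * B) ^ 4) := by
            refine mul_le_mul_of_nonneg_left (mul_le_mul_of_nonneg_left h5 ?_) hC.le
            positivity
        _ = K * (1 / H) * H ^ 2 := by
            rw [hK]
            field_simp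
    · refine (intervalIntegral.intervalIntegrable_one_div (fun x hx => ?_)
        continuousOn_id).const_mul K
      rw [uIcc_of_le hAB] at hx
      simp only [id]
      linarith [hx.1]
  have h2 : ∫ H in A..B, K * (1 / H) = K * Real.log (B / A) := by
    rw [intervalIntegral.integral_const_mul, integral_one_div_of_pos hA0 hB0]
  have h3 : Real.log (B / A) ≤ Real.log B := by
    rw [Real.log_div hB0.ne' hA0.ne']
    have := Real.log_nonneg hA
    linarith
  unfold Gq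
  calc ∫ H in A..B, vv (t * H) H / H ^ 2 ≤ ‖∫ H in A..B, vv (t * H) H / H ^ 2‖ := le_abs_self _
    _ ≤ K * Real.log (B / A) := by rw [← h2]; exact h1
    _ ≤ K * Real.log B := mul_le_mul_of_nonneg_left h3 hK0
    _ = C * ((t + 3) * Real.log ((t + 3) * B) ^ 4 * Real.log B) := by rw [hK]; ring

theorem first_bd (h : PsiB) {a b : ℝ} (ha : 1 ≤ a) (hab : a < b) : ∃ C : ℝ, 0 < C ∧ ∀ T t : ℝ,
    3 ≤ T → 0 < t → t ≤ T ^ (1 / 3 : ℝ) →
    Gq t (T ^ (a - 1)) (T ^ (b - 1)) ≤ C * (T ^ (1 / 3 : ℝ) * Real.log T ^ 5) := by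
  obtain ⟨C, hC, hb⟩ := gq_bd h
  have hb1 : 1 < b := ha.trans_lt hab
  refine ⟨C * (4 * (b + 1) ^ 4 * (b - 1)), by
    have : 0 < b - 1 := by linarith
    positivity, fun T t hT ht htT => ?_⟩
  have hT0 : 0 < T := by linarith
  have hT1 : 1 ≤ T := by linarith
  have hlT : 0 ≤ Real.log T := Real.log_nonneg hT1
  have h1 : (1 : ℝ) ≤ T ^ (a - 1) := Real.one_le_rpow hT1 (by linarith)
  have h2 : T ^ (a - 1) ≤ T ^ (b - 1) := Real.rpow_le_rpow_of_exponent_le hT1 (by linarith)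
  have h3 := hb t _ _ ht h1 h2
  have hr1 : (1 : ℝ) ≤ T ^ (1 / 3 : ℝ) := Real.one_le_rpow hT1 (by norm_num)
  have hrT : T ^ (1 / 3 : ℝ) ≤ T := by
    calc T ^ (1 / 3 : ℝ) ≤ T ^ (1 : ℝ) := Real.rpow_le_rpow_of_exponent_le hT1 (by norm_num)
      _ = T := Real.rpow_one T
  have h4 : t + 3 ≤ 4 * T ^ (1 / 3 : ℝ) := by linarith
  have h5 : t + 3 ≤ T ^ 2 := by nlinarith
  have h6 : Real.log ((t + 3) * T ^ (b - 1)) ≤ (b + 1) * Real.log T := by
    rw [Real.log_mul (by linarith) (by positivity), Real.log_rpow hT0]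
    have : Real.log (t + 3) ≤ Real.log (T ^ 2) := Real.log_le_log (by linarith) h5
    rw [Real.log_pow] at this
    push_cast at this
    linarith
  have h7 : 0 ≤ Real.log ((t + 3) * T ^ (b - 1)) := Real.log_nonneg (by nlinarith)
  have h8 := pow_le_pow_left₀ h7 h6 4
  have h9 : Real.log (T ^ (b - 1)) = (b - 1) * Real.log T := Real.log_rpow hT0 _
  rw [h9] at h3
  have hbb : 0 < b - 1 := by linarith
  refine h3.trans ?_
  calc C * ((t + 3) * Real.log ((t + 3) * T ^ (b - 1)) ^ 4 * ((b - 1) * Real.log T))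
      ≤ C * ((4 * T ^ (1 / 3 : ℝ)) * ((b + 1) * Real.log T) ^ 4 * ((b - 1) * Real.log T)) := by
        refine mul_le_mul_of_nonneg_left (mul_le_mul_of_nonneg_right (mul_le_mul h4 h8 ?_ ?_) ?_) hC.le
        · positivity
        · positivity
        · positivity
    _ = C * (4 * (b + 1) ^ 4 * (b - 1)) * (T ^ (1 / 3 : ℝ) * Real.log T ^ 5) := by ring

/-- the small part tends to zero -/
theorem small_tendsto (C : ℝ) : Tendsto (fun T : ℝ =>
    T ^ (1 / 3 : ℝ) * (C * (T ^ (1 / 3 : ℝ) * Real.log T ^ 5)) / (T * Real.log T ^ 2)) atTop (𝓝 0) := by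
  have h1 : (fun T : ℝ => Real.log T ^ (3 : ℝ)) =o[atTop] fun T : ℝ => T ^ (1 / 3 : ℝ) :=
    isLittleO_log_rpow_rpow_atTop 3 (by norm_num)
  have h2 := h1.tendsto_div_nhds_zero.const_mul C
  rw [mul_zero] at h2
  refine h2.congr' ?_
  filter_upwards [eventually_gt_atTop (1 : ℝ)] with T hT
  have hT0 : 0 < T := by linarith
  have hl : 0 < Real.log T := Real.log_pos hT
  have e1 : Real.log T ^ (3 : ℝ) = Real.log T ^ 3 := by
    have := Real.rpow_natCast (Real.log T) 3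
    push_cast at this
    exact this
  have e2 : T = T ^ (1 / 3 : ℝ) * T ^ (1 / 3 : ℝ) * T ^ (1 / 3 : ℝ) := by
    rw [← Real.rpow_add hT0, ← Real.rpow_add hT0]
    norm_num
  rw [e1]
  obtain ⟨r, hr⟩ : ∃ r, r = T ^ (1 / 3 : ℝ) := ⟨_, rfl⟩
  have hr0 : 0 < r := by rw [hr]; positivity
  rw [← hr] at e2 ⊢
  have e3 : T * Real.log T ^ 2 = r * r * r * Real.log T ^ 2 := by rw [← e2]
  rw [e3]
  field_simp

/-- the main range -/
theorem window (hG : S_G) (hL : Lim) {a b : ℝ} (ha : 1 ≤ a) (hab : a < b) {ε θ : ℝ} (hε : 0 < ε)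
    (hθ : 0 < θ) (hθ1 : θ < 1) : ∀ᶠ T : ℝ in atTop, ∀ t ∈ Icc (θ * T) T,
    (b - a - ε) * Real.log T ^ 2 ≤ Gq t (T ^ (a - 1)) (T ^ (b - 1)) ∧
      Gq t (T ^ (a - 1)) (T ^ (b - 1)) ≤ (b - a + ε) * Real.log T ^ 2 := by
  obtain ⟨g1, g2, -, -, -⟩ := hG
  have hb1 : 1 < b := ha.trans_lt hab
  obtain ⟨δ, hδ0, hδ1, hδ2⟩ : ∃ δ : ℝ, 0 < δ ∧ δ < b - a ∧ δ ≤ ε / 4 :=
    ⟨min ((b - a) / 2) (ε / 4), lt_min (by linarith) (by linarith),
      (min_le_left _ _).trans_lt (by linarith), min_le_right _ _⟩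
  have l1 := (hL (a + δ) b (by linarith) (by linarith)).eventually
    (lt_mem_nhds (show b - a - ε / 2 < b - (a + δ) by linarith))
  have l2 := (hL a (b + δ) ha (by linarith)).eventually
    (gt_mem_nhds (show b + δ - a < b - a + ε by linarith))
  have l3 := (tendsto_rpow_atTop hδ0).eventually (eventually_ge_atTop ((1 / θ) ^ (b - 1)))
  obtain ⟨t0, ht0⟩ := eventually_atTop.1 (l1.and (l2.and l3))
  have m1 := Real.tendsto_log_atTop.eventually
    (eventually_ge_atTop (max (-Real.log θ) (4 * (-Real.log θ) * (b - a) / ε)))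
  filter_upwards [eventually_ge_atTop (max t0 2 / θ), m1] with T hT hlT t ht
  have hT2 : max t0 2 ≤ θ * T := by
    rw [div_le_iff₀ hθ] at hT
    linarith
  have htt0 : t0 ≤ t := (le_max_left _ _).trans (hT2.trans ht.1)
  have ht2 : 2 ≤ t := (le_max_right _ _).trans (hT2.trans ht.1)
  have htT : t ≤ T := ht.2
  have ht0' : 0 < t := by linarith
  have hT0 : 0 < T := by linarith
  obtain ⟨j1, j2, j3⟩ := ht0 t htt0
  have hTt : T ≤ t * (1 / θ) := by
    rw [mul_one_div, le_div_iff₀ hθ]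
    linarith [ht.1]
  have hθi : 1 ≤ 1 / θ := by
    rw [le_div_iff₀ hθ]; linarith
  have hpow : ∀ c : ℝ, 0 ≤ c → c ≤ b - 1 → T ^ c ≤ t ^ (c + δ) := by
    intro c hc hcb
    calc T ^ c ≤ (t * (1 / θ)) ^ c := Real.rpow_le_rpow hT0.le hTt hc
      _ = t ^ c * (1 / θ) ^ c := Real.mul_rpow ht0'.le (by positivity)
      _ ≤ t ^ c * (1 / θ) ^ (b - 1) := by
          refine mul_le_mul_of_nonneg_left (Real.rpow_le_rpow_of_exponent_le hθi hcb) ?_
          positivity
      _ ≤ t ^ c * t ^ δ := mul_le_mul_of_nonneg_left j3 (by positivity)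
      _ = t ^ (c + δ) := (Real.rpow_add ht0' c δ).symm
  have hlt : 0 < Real.log t := Real.log_pos (by linarith)
  have hltT : Real.log t ≤ Real.log T := Real.log_le_log ht0' htT
  have hA0 : (0 : ℝ) < T ^ (a - 1) := by positivity
  have hAB : T ^ (a - 1) ≤ T ^ (b - 1) :=
    Real.rpow_le_rpow_of_exponent_le (by linarith) (by linarith)
  constructor
  · -- lower bound
    rcases le_or_gt (b - a - ε / 2) 0 with hX | hX
    · have h1 := g1 t _ _ ht0' hA0 hAB
      have h2 : (b - a - ε) * Real.log T ^ 2 ≤ 0 :=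
        mul_nonpos_of_nonpos_of_nonneg (by linarith) (by positivity)
      linarith
    · have h1 : Gq t (t ^ (a + δ - 1)) (t ^ (b - 1)) ≤ Gq t (T ^ (a - 1)) (T ^ (b - 1)) := by
        refine g2 t _ _ _ _ ht0' hA0 ?_ ?_ ?_
        · have := hpow (a - 1) (by linarith) (by linarith)
          have e : a - 1 + δ = a + δ - 1 := by ring
          rwa [e] at this
        · exact Real.rpow_le_rpow_of_exponent_le (by linarith) (by linarith)
        · exact Real.rpow_le_rpow ht0'.le htT (by linarith)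
      have h2 : (b - a - ε / 2) * Real.log t ^ 2 ≤ Gq t (t ^ (a + δ - 1)) (t ^ (b - 1)) := by
        have h3 : b - a - ε / 2 < Jg t (a + δ) b := j1
        unfold Jg at h3
        rw [lt_div_iff₀ (by positivity)] at h3
        exact h3.le
      have h4 : Real.log T - (-Real.log θ) ≤ Real.log t := by
        have h5 : Real.log T ≤ Real.log (t * (1 / θ)) := Real.log_le_log hT0 hTt
        rw [Real.log_mul ht0'.ne' (by positivity), one_div, Real.log_inv] at h5
        linarith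
      have hc0 : 0 < -Real.log θ := by
        have := Real.log_neg hθ hθ1
        linarith
      obtain ⟨c, hc⟩ : ∃ c, c = -Real.log θ := ⟨_, rfl⟩
      rw [← hc] at h4 hc0 hlT
      have h6 : c ≤ Real.log T := (le_max_left _ _).trans hlT
      have h7 : 4 * c * (b - a) / ε ≤ Real.log T := (le_max_right _ _).trans hlT
      rw [div_le_iff₀ hε] at h7
      have h8 : Real.log T ^ 2 - 2 * c * Real.log T ≤ Real.log t ^ 2 := by
        have : (Real.log T - c) ^ 2 ≤ Real.log t ^ 2 :=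
          pow_le_pow_left₀ (by linarith) h4 2
        nlinarith [sq_nonneg c]
      have h9 : (b - a - ε) * Real.log T ^ 2 ≤ (b - a - ε / 2) * Real.log t ^ 2 := by
        have h10 : (b - a - ε / 2) * (Real.log T ^ 2 - 2 * c * Real.log T) ≤
            (b - a - ε / 2) * Real.log t ^ 2 := mul_le_mul_of_nonneg_left h8 hX.le
        have hlT0 : 0 < Real.log T := by linarith
        have h11 : (b - a - ε / 2) * (2 * c) ≤ ε / 2 * Real.log T := by
          have : (b - a - ε / 2) * (2 * c) ≤ (b - a) * (2 * c) :=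
            mul_le_mul_of_nonneg_right (by linarith) (by linarith)
          linarith
        have h12 := mul_le_mul_of_nonneg_right h11 hlT0.le
        nlinarith
      linarith
  · -- upper bound
    have h1 : Gq t (T ^ (a - 1)) (T ^ (b - 1)) ≤ Gq t (t ^ (a - 1)) (t ^ (b + δ - 1)) := by
      refine g2 t _ _ _ _ ht0' (by positivity) ?_ hAB ?_
      · exact Real.rpow_le_rpow ht0'.le htT (by linarith)
      · have := hpow (b - 1) (by linarith) le_rfl
        have e : b - 1 + δ = b + δ - 1 := by ring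
        rwa [e] at this
    have h2 : Gq t (t ^ (a - 1)) (t ^ (b + δ - 1)) ≤ (b - a + ε) * Real.log t ^ 2 := by
      have h3 : Jg t a (b + δ) < b - a + ε := j2
      unfold Jg at h3
      rw [div_lt_iff₀ (by positivity)] at h3
      exact h3.le
    have h3 : (b - a + ε) * Real.log t ^ 2 ≤ (b - a + ε) * Real.log T ^ 2 :=
      mul_le_mul_of_nonneg_left (pow_le_pow_left₀ hlt.le hltT 2) (by linarith)
    linarith

/-- the middle range -/
theorem mid_bd (hG : S_G) (hL : Lim) {a b : ℝ} (ha : 1 ≤ a) (hab : a < b) :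
    ∀ᶠ T : ℝ in atTop, ∀ t ∈ Icc (T ^ (1 / 3 : ℝ)) T,
      Gq t (T ^ (a - 1)) (T ^ (b - 1)) ≤ (3 * b - 2) * Real.log T ^ 2 := by
  obtain ⟨g1, g2, -, -, -⟩ := hG
  have hb1 : 1 < b := ha.trans_lt hab
  have l1 := (hL 1 (3 * b - 2) le_rfl (by linarith)).eventually
    (gt_mem_nhds (show 3 * b - 2 - 1 < 3 * b - 2 by linarith))
  obtain ⟨t0, ht0⟩ := eventually_atTop.1 l1
  filter_upwards [(tendsto_rpow_atTop (show (0 : ℝ) < 1 / 3 by norm_num)).eventually
    (eventually_ge_atTop (max t0 2)), eventually_gt_atTop (1 : ℝ)] with T hT hT1 t ht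
  have htt0 : t0 ≤ t := (le_max_left _ _).trans (hT.trans ht.1)
  have ht2 : 2 ≤ t := (le_max_right _ _).trans (hT.trans ht.1)
  have ht0' : 0 < t := by linarith
  have hT0 : 0 < T := by linarith
  have hT3 : T ≤ t ^ (3 : ℝ) := by
    calc T = (T ^ (1 / 3 : ℝ)) ^ (3 : ℝ) := by
          rw [← Real.rpow_mul hT0.le]; norm_num
      _ ≤ t ^ (3 : ℝ) := Real.rpow_le_rpow (by positivity) ht.1 (by norm_num)
  have h1 : Gq t (T ^ (a - 1)) (T ^ (b - 1)) ≤ Gq t (t ^ ((1 : ℝ) - 1)) (t ^ (3 * b - 2 - 1)) := by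
    refine g2 t _ _ _ _ ht0' (by positivity) ?_ ?_ ?_
    · rw [sub_self, Real.rpow_zero]
      exact Real.one_le_rpow hT1.le (by linarith)
    · exact Real.rpow_le_rpow_of_exponent_le hT1.le (by linarith)
    · calc T ^ (b - 1) ≤ (t ^ (3 : ℝ)) ^ (b - 1) := Real.rpow_le_rpow hT0.le hT3 (by linarith)
        _ = t ^ (3 * b - 2 - 1) := by
            rw [← Real.rpow_mul ht0'.le]
            congr 1
            ring
  have hlt : 0 < Real.log t := Real.log_pos (by linarith)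
  have h2 : Gq t (t ^ ((1 : ℝ) - 1)) (t ^ (3 * b - 2 - 1)) ≤ (3 * b - 2) * Real.log t ^ 2 := by
    have h3 : Jg t 1 (3 * b - 2) < 3 * b - 2 := ht0 t htt0
    unfold Jg at h3
    rw [div_lt_iff₀ (by positivity)] at h3
    exact h3.le
  have h3 : (3 * b - 2) * Real.log t ^ 2 ≤ (3 * b - 2) * Real.log T ^ 2 :=
    mul_le_mul_of_nonneg_left (pow_le_pow_left₀ hlt.le (Real.log_le_log ht0' ht.2) 2)
      (by linarith)
  linarith

end Lm

open Lm in
theorem t_lim : S_lim := by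
  intro hG hK hP hL a b ha hab
  have hb1 : 1 < b := ha.trans_lt hab
  have g1 := hG.1
  obtain ⟨C, hC, hfirst⟩ := first_bd hP ha hab
  rw [Metric.tendsto_nhds]
  intro ε hε
  have hM : 0 < 3 * b - 2 + (b - a) := by linarith
  obtain ⟨θ, hθ0, hθ1, hθ2⟩ : ∃ θ : ℝ, 0 < θ ∧ θ < 1 ∧ θ * (3 * b - 2 + (b - a)) ≤ ε / 8 := by
    refine ⟨min (1 / 2) (ε / (8 * (3 * b - 2 + (b - a)))), lt_min (by norm_num) (by positivity),
      (min_le_left _ _).trans_lt (by norm_num), ?_⟩
    calc min (1 / 2) (ε / (8 * (3 * b - 2 + (b - a)))) * (3 * b - 2 + (b - a)) ≤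
          ε / (8 * (3 * b - 2 + (b - a))) * (3 * b - 2 + (b - a)) :=
          mul_le_mul_of_nonneg_right (min_le_right _ _) hM.le
      _ = ε / 8 := by field_simp
  have e1 := window hG hL ha hab (show 0 < ε / 8 by positivity) hθ0 hθ1
  have e2 := mid_bd hG hL ha hab
  have e3 := (small_tendsto C).eventually (gt_mem_nhds (show (0 : ℝ) < ε / 8 by positivity))
  -- `T ^ (1/3) ≤ θ T`
  have e4 : ∀ᶠ T : ℝ in atTop, T ^ (1 / 3 : ℝ) ≤ θ * T := by
    filter_upwards [(tendsto_rpow_atTop (show (0 : ℝ) < 2 / 3 by norm_num)).eventually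
      (eventually_ge_atTop (1 / θ)), eventually_gt_atTop (0 : ℝ)] with T hT hT0
    rw [div_le_iff₀ hθ0] at hT
    have e : T = T ^ (1 / 3 : ℝ) * T ^ (2 / 3 : ℝ) := by
      rw [← Real.rpow_add hT0]
      norm_num
    have h3 : (0 : ℝ) < T ^ (1 / 3 : ℝ) := by positivity
    calc T ^ (1 / 3 : ℝ) = T ^ (1 / 3 : ℝ) * 1 := (mul_one _).symm
      _ ≤ T ^ (1 / 3 : ℝ) * (T ^ (2 / 3 : ℝ) * θ) := mul_le_mul_of_nonneg_left hT h3.le
      _ = θ * (T ^ (1 / 3 : ℝ) * T ^ (2 / 3 : ℝ)) := by ring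
      _ = θ * T := by rw [← e]
  filter_upwards [e1, e2, e3, e4, eventually_ge_atTop (3 : ℝ),
    eventually_ge_atTop (4 * (b - a) / ε), eventually_ge_atTop (1 / (2 * (1 - θ)))] with
    T k1 k2 k3 k4 hT3 hTe hTθ
  have hT0 : 0 < T := by linarith
  have hT1 : 1 < T := by linarith
  have hl : 0 < Real.log T := Real.log_pos hT1
  have hA0 : (0 : ℝ) < T ^ (a - 1) := by positivity
  have hAB : T ^ (a - 1) ≤ T ^ (b - 1) := Real.rpow_le_rpow_of_exponent_le hT1.le (by linarith)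
  have hr1 : (1 : ℝ) ≤ T ^ (1 / 3 : ℝ) := Real.one_le_rpow hT1.le (by norm_num)
  have hθT : θ * T ≤ T - 1 / 2 := by
    rw [div_le_iff₀ (by linarith)] at hTθ
    nlinarith
  rw [Real.dist_eq, hK.1 T a b hT1 hab.le]
  obtain ⟨F, hF⟩ : ∃ F : ℝ → ℝ, F = fun t => Gq t (T ^ (a - 1)) (T ^ (b - 1)) := ⟨_, rfl⟩
  have hF' : ∀ t, Gq t (T ^ (a - 1)) (T ^ (b - 1)) = F t := fun t => by rw [hF]
  have hint : ∀ p q : ℝ, 0 < p → p ≤ q → IntervalIntegrable F volume p q := by
    intro p q hp hpq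
    rw [hF]
    exact gq_int hG hA0 hAB hp hpq
  simp only [hF'] at k1 k2 ⊢
  have i1 := hint (1 / 2) (T ^ (1 / 3 : ℝ)) (by norm_num) (by linarith)
  have i2 := hint (T ^ (1 / 3 : ℝ)) (θ * T) (by linarith) k4
  have i3 := hint (θ * T) (T - 1 / 2) (by positivity) hθT
  have hsplit : ∫ t in (1 / 2)..(T - 1 / 2), F t = (∫ t in (1 / 2)..(T ^ (1 / 3 : ℝ)), F t) +
      (∫ t in (T ^ (1 / 3 : ℝ))..(θ * T), F t) + ∫ t in (θ * T)..(T - 1 / 2), F t := by
    rw [intervalIntegral.integral_add_adjacent_intervals i1 i2,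
      intervalIntegral.integral_add_adjacent_intervals (i1.trans i2) i3]
  have hFnn : ∀ t, 0 < t → 0 ≤ F t := fun t ht => by
    rw [← hF']; exact g1 t _ _ ht hA0 hAB
  -- first part
  have u1 : ∫ t in (1 / 2)..(T ^ (1 / 3 : ℝ)), F t ≤
      T ^ (1 / 3 : ℝ) * (C * (T ^ (1 / 3 : ℝ) * Real.log T ^ 5)) := by
    have h1 := int_le (show (1 / 2 : ℝ) ≤ T ^ (1 / 3 : ℝ) by linarith) i1 (fun t ht => by
      rw [← hF']; exact hfirst T t hT3 (by linarith [ht.1]) ht.2)
    refine h1.trans (mul_le_mul_of_nonneg_right (by linarith) (by positivity))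
  have v1 : 0 ≤ ∫ t in (1 / 2)..(T ^ (1 / 3 : ℝ)), F t :=
    intervalIntegral.integral_nonneg (by linarith) fun t ht => hFnn t (by linarith [ht.1])
  -- second part
  have u2 : ∫ t in (T ^ (1 / 3 : ℝ))..(θ * T), F t ≤ θ * T * ((3 * b - 2) * Real.log T ^ 2) := by
    have h1 := int_le k4 i2 (fun t ht => k2 t ⟨ht.1, ht.2.trans (by nlinarith)⟩)
    refine h1.trans (mul_le_mul_of_nonneg_right (by linarith) ?_)
    have : 0 ≤ 3 * b - 2 := by linarith
    positivity
  have v2 : 0 ≤ ∫ t in (T ^ (1 / 3 : ℝ))..(θ * T), F t :=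
    intervalIntegral.integral_nonneg k4 fun t ht => hFnn t (by linarith [ht.1])
  -- third part
  have u3 : ∫ t in (θ * T)..(T - 1 / 2), F t ≤ T * ((b - a + ε / 8) * Real.log T ^ 2) := by
    have h1 := int_le hθT i3 (fun t ht => (k1 t ⟨ht.1, by linarith [ht.2]⟩).2)
    refine h1.trans (mul_le_mul_of_nonneg_right (by nlinarith) ?_)
    have : 0 ≤ b - a + ε / 8 := by linarith
    positivity
  have v3 : (T - 1 / 2 - θ * T) * ((b - a - ε / 8) * Real.log T ^ 2) ≤
      ∫ t in (θ * T)..(T - 1 / 2), F t :=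
    le_int hθT i3 (fun t ht => (k1 t ⟨ht.1, by linarith [ht.2]⟩).1)
  rw [hsplit]
  have hD : 0 < T * Real.log T ^ 2 := by positivity
  rw [one_div, inv_mul_eq_div]
  have k3' : T ^ (1 / 3 : ℝ) * (C * (T ^ (1 / 3 : ℝ) * Real.log T ^ 5)) <
      ε / 8 * (T * Real.log T ^ 2) := by
    rwa [div_lt_iff₀ hD] at k3
  rw [div_le_iff₀ hε] at hTe
  rw [abs_lt]
  constructor
  · rw [lt_sub_iff_add_lt, lt_div_iff₀ hD]
    have h1 : (T - 1 / 2 - θ * T) * ((b - a - ε / 8) * Real.log T ^ 2) ≥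
        (T * (b - a) - T * (ε / 8) - T * (ε / 8) - T * (ε / 8)) * Real.log T ^ 2 := by
      have h2 : (T - 1 / 2 - θ * T) * (b - a - ε / 8) ≥
          T * (b - a) - T * (ε / 8) - T * (ε / 8) - T * (ε / 8) := by
        have h3 : θ * (b - a) ≤ ε / 8 := by nlinarith
        have h4 : T * (θ * (b - a)) ≤ T * (ε / 8) := mul_le_mul_of_nonneg_left h3 hT0.le
        have h5 : 0 ≤ (1 / 2 + θ * T) * (ε / 8) := by positivity
        nlinarith
      calc (T - 1 / 2 - θ * T) * ((b - a - ε / 8) * Real.log T ^ 2) =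
            ((T - 1 / 2 - θ * T) * (b - a - ε / 8)) * Real.log T ^ 2 := by ring
        _ ≥ _ := mul_le_mul_of_nonneg_right h2 (by positivity)
    nlinarith
  · rw [sub_lt_iff_lt_add, div_lt_iff₀ hD]
    have h1 : θ * T * ((3 * b - 2) * Real.log T ^ 2) ≤ ε / 8 * (T * Real.log T ^ 2) := by
      have h2 : θ * (3 * b - 2) ≤ ε / 8 := by nlinarith
      calc θ * T * ((3 * b - 2) * Real.log T ^ 2) = (θ * (3 * b - 2)) * (T * Real.log T ^ 2) := by
            ring
        _ ≤ ε / 8 * (T * Real.log T ^ 2) := mul_le_mul_of_nonneg_right h2 hD.le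
    nlinarith

end Pool.Agent.NH13.LV
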