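import Mathlib

/-!
# The variance of primes in intervals of fixed length, on logarithmic average: definitions

`vv x h` is the square of the error of the prime number theorem in `(x, x + h]`,
`Gq t A B = ∫_A^B vv (t H) H dH / H²` (the intervals `(x, x + x/t]` with `x/t` between `A` and `B`),
`psiH x H` is the sum of the problem (centred intervals), `Vc X H` the mean square over
`H ≤ x ≤ X`, `Vl η X H` the mean square over `X ≤ x ≤ (1+η) X`, and `Kc`, `Kl` the logarithmic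
averages of `Vc X H / H`, `Vl η X H / H` for `H = X / T`, `T ^ a ≤ X ≤ T ^ b`, over `log² T`.
-/

set_option autoImplicit false

open MeasureTheory Filter Topology Set

namespace Pool.Agent.NH13.LV

/-- the squared error for the primes in `(x, x + h]` -/
noncomputable def vv (x h : ℝ) : ℝ := (Chebyshev.psi (x + h) - Chebyshev.psi x - h) ^ 2

/-- the mean square along the lines `x = t H` -/
noncomputable def Gq (t A B : ℝ) : ℝ := ∫ H in A..B, vv (t * H) H / H ^ 2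

/-- the normalised mean square -/
noncomputable def Jg (T a b : ℝ) : ℝ := Gq T (T ^ (a - 1)) (T ^ (b - 1)) / Real.log T ^ 2

/-- `ψ(x; H)` of the problem: the sum of `Λ(n)` over `x - H/2 ≤ n ≤ x + H/2` -/
noncomputable def psiH (x H : ℝ) : ℝ :=
  ∑ᶠ n ∈ {n : ℕ | 1 ≤ n ∧ x - H / 2 ≤ n ∧ (n : ℝ) ≤ x + H / 2}, ArithmeticFunction.vonMangoldt n

/-- the mean square over `H ≤ x ≤ X` -/
noncomputable def Vc (X H : ℝ) : ℝ := 1 / X * ∫ x in H..X, (psiH x H - H) ^ 2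

/-- the mean square over `X ≤ x ≤ (1 + η) X` -/
noncomputable def Vl (η X H : ℝ) : ℝ := 1 / (η * X) * ∫ x in X..((1 + η) * X), (psiH x H - H) ^ 2

/-- the logarithmic average of `Vc X H / H`, `H = X / T`, over `T ^ a ≤ X ≤ T ^ b` -/
noncomputable def Kc (T a b : ℝ) : ℝ :=
  1 / Real.log T ^ 2 * ∫ X in (T ^ a)..(T ^ b), Vc X (X / T) / (X / T) / X

/-- the same for `Vl η` -/
noncomputable def Kl (η T a b : ℝ) : ℝ :=
  1 / Real.log T ^ 2 * ∫ X in (T ^ a)..(T ^ b), Vl η X (X / T) / (X / T) / X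

/-- the asymptotic formula for the lines -/
def Lim : Prop := ∀ a b : ℝ, 1 ≤ a → a < b → Tendsto (fun T => Jg T a b) atTop (𝓝 (b - a))

/-- the upper bound for the lines -/
def Up : Prop := ∀ a b : ℝ, 1 ≤ a → a < b → ∀ ε : ℝ, 0 < ε → ∀ᶠ T in atTop, Jg T a b ≤ b - a + ε

/-- the asymptotic formula on logarithmic average -/
def LimC : Prop := ∀ a b : ℝ, 1 ≤ a → a < b → Tendsto (fun T => Kc T a b) atTop (𝓝 (b - a))

/-- the local upper bound on logarithmic average -/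
def UpL : Prop := ∀ η : ℝ, 0 < η → ∀ a b : ℝ, 1 ≤ a → a < b → ∀ ε : ℝ, 0 < ε →
  ∀ᶠ T in atTop, Kl η T a b ≤ b - a + ε

/-- the error term of the prime number theorem under RH -/
def PsiB : Prop := ∃ C : ℝ, 0 < C ∧ ∀ x : ℝ, 2 ≤ x →
  |Chebyshev.psi x - x| ≤ C * (Real.sqrt x * Real.log x ^ 2)

/-! ### the statements -/

/-- LV-1: basic facts on `Gq` -/
def S_G : Prop :=
  (∀ t A B : ℝ, 0 < t → 0 < A → A ≤ B → 0 ≤ Gq t A B) ∧
  (∀ t A B A' B' : ℝ, 0 < t → 0 < A' → A' ≤ A → A ≤ B → B ≤ B' → Gq t A B ≤ Gq t A' B') ∧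
  (∀ t A B C : ℝ, 0 < t → 0 < A → A ≤ B → B ≤ C → Gq t A C = Gq t A B + Gq t B C) ∧
  (∀ A B : ℝ, 0 < A → A ≤ B → Measurable fun t => Gq t A B) ∧
  (∀ A B : ℝ, 0 < A → A ≤ B → ∀ p q : ℝ, 0 < p → p ≤ q → ∃ C : ℝ, ∀ t ∈ Icc p q, Gq t A B ≤ C)

/-- LV-2: the logarithmic averages are averages of `Gq` -/
def S_K : Prop :=
  (∀ T a b : ℝ, 1 < T → a ≤ b → Kc T a b = 1 / (T * Real.log T ^ 2) *
    ∫ t in (1 / 2)..(T - 1 / 2), Gq t (T ^ (a - 1)) (T ^ (b - 1))) ∧
  (∀ η T a b : ℝ, 0 < η → 1 < T → a ≤ b → Kl η T a b = 1 / (η * T * Real.log T ^ 2) *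
    ∫ t in (T - 1 / 2)..((1 + η) * T - 1 / 2), Gq t (T ^ (a - 1)) (T ^ (b - 1)))

/-- LV-3: short intervals of length between `c` and `1` -/
def S_sh : Prop := ∀ c : ℝ, 0 < c → c ≤ 1 → ∃ C : ℝ, ∀ t : ℝ, 2 ≤ t → Gq t c 1 ≤ C * Real.log t

/-- LV-4: the inequality of Saffari and Vaughan -/
def S_SV : Prop := ∀ η κ T A B : ℝ, 0 < η → η ≤ 1 / 4 → 0 < κ → 10 ≤ T → 0 < A → A ≤ B →
  Gq T A B ≤ (1 + κ) * (1 / (η * T) *
      ∫ t in (T / (1 - η))..(T / (1 - 2 * η)), Gq t ((1 - 2 * η) * A) B) +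
    (1 + 1 / κ) * (8 * η ^ 2 / T *
      ∫ t in ((T + 1) / (2 * η) - 1)..((T + 1) / η - 1), Gq t (η * A) (2 * η * B))

/-- LV-5: from the local averages to the lines -/
def S_up : Prop := S_G → S_K → S_sh → S_SV → UpL → Up

/-- LV-6: from the lines to the averages -/
def S_lim : Prop := S_G → S_K → PsiB → Lim → LimC

/-- LV-7: from the averages to the local averages -/
def S_loc : Prop := S_G → S_K → LimC → UpL

end Pool.Agent.NH13.LV
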