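import Mathlib
import Pool.Agent.NH13.LV.Defs

/-!
# Basic facts on the mean squares along lines
-/

set_option autoImplicit false

open MeasureTheory Filter Topology Set

namespace Pool.Agent.NH13.LV

namespace LG

/-- the integrand -/
noncomputable def F (t H : ℝ) : ℝ := vv (t * H) H / H ^ 2

theorem F_meas2 : Measurable fun p : ℝ × ℝ => F p.1 p.2 := by
  unfold F vv
  have h1 : Measurable fun p : ℝ × ℝ => Chebyshev.psi (p.1 * p.2 + p.2) :=
    Chebyshev.psi_mono.measurable.comp ((measurable_fst.mul measurable_snd).add measurable_snd)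
  have h2 : Measurable fun p : ℝ × ℝ => Chebyshev.psi (p.1 * p.2) :=
    Chebyshev.psi_mono.measurable.comp (measurable_fst.mul measurable_snd)
  have h3 : Measurable fun p : ℝ × ℝ =>
      (Chebyshev.psi (p.1 * p.2 + p.2) - Chebyshev.psi (p.1 * p.2) - p.2) ^ 2 :=
    ((h1.sub h2).sub measurable_snd).pow_const 2
  have h4 : Measurable fun p : ℝ × ℝ => p.2 ^ 2 := measurable_snd.pow_const 2
  exact h3.div h4

theorem F_meas (t : ℝ) : Measurable (F t) := by
  change Measurable fun H => F t H
  unfold F vv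
  have h0 : Measurable fun H : ℝ => t * H := measurable_const.mul measurable_id
  have h1 : Measurable fun H : ℝ => Chebyshev.psi (t * H + H) :=
    Chebyshev.psi_mono.measurable.comp (h0.add measurable_id)
  have h2 : Measurable fun H : ℝ => Chebyshev.psi (t * H) :=
    Chebyshev.psi_mono.measurable.comp h0
  have h3 : Measurable fun H : ℝ =>
      (Chebyshev.psi (t * H + H) - Chebyshev.psi (t * H) - H) ^ 2 :=
    ((h1.sub h2).sub measurable_id).pow_const 2
  have h4 : Measurable fun H : ℝ => H ^ 2 := measurable_id.pow_const 2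
  exact h3.div h4

theorem F_nonneg (t H : ℝ) : 0 ≤ F t H := by
  unfold F vv
  positivity

/-- the bound -/
noncomputable def M (q A B : ℝ) : ℝ := (Chebyshev.psi ((q + 1) * B) + B) ^ 2 / A ^ 2

theorem F_bd {q A B t H : ℝ} (hA : 0 < A) (ht : 0 ≤ t) (htq : t ≤ q) (h1 : A ≤ H) (h2 : H ≤ B) :
    ‖F t H‖ ≤ M q A B := by
  rw [Real.norm_eq_abs, abs_of_nonneg (F_nonneg t H)]
  unfold F M vv
  have hH : 0 < H := lt_of_lt_of_le hA h1
  have hB : 0 < B := lt_of_lt_of_le hH h2
  have h3 : t * H ≤ q * B := mul_le_mul htq h2 hH.le (ht.trans htq)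
  have h4 : t * H + H ≤ (q + 1) * B := by
    rw [add_mul, one_mul]
    exact add_le_add h3 h2
  have h5 : Chebyshev.psi (t * H + H) ≤ Chebyshev.psi ((q + 1) * B) := Chebyshev.psi_mono h4
  have h6 : Chebyshev.psi (t * H) ≤ Chebyshev.psi ((q + 1) * B) :=
    Chebyshev.psi_mono (by linarith)
  have h7 := Chebyshev.psi_nonneg (t * H)
  have h8 := Chebyshev.psi_nonneg (t * H + H)
  have h9 : |Chebyshev.psi (t * H + H) - Chebyshev.psi (t * H) - H| ≤
      |Chebyshev.psi ((q + 1) * B) + B| := by
    rw [abs_of_nonneg (a := Chebyshev.psi ((q + 1) * B) + B) (by linarith), abs_le]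
    constructor <;> linarith
  exact div_le_div₀ (sq_nonneg _) (sq_le_sq.2 h9) (by positivity)
    (pow_le_pow_left₀ hA.le h1 2)

theorem F_int {t A B : ℝ} (ht : 0 < t) (hA : 0 < A) (hAB : A ≤ B) :
    IntervalIntegrable (F t) volume A B := by
  rw [intervalIntegrable_iff_integrableOn_Ioc_of_le hAB]
  refine Measure.integrableOn_of_bounded (M := M t A B) (by simp)
    (F_meas t).aestronglyMeasurable ?_
  rw [ae_restrict_iff' measurableSet_Ioc]
  exact ae_of_all _ fun H hH => F_bd hA ht.le le_rfl hH.1.le hH.2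

theorem Gq_eq (t A B : ℝ) : Gq t A B = ∫ H in A..B, F t H := rfl

end LG

open LG

theorem t_G : S_G := by
  refine ⟨?_, ?_, ?_, ?_, ?_⟩
  · intro t A B _ _ hAB
    rw [Gq_eq]
    exact intervalIntegral.integral_nonneg hAB fun u _ => F_nonneg t u
  · intro t A B A' B' ht hA' hAA hAB hBB
    rw [Gq_eq, Gq_eq]
    exact intervalIntegral.integral_mono_interval hAA hAB hBB
      (ae_of_all _ fun u => F_nonneg t u) (F_int ht hA' (hAA.trans (hAB.trans hBB)))
  · intro t A B C ht hA hAB hBC
    rw [Gq_eq, Gq_eq, Gq_eq]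
    exact (intervalIntegral.integral_add_adjacent_intervals (F_int ht hA hAB)
      (F_int ht (lt_of_lt_of_le hA hAB) hBC)).symm
  · intro A B _ hAB
    have h1 : (fun t => Gq t A B) = fun t => ∫ H in Ioc A B, F t H := by
      funext t
      rw [Gq_eq, intervalIntegral.integral_of_le hAB]
    rw [h1]
    exact (F_meas2.stronglyMeasurable.integral_prod_right'
      (ν := volume.restrict (Ioc A B))).measurable
  · intro A B hA hAB p q hp _
    refine ⟨M q A B * |B - A|, fun t ht => ?_⟩
    rw [Gq_eq]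
    refine (le_abs_self _).trans ?_
    rw [← Real.norm_eq_abs]
    apply intervalIntegral.norm_integral_le_of_norm_le_const
    intro H hH
    rw [uIoc_of_le hAB] at hH
    exact F_bd hA (hp.le.trans ht.1) ht.2 hH.1.le hH.2

end Pool.Agent.NH13.LV
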