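import Pool.Agent.NH13.LV.Defs

/-!
# LV-2: the logarithmic averages are averages of `Gq`
-/

set_option autoImplicit false

open MeasureTheory Filter Topology Set

namespace Pool.Agent.NH13.LV

namespace KK

theorem psi_meas : Measurable Chebyshev.psi := Chebyshev.psi_mono.measurable

/-- the sum of the problem as a difference of values of `ψ` -/
theorem psiH_eq {x H : ℝ} (hx : 0 < x - H / 2) (hH : 0 < H) (hn : ∀ n : ℕ, (n : ℝ) ≠ x - H / 2) :
    psiH x H = Chebyshev.psi (x + H / 2) - Chebyshev.psi (x - H / 2) := by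
  unfold psiH
  have hs : {n : ℕ | 1 ≤ n ∧ x - H / 2 ≤ n ∧ (n : ℝ) ≤ x + H / 2} =
      ((Finset.Ioc ⌊x - H / 2⌋₊ ⌊x + H / 2⌋₊ : Finset ℕ) : Set ℕ) := by
    ext n
    simp only [Set.mem_ofPred_eq, Finset.coe_Ioc, Set.mem_Ioc]
    constructor
    · rintro ⟨h1, h2, h3⟩
      exact ⟨(Nat.floor_lt hx.le).2 (lt_of_le_of_ne h2 (Ne.symm (hn n))), Nat.le_floor h3⟩
    · rintro ⟨h1, h2⟩
      have h3 := (Nat.floor_lt hx.le).1 h1
      have h4 : (0 : ℝ) < n := hx.trans h3
      exact ⟨by exact_mod_cast h4, h3.le, (Nat.le_floor_iff (by linarith)).1 h2⟩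
  rw [hs, finsum_mem_coe_finset]
  unfold Chebyshev.psi
  have h1 : ⌊x - H / 2⌋₊ ≤ ⌊x + H / 2⌋₊ := Nat.floor_mono (by linarith)
  have h2 := Finset.sum_Ioc_consecutive (fun n => ArithmeticFunction.vonMangoldt n)
    (Nat.zero_le ⌊x - H / 2⌋₊) h1
  linarith

/-- the inner integral -/
theorem inner_eq {H p q : ℝ} (hH : 0 < H) (hp : 0 ≤ p) (hpq : p ≤ q) :
    ∫ x in (H * p + H / 2)..(H * q + H / 2), (psiH x H - H) ^ 2 =
      H * ∫ t in p..q, vv (t * H) H := by
  have h0 := intervalIntegral.mul_integral_comp_mul_add (a := p) (b := q)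
    (f := fun x => (psiH x H - H) ^ 2) H (H / 2)
  rw [← h0]
  congr 1
  refine intervalIntegral.integral_congr_ae ?_
  have hc := (Set.countable_range (fun n : ℕ => (n : ℝ) / H)).ae_notMem volume
  filter_upwards [hc] with t ht hI
  rw [Set.uIoc_of_le hpq] at hI
  have ht0 : 0 < t := lt_of_le_of_lt hp hI.1
  have e : psiH (H * t + H / 2) H = Chebyshev.psi (t * H + H) - Chebyshev.psi (t * H) := by
    rw [psiH_eq (by nlinarith [mul_pos hH ht0]) hH]
    · congr 2 <;> ring
    · intro n hn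
      refine ht ⟨n, ?_⟩
      simp only
      rw [div_eq_iff hH.ne']
      linarith
  rw [e]
  rfl

theorem vv_meas : Measurable fun z : ℝ × ℝ => vv (z.2 * z.1) z.1 / z.1 ^ 2 := by
  unfold vv
  have h1 : Measurable fun z : ℝ × ℝ => Chebyshev.psi (z.2 * z.1 + z.1) :=
    psi_meas.comp (by fun_prop)
  have h2 : Measurable fun z : ℝ × ℝ => Chebyshev.psi (z.2 * z.1) :=
    psi_meas.comp (by fun_prop)
  exact (((h1.sub h2).sub measurable_fst).pow_const 2).div (measurable_fst.pow_const 2)

/-- Fubini -/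
theorem swap_eq {A B p q : ℝ} (hA : 0 < A) (hAB : A ≤ B) (hp : 0 ≤ p) (hpq : p ≤ q) :
    ∫ H in A..B, (∫ t in p..q, vv (t * H) H) / H ^ 2 = ∫ t in p..q, Gq t A B := by
  unfold Gq
  have e1 : ∀ H : ℝ, (∫ t in p..q, vv (t * H) H) / H ^ 2 =
      ∫ t in p..q, vv (t * H) H / H ^ 2 := fun H => by
    rw [intervalIntegral.integral_div]
  simp_rw [e1, intervalIntegral.integral_of_le hAB, intervalIntegral.integral_of_le hpq]
  refine integral_integral_swap ?_
  have hf : IntegrableOn (fun z : ℝ × ℝ => vv (z.2 * z.1) z.1 / z.1 ^ 2)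
      (Ioc A B ×ˢ Ioc p q) (volume.prod volume) := by
    refine Measure.integrableOn_of_bounded
      (M := (Chebyshev.psi (q * B + B) + B) ^ 2 / A ^ 2) ?_ vv_meas.aestronglyMeasurable ?_
    · rw [Measure.prod_prod, Real.volume_Ioc, Real.volume_Ioc]
      exact (ENNReal.mul_lt_top ENNReal.ofReal_lt_top ENNReal.ofReal_lt_top).ne
    · refine (ae_restrict_iff' (measurableSet_Ioc.prod measurableSet_Ioc)).2 ?_
      refine Eventually.of_forall ?_
      rintro ⟨H, t⟩ ⟨⟨h1, h2⟩, ⟨h3, h4⟩⟩
      simp only at h1 h2 h3 h4 ⊢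
      have hH : 0 < H := hA.trans h1
      have ht : 0 < t := lt_of_le_of_lt hp h3
      have hB : 0 < B := hH.trans_le h2
      have htH : 0 < t * H := mul_pos ht hH
      have h5 : t * H ≤ q * B := by nlinarith
      have p1 : Chebyshev.psi (t * H + H) ≤ Chebyshev.psi (q * B + B) :=
        Chebyshev.psi_mono (by linarith)
      have p2 : Chebyshev.psi (t * H) ≤ Chebyshev.psi (t * H + H) :=
        Chebyshev.psi_mono (by linarith)
      have p3 := Chebyshev.psi_nonneg (t * H)
      have h6 : |Chebyshev.psi (t * H + H) - Chebyshev.psi (t * H) - H| ≤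
          Chebyshev.psi (q * B + B) + B := by
        rw [abs_le]
        constructor <;> linarith
      have h7 : vv (t * H) H ≤ (Chebyshev.psi (q * B + B) + B) ^ 2 := by
        unfold vv
        rw [← sq_abs]
        exact pow_le_pow_left₀ (abs_nonneg _) h6 2
      have h8 : 0 ≤ vv (t * H) H := sq_nonneg _
      rw [Real.norm_of_nonneg (div_nonneg h8 (sq_nonneg _))]
      exact div_le_div₀ (sq_nonneg _) h7 (by positivity) (pow_le_pow_left₀ hA.le h1.le 2)
  rw [IntegrableOn, ← Measure.prod_restrict] at hf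
  exact hf

/-- the outer substitution -/
theorem outer_eq {T a b c p q : ℝ} (hT : 1 < T) (hab : a ≤ b) (hc : c ≠ 0) (hp : 0 ≤ p)
    (hpq : p ≤ q) (V : ℝ → ℝ → ℝ)
    (hV : ∀ H : ℝ, 0 < H → V (T * H) H = 1 / c * ∫ t in p..q, vv (t * H) H) :
    ∫ X in (T ^ a)..(T ^ b), V X (X / T) / (X / T) / X =
      1 / c * ∫ t in p..q, Gq t (T ^ (a - 1)) (T ^ (b - 1)) := by
  have hT0 : 0 < T := by linarith
  have ea : ∀ e : ℝ, T ^ e = T * T ^ (e - 1) := fun e => by
    rw [Real.rpow_sub_one hT0.ne']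
    field_simp
  have hA : 0 < T ^ (a - 1) := Real.rpow_pos_of_pos hT0 _
  have hAB : T ^ (a - 1) ≤ T ^ (b - 1) := Real.rpow_le_rpow_of_exponent_le hT.le (by linarith)
  rw [ea a, ea b, ← swap_eq hA hAB hp hpq,
    ← intervalIntegral.mul_integral_comp_mul_left, ← intervalIntegral.integral_const_mul,
    ← intervalIntegral.integral_const_mul]
  refine intervalIntegral.integral_congr fun H hH => ?_
  rw [Set.uIcc_of_le hAB] at hH
  have hH0 : 0 < H := hA.trans_le hH.1
  have e1 : T * H / T = H := by field_simp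
  rw [e1, hV H hH0]
  generalize (∫ t in p..q, vv (t * H) H) = I
  field_simp

end KK

open KK

theorem t_K : S_K := by
  refine ⟨fun T a b hT hab => ?_, fun η T a b hη hT hab => ?_⟩
  · have hT0 : 0 < T := by linarith
    unfold Kc
    rw [outer_eq (c := T) (p := 1 / 2) (q := T - 1 / 2) hT hab hT0.ne' (by norm_num)
      (by linarith) Vc]
    · have hl : 0 < Real.log T := Real.log_pos hT
      field_simp
    · intro H hH
      unfold Vc
      have h1 := inner_eq (H := H) (p := 1 / 2) (q := T - 1 / 2) hH (by norm_num) (by linarith)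
      rw [show H * (1 / 2) + H / 2 = H by ring,
        show H * (T - 1 / 2) + H / 2 = T * H by ring] at h1
      rw [h1]
      field_simp
  · have hT0 : 0 < T := by linarith
    unfold Kl
    rw [outer_eq (c := η * T) (p := T - 1 / 2) (q := (1 + η) * T - 1 / 2) hT hab
      (mul_pos hη hT0).ne' (by linarith) (by nlinarith [mul_pos hη hT0]) (Vl η)]
    · have hl : 0 < Real.log T := Real.log_pos hT
      field_simp
    · intro H hH
      unfold Vl
      have h1 := inner_eq (H := H) (p := T - 1 / 2) (q := (1 + η) * T - 1 / 2) hH (by linarith)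
        (by nlinarith [mul_pos hη hT0])
      rw [show H * (T - 1 / 2) + H / 2 = T * H by ring,
        show H * ((1 + η) * T - 1 / 2) + H / 2 = (1 + η) * (T * H) by ring] at h1
      rw [h1]
      field_simp

end Pool.Agent.NH13.LV
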