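import Mathlib

/-!
# From Gaussian averages of the primes to `ψ`

`WW T u` is the sum of `Λ(n) / √n` with the Gaussian weight of width `1 / T` at `log n = u`.
-/

set_option autoImplicit false

open MeasureTheory Filter Topology Set ArithmeticFunction

namespace Pool.Agent.NH13.LV.Ps

/-- the Gaussian average -/
noncomputable def WW (T u : ℝ) : ℝ := ∑' n : ℕ, vonMangoldt n * (Real.sqrt n)⁻¹ *
  Real.exp (-(u - Real.log n) ^ 2 / (2 * (1 / T ^ 2)))

/-- the Gaussian integral with a linear term -/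
lemma gint (b c : ℝ) (hb : 0 < b) : Integrable (fun w : ℝ => Real.exp (c * w - b * w ^ 2)) ∧
    ∫ w : ℝ, Real.exp (c * w - b * w ^ 2) = Real.exp (c ^ 2 / (4 * b)) * Real.sqrt (Real.pi / b) := by
  have e : (fun w : ℝ => Real.exp (c * w - b * w ^ 2)) = fun w : ℝ =>
      Real.exp (c ^ 2 / (4 * b)) * Real.exp (-b * (w - c / (2 * b)) ^ 2) := by
    funext w
    rw [← Real.exp_add]
    congr 1
    field_simp
    ring
  have h1 := integrable_exp_neg_mul_sq hb
  rw [e]
  refine ⟨(h1.comp_sub_right (c / (2 * b))).const_mul _, ?_⟩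
  rw [integral_const_mul, integral_sub_right_eq_self (fun w : ℝ => Real.exp (-b * w ^ 2)),
    integral_gaussian]

/-- the weight of one integer -/
noncomputable def GG (T w : ℝ) : ℝ := Real.exp (1 / 2 * w - T ^ 2 / 2 * w ^ 2)

lemma GG_int {T : ℝ} (hT : 0 < T) : Integrable (GG T) ∧
    ∫ w : ℝ, GG T w = Real.exp (1 / (8 * T ^ 2)) * (Real.sqrt (2 * Real.pi) / T) := by
  obtain ⟨h1, h2⟩ := gint (T ^ 2 / 2) (1 / 2) (by positivity)
  refine ⟨h1, ?_⟩
  unfold GG
  rw [h2]
  congr 1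
  · congr 1
    field_simp
    norm_num
  · have : Real.pi / (T ^ 2 / 2) = 2 * Real.pi / T ^ 2 := by field_simp
    rw [this, Real.sqrt_div (by positivity), Real.sqrt_sq hT.le]

lemma G_up {T : ℝ} (hT : 0 < T) (l : ℝ) {U : ℝ} (hU : 0 ≤ U) :
    ∫ u in (0 : ℝ)..U, GG T (u - l) ≤ Real.exp (1 / (8 * T ^ 2)) * (Real.sqrt (2 * Real.pi) / T) := by
  obtain ⟨h1, h2⟩ := GG_int hT
  rw [intervalIntegral.integral_of_le hU, ← h2, ← integral_sub_right_eq_self (GG T) l]
  exact setIntegral_le_integral (h1.comp_sub_right l)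
    (Eventually.of_forall fun w => (Real.exp_pos _).le)

lemma G_lo {T : ℝ} (hT : 0 < T) {a l U : ℝ} (ha : 0 ≤ a) (h1 : a ≤ l) (h2 : l + a ≤ U) :
    Real.exp (1 / (8 * T ^ 2)) * (Real.sqrt (2 * Real.pi) / T) -
      Real.exp (-(T ^ 2 * a ^ 2 / 4)) * (Real.exp (1 / (4 * T ^ 2)) * (Real.sqrt (4 * Real.pi) / T)) ≤
    ∫ u in (0 : ℝ)..U, GG T (u - l) := by
  obtain ⟨i1, e1⟩ := GG_int hT
  obtain ⟨i2, e2⟩ := gint (T ^ 2 / 4) (1 / 2) (by positivity)
  have e3 : Real.exp ((1 / 2) ^ 2 / (4 * (T ^ 2 / 4))) * Real.sqrt (Real.pi / (T ^ 2 / 4)) =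
      Real.exp (1 / (4 * T ^ 2)) * (Real.sqrt (4 * Real.pi) / T) := by
    congr 1
    · congr 1
      field_simp
      norm_num
    · have : Real.pi / (T ^ 2 / 4) = 4 * Real.pi / T ^ 2 := by field_simp
      rw [this, Real.sqrt_div (by positivity), Real.sqrt_sq hT.le]
  have hU : 0 ≤ U := by linarith
  obtain ⟨g, hg⟩ : ∃ g : ℝ → ℝ, g = fun w => GG T w -
      Real.exp (-(T ^ 2 * a ^ 2 / 4)) * Real.exp (1 / 2 * w - T ^ 2 / 4 * w ^ 2) := ⟨_, rfl⟩
  have hgi : Integrable g := by rw [hg]; exact i1.sub (i2.const_mul _)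
  have hge : ∫ w, g w = Real.exp (1 / (8 * T ^ 2)) * (Real.sqrt (2 * Real.pi) / T) -
      Real.exp (-(T ^ 2 * a ^ 2 / 4)) * (Real.exp (1 / (4 * T ^ 2)) *
        (Real.sqrt (4 * Real.pi) / T)) := by
    rw [hg, integral_sub i1 (i2.const_mul _), integral_const_mul, e1, e2, e3]
  rw [← hge, ← integral_sub_right_eq_self g l, intervalIntegral.integral_of_le hU,
    ← integral_indicator measurableSet_Ioc]
  refine integral_mono (hgi.comp_sub_right l)
    ((i1.comp_sub_right l).indicator measurableSet_Ioc) fun u => ?_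
  show g (u - l) ≤ (Ioc 0 U).indicator (fun u => GG T (u - l)) u
  by_cases hu : u ∈ Ioc 0 U
  · rw [indicator_of_mem hu, hg]
    simp only
    linarith [mul_pos (Real.exp_pos (-(T ^ 2 * a ^ 2 / 4)))
      (Real.exp_pos (1 / 2 * (u - l) - T ^ 2 / 4 * (u - l) ^ 2))]
  · rw [indicator_of_notMem hu, hg]
    simp only
    unfold GG
    rw [← Real.exp_add, sub_nonpos]
    apply Real.exp_le_exp.2
    have h3 : a ^ 2 ≤ (u - l) ^ 2 := by
      by_cases h0 : 0 < u
      · have h4 : U < u := by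
          by_contra hc
          exact hu ⟨h0, not_lt.1 hc⟩
        nlinarith
      · nlinarith
    nlinarith [mul_le_mul_of_nonneg_left h3 (sq_nonneg T)]

/-- the terms of the Gaussian average against the exponential -/
lemma term_eq (T u : ℝ) {n : ℕ} (hn : n ≠ 0) : Real.exp (u / 2) * (vonMangoldt n * (Real.sqrt n)⁻¹ *
    Real.exp (-(u - Real.log n) ^ 2 / (2 * (1 / T ^ 2)))) =
    vonMangoldt n * GG T (u - Real.log n) := by
  have hn0 : (0 : ℝ) < n := by exact_mod_cast Nat.pos_of_ne_zero hn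
  have e1 : (Real.sqrt n)⁻¹ = Real.exp (-(Real.log n / 2)) := by
    rw [Real.exp_neg, Real.sqrt_eq_rpow, Real.rpow_def_of_pos hn0]
    congr 2
    ring
  unfold GG
  rw [e1]
  have e2 : Real.exp (u / 2) * (vonMangoldt n * Real.exp (-(Real.log n / 2)) *
      Real.exp (-(u - Real.log n) ^ 2 / (2 * (1 / T ^ 2)))) =
      vonMangoldt n * (Real.exp (u / 2) * Real.exp (-(Real.log n / 2)) *
      Real.exp (-(u - Real.log n) ^ 2 / (2 * (1 / T ^ 2)))) := by ring
  rw [e2, ← Real.exp_add, ← Real.exp_add]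
  congr 2
  by_cases hT : T = 0
  · subst hT
    simp
    ring
  · field_simp
    ring


lemma lam_le (n : ℕ) : vonMangoldt n * (Real.sqrt n)⁻¹ ≤ 2 := by
  rcases Nat.eq_zero_or_pos n with h | h
  · subst h; simp
  have hn0 : (0 : ℝ) < n := by exact_mod_cast h
  have hs : 0 < Real.sqrt n := Real.sqrt_pos.2 hn0
  have h1 : Real.log n ≤ 2 * Real.sqrt n := by
    have h2 := Real.log_le_sub_one_of_pos hs
    rw [Real.log_sqrt hn0.le] at h2
    linarith
  rw [← div_eq_mul_inv, div_le_iff₀ hs]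
  exact (vonMangoldt_le_log).trans h1

/-- the terms -/
noncomputable def ff (T u : ℝ) (n : ℕ) : ℝ := vonMangoldt n * (Real.sqrt n)⁻¹ *
  Real.exp (-(u - Real.log n) ^ 2 / (2 * (1 / T ^ 2)))

lemma ff_nonneg (T u : ℝ) (n : ℕ) : 0 ≤ ff T u n :=
  mul_nonneg (mul_nonneg vonMangoldt_nonneg (inv_nonneg.2 (Real.sqrt_nonneg _)))
    (Real.exp_pos _).le

lemma ff_le {T u c : ℝ} {n : ℕ} (hn : n ≠ 0)
    (h : Real.exp (-(u - Real.log n) ^ 2 / (2 * (1 / T ^ 2))) ≤ c * ((n : ℝ) ^ 2)⁻¹) :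
    ff T u n ≤ 2 * c * ((n : ℝ) ^ 2)⁻¹ := by
  unfold ff
  calc _ ≤ 2 * (c * ((n : ℝ) ^ 2)⁻¹) := mul_le_mul (lam_le n) h (Real.exp_pos _).le (by norm_num)
    _ = _ := by ring

lemma ff_sum {T : ℝ} (hT : 0 < T) (u : ℝ) : Summable (ff T u) := by
  refine Summable.of_nonneg_of_le (ff_nonneg T u) (f := fun n : ℕ =>
    2 * Real.exp (2 * u + 2 / T ^ 2) * ((n : ℝ) ^ 2)⁻¹) (fun n => ?_) ?_
  · rcases Nat.eq_zero_or_pos n with h | h
    · subst h
      unfold ff
      simp
    have hn0 : (0 : ℝ) < n := by exact_mod_cast h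
    refine ff_le h.ne' ?_
    have e : ((n : ℝ) ^ 2)⁻¹ = Real.exp (-(2 * Real.log n)) := by
      rw [Real.exp_neg, ← Real.log_rpow hn0, Real.exp_log (by positivity)]
      norm_num
    rw [e, ← Real.exp_add]
    apply Real.exp_le_exp.2
    have h2 : -(u - Real.log n) ^ 2 / (2 * (1 / T ^ 2)) = -(T ^ 2 / 2 * (u - Real.log n) ^ 2) := by
      field_simp
    have h3 : 0 ≤ (T * (Real.log n - u) - 2 / T) ^ 2 := sq_nonneg _
    have h4 : (T * (Real.log n - u) - 2 / T) ^ 2 = T ^ 2 * (u - Real.log n) ^ 2 -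
        4 * (Real.log n - u) + 4 / T ^ 2 := by
      field_simp
      ring
    have h5 : 4 / T ^ 2 = 2 * (2 / T ^ 2) := by ring
    rw [h2]
    linarith
  · exact (Real.summable_nat_pow_inv.2 one_lt_two).mul_left _

lemma WW_eq (T u : ℝ) : WW T u = ∑' n, ff T u n := rfl

lemma sqrt_four : Real.sqrt (4 * Real.pi) = Real.sqrt 2 * Real.sqrt (2 * Real.pi) := by
  rw [← Real.sqrt_mul (by norm_num)]
  congr 1
  ring

/-- **the upper bound for `ψ`** -/
theorem A1 {x T a : ℝ} (hx : 2 ≤ x) (hT : 0 < T) (ha : 0 ≤ a) (ha2 : a ≤ Real.log 2)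
    (hc : Continuous (WW T)) :
    (1 - 2 * Real.exp (1 / (4 * T ^ 2) - T ^ 2 * a ^ 2 / 4)) * Chebyshev.psi x ≤
      T / Real.sqrt (2 * Real.pi) * ∫ u in (0 : ℝ)..(Real.log x + a), Real.exp (u / 2) * WW T u := by
  have hlx : 0 ≤ Real.log x := Real.log_nonneg (by linarith)
  have hs : 0 < Real.sqrt (2 * Real.pi) := Real.sqrt_pos.2 (by positivity)
  have hU : 0 ≤ Real.log x + a := by linarith
  have h1 : ∫ u in (0 : ℝ)..(Real.log x + a), ∑ n ∈ Finset.Ioc 0 ⌊x⌋₊,
      vonMangoldt n * GG T (u - Real.log n) ≤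
      ∫ u in (0 : ℝ)..(Real.log x + a), Real.exp (u / 2) * WW T u := by
    refine intervalIntegral.integral_mono_on hU ?_ ?_ fun u _ => ?_
    · apply Continuous.intervalIntegrable
      unfold GG
      fun_prop
    · exact ((Real.continuous_exp.comp (continuous_id.div_const 2)).mul hc).intervalIntegrable _ _
    · have h2 : ∑ n ∈ Finset.Ioc 0 ⌊x⌋₊, ff T u n ≤ WW T u :=
        (ff_sum hT u).sum_le_tsum _ fun n _ => ff_nonneg T u n
      refine le_trans (le_of_eq ?_) (mul_le_mul_of_nonneg_left h2 (Real.exp_pos _).le)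
      rw [Finset.mul_sum]
      refine Finset.sum_congr rfl fun n hn => ?_
      rw [← term_eq T u (by have := (Finset.mem_Ioc.1 hn).1; omega)]
      rfl
  rw [intervalIntegral.integral_finsetSum fun n _ => by
    apply Continuous.intervalIntegrable
    unfold GG
    fun_prop] at h1
  refine le_trans ?_ (mul_le_mul_of_nonneg_left h1 (by positivity))
  unfold Chebyshev.psi
  rw [Finset.mul_sum, Finset.mul_sum]
  refine Finset.sum_le_sum fun n hn => ?_
  obtain ⟨hn1, hn2⟩ := Finset.mem_Ioc.1 hn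
  rw [intervalIntegral.integral_const_mul]
  by_cases hL : vonMangoldt n = 0
  · rw [hL]; simp
  have hn2' : 2 ≤ n := by
    by_contra hcon
    have : n = 1 := by omega
    subst this
    simp at hL
  have hn0 : (0 : ℝ) < n := by exact_mod_cast hn1
  have hl1 : a ≤ Real.log n := ha2.trans (Real.log_le_log (by norm_num) (by exact_mod_cast hn2'))
  have hl2 : Real.log n + a ≤ Real.log x + a := by
    have := Real.log_le_log hn0 ((Nat.le_floor_iff (by linarith)).1 hn2)
    linarith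
  have h3 := G_lo hT ha hl1 hl2
  have h4 : 1 - 2 * Real.exp (1 / (4 * T ^ 2) - T ^ 2 * a ^ 2 / 4) ≤ T / Real.sqrt (2 * Real.pi) *
      ∫ u in (0 : ℝ)..(Real.log x + a), GG T (u - Real.log n) := by
    refine le_trans ?_ (mul_le_mul_of_nonneg_left h3 (by positivity))
    have e1 : T / Real.sqrt (2 * Real.pi) * (Real.exp (1 / (8 * T ^ 2)) *
        (Real.sqrt (2 * Real.pi) / T) - Real.exp (-(T ^ 2 * a ^ 2 / 4)) *
        (Real.exp (1 / (4 * T ^ 2)) * (Real.sqrt (4 * Real.pi) / T))) =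
        Real.exp (1 / (8 * T ^ 2)) -
          Real.sqrt 2 * (Real.exp (1 / (4 * T ^ 2)) * Real.exp (-(T ^ 2 * a ^ 2 / 4))) := by
      rw [sqrt_four]
      field_simp
    rw [e1, ← Real.exp_add, ← sub_eq_add_neg]
    have h5 : 1 ≤ Real.exp (1 / (8 * T ^ 2)) := Real.one_le_exp (by positivity)
    have h6 : Real.sqrt 2 ≤ 2 := by
      rw [Real.sqrt_le_left (by norm_num)]
      norm_num
    have h7 := Real.exp_pos (1 / (4 * T ^ 2) - T ^ 2 * a ^ 2 / 4)
    nlinarith
  calc (1 - 2 * Real.exp (1 / (4 * T ^ 2) - T ^ 2 * a ^ 2 / 4)) * vonMangoldt n ≤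
      (T / Real.sqrt (2 * Real.pi) *
        ∫ u in (0 : ℝ)..(Real.log x + a), GG T (u - Real.log n)) * vonMangoldt n :=
        mul_le_mul_of_nonneg_right h4 vonMangoldt_nonneg
    _ = _ := by ring

/-- **the lower bound for `ψ`** -/
theorem A2 : ∃ K : ℝ, 0 < K ∧ ∀ x T a : ℝ, 1 ≤ x → 0 < T → 2 ≤ T ^ 2 * a → 0 ≤ a →
    0 ≤ Real.log x - a → Continuous (WW T) →
    T / Real.sqrt (2 * Real.pi) * ∫ u in (0 : ℝ)..(Real.log x - a), Real.exp (u / 2) * WW T u ≤
      Real.exp (1 / (8 * T ^ 2)) * Chebyshev.psi x +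
        K * (T * x ^ 3 * Real.exp (-(T ^ 2 * a ^ 2 / 2))) := by
  obtain ⟨K, hK⟩ : ∃ K : ℝ, K = ∑' n : ℕ, ((n : ℝ) ^ 2)⁻¹ := ⟨_, rfl⟩
  have hKs : Summable fun n : ℕ => ((n : ℝ) ^ 2)⁻¹ := Real.summable_nat_pow_inv.2 one_lt_two
  have hK0 : 0 ≤ K := by rw [hK]; exact tsum_nonneg fun n => by positivity
  refine ⟨4 * K + 1, by linarith, fun x T a hx hT hTa ha hU hc => ?_⟩
  have hx0 : 0 < x := by linarith
  have hpi := Real.pi_gt_three
  have hs : 1 ≤ Real.sqrt (2 * Real.pi) := by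
    rw [Real.one_le_sqrt]
    linarith
  obtain ⟨N, hN⟩ : ∃ N : ℕ, N = ⌊x⌋₊ := ⟨_, rfl⟩
  obtain ⟨E, hE⟩ : ∃ E : ℝ, E = Real.exp (-(T ^ 2 * a ^ 2 / 2)) := ⟨_, rfl⟩
  have hE0 : 0 < E := by rw [hE]; exact Real.exp_pos _
  -- the tail
  have ht : ∀ u : ℝ, u ≤ Real.log x - a → ∑' n : ℕ, ff T u (n + (N + 1)) ≤ 2 * (E * x ^ 2) * K := by
    intro u hu
    have hb : ∀ n : ℕ, ff T u (n + (N + 1)) ≤ 2 * (E * x ^ 2) * (((n + (N + 1) : ℕ) : ℝ) ^ 2)⁻¹ := by
      intro n
      obtain ⟨m, hm⟩ : ∃ m : ℕ, m = n + (N + 1) := ⟨_, rfl⟩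
      rw [← hm]
      have hxm : x < m := by
        have h1 := Nat.lt_floor_add_one x
        rw [← hN] at h1
        have h2 : ((N : ℝ) + 1) ≤ m := by rw [hm]; push_cast; linarith [Nat.cast_nonneg (α := ℝ) n]
        linarith
      have hm0 : (0 : ℝ) < m := by linarith
      refine ff_le (by omega) ?_
      have e1 : ((m : ℝ) ^ 2)⁻¹ = Real.exp (-(2 * Real.log m)) := by
        rw [Real.exp_neg, ← Real.log_rpow hm0, Real.exp_log (by positivity)]
        norm_num
      have e2 : x ^ 2 = Real.exp (2 * Real.log x) := by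
        rw [← Real.log_rpow hx0, Real.exp_log (by positivity)]
        norm_num
      rw [e1, e2, hE, ← Real.exp_add, ← Real.exp_add]
      apply Real.exp_le_exp.2
      have h2 : -(u - Real.log m) ^ 2 / (2 * (1 / T ^ 2)) = -(T ^ 2 / 2 * (u - Real.log m) ^ 2) := by
        field_simp
      rw [h2]
      obtain ⟨y, hy⟩ : ∃ y : ℝ, y = Real.log m - Real.log x := ⟨_, rfl⟩
      have hy0 : 0 ≤ y := by
        rw [hy]
        exact sub_nonneg.2 (Real.log_le_log hx0 hxm.le)
      have h3 : (a + y) ^ 2 ≤ (u - Real.log m) ^ 2 := by nlinarith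
      have h4 : a ^ 2 + 2 * a * y ≤ (u - Real.log m) ^ 2 := by nlinarith
      have h5 := mul_le_mul_of_nonneg_left h4 (sq_nonneg T)
      have h6 := mul_le_mul_of_nonneg_right hTa hy0
      nlinarith
    have hs1 : Summable fun n : ℕ => ((((n + (N + 1) : ℕ) : ℝ)) ^ 2)⁻¹ :=
      (summable_nat_add_iff (f := fun n : ℕ => ((n : ℝ) ^ 2)⁻¹) (N + 1)).2 hKs
    have h2 := Summable.tsum_le_tsum hb ((summable_nat_add_iff (N + 1)).2 (ff_sum hT u))
      (hs1.mul_left (2 * (E * x ^ 2)))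
    refine h2.trans ?_
    rw [tsum_mul_left]
    refine mul_le_mul_of_nonneg_left ?_ (by positivity)
    have h3 := hKs.sum_add_tsum_nat_add (N + 1)
    rw [← hK] at h3
    have h4 : 0 ≤ ∑ i ∈ Finset.range (N + 1), ((i : ℝ) ^ 2)⁻¹ :=
      Finset.sum_nonneg fun i _ => by positivity
    linarith
  have hW : ∀ u : ℝ, u ≤ Real.log x - a → Real.exp (u / 2) * WW T u ≤
      (∑ n ∈ Finset.Ioc 0 N, vonMangoldt n * GG T (u - Real.log n)) +
        2 * (E * x ^ 2) * K * Real.exp (u / 2) := by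
    intro u hu
    have h1 := (ff_sum hT u).sum_add_tsum_nat_add (N + 1)
    rw [← WW_eq] at h1
    have h2 : ∑ n ∈ Finset.range (N + 1), ff T u n = ∑ n ∈ Finset.Ioc 0 N, ff T u n := by
      rw [Finset.range_eq_Ico, Finset.sum_eq_sum_Ico_succ_bot (Nat.succ_pos N)]
      have h0 : ff T u 0 = 0 := by unfold ff; simp
      rw [h0, zero_add]
      rfl
    rw [← h1, h2, mul_add]
    refine add_le_add (le_of_eq ?_) ?_
    · rw [Finset.mul_sum]
      refine Finset.sum_congr rfl fun n hn => ?_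
      rw [← term_eq T u (by have := (Finset.mem_Ioc.1 hn).1; omega)]
      rfl
    · rw [mul_comm]
      exact mul_le_mul_of_nonneg_right (ht u hu) (Real.exp_pos _).le
  have h1 : ∫ u in (0 : ℝ)..(Real.log x - a), Real.exp (u / 2) * WW T u ≤
      ∫ u in (0 : ℝ)..(Real.log x - a), ((∑ n ∈ Finset.Ioc 0 N,
        vonMangoldt n * GG T (u - Real.log n)) + 2 * (E * x ^ 2) * K * Real.exp (u / 2)) := by
    refine intervalIntegral.integral_mono_on hU ?_ ?_ fun u hu => hW u hu.2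
    · exact ((Real.continuous_exp.comp (continuous_id.div_const 2)).mul hc).intervalIntegrable _ _
    · apply Continuous.intervalIntegrable
      unfold GG
      fun_prop
  have c1 : ∀ n : ℕ, IntervalIntegrable (fun u : ℝ => vonMangoldt n * GG T (u - Real.log n)) volume
      0 (Real.log x - a) := by
    intro n
    apply Continuous.intervalIntegrable
    unfold GG
    fun_prop
  rw [intervalIntegral.integral_add (by
      apply Continuous.intervalIntegrable
      unfold GG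
      fun_prop) (by
      apply Continuous.intervalIntegrable
      fun_prop), intervalIntegral.integral_finsetSum fun n _ => c1 n,
    intervalIntegral.integral_const_mul] at h1
  have h2 : ∫ u in (0 : ℝ)..(Real.log x - a), Real.exp (u / 2) ≤ 2 * x := by
    have e : ∫ u in (0 : ℝ)..(Real.log x - a), Real.exp (u / 2) =
        2 * (Real.exp ((Real.log x - a) / 2) - Real.exp (0 / 2)) := by
      rw [intervalIntegral.integral_comp_div (fun u => Real.exp u) two_ne_zero, integral_exp]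
      simp
    rw [e]
    have h3 : Real.exp ((Real.log x - a) / 2) ≤ x := by
      calc Real.exp ((Real.log x - a) / 2) ≤ Real.exp (Real.log x) := by
            apply Real.exp_le_exp.2
            have := Real.log_nonneg hx
            linarith
        _ = x := Real.exp_log hx0
    have := Real.exp_pos (0 / 2 : ℝ)
    linarith
  have h3 : ∑ n ∈ Finset.Ioc 0 N, ∫ u in (0 : ℝ)..(Real.log x - a),
      vonMangoldt n * GG T (u - Real.log n) ≤
      Real.exp (1 / (8 * T ^ 2)) * (Real.sqrt (2 * Real.pi) / T) * Chebyshev.psi x := by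
    unfold Chebyshev.psi
    rw [← hN, Finset.mul_sum]
    refine Finset.sum_le_sum fun n _ => ?_
    rw [intervalIntegral.integral_const_mul, mul_comm]
    exact mul_le_mul_of_nonneg_right (G_up hT _ hU) vonMangoldt_nonneg
  have hTs : 0 < T / Real.sqrt (2 * Real.pi) := by positivity
  have h4 : T / Real.sqrt (2 * Real.pi) ≤ T := div_le_self hT.le hs
  calc T / Real.sqrt (2 * Real.pi) * ∫ u in (0 : ℝ)..(Real.log x - a), Real.exp (u / 2) * WW T u ≤
      T / Real.sqrt (2 * Real.pi) * (Real.exp (1 / (8 * T ^ 2)) * (Real.sqrt (2 * Real.pi) / T) *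
        Chebyshev.psi x + 2 * (E * x ^ 2) * K * (2 * x)) := by
        refine mul_le_mul_of_nonneg_left (h1.trans (add_le_add h3 ?_)) hTs.le
        exact mul_le_mul_of_nonneg_left h2 (by positivity)
    _ = Real.exp (1 / (8 * T ^ 2)) * Chebyshev.psi x +
        T / Real.sqrt (2 * Real.pi) * (2 * (E * x ^ 2) * K * (2 * x)) := by
        field_simp
    _ ≤ Real.exp (1 / (8 * T ^ 2)) * Chebyshev.psi x + T * (2 * (E * x ^ 2) * K * (2 * x)) := by
        gcongr
    _ ≤ _ := by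
        rw [← hE]
        have : 0 ≤ T * x ^ 3 * E := by positivity
        nlinarith

end Pool.Agent.NH13.LV.Ps
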