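import Pool.Agent.NH13.LV.PsA
import Pool.Agent.NH13.LV.Defs

/-!
# The error term of the prime number theorem from the Gaussian averages
-/

set_option autoImplicit false

open MeasureTheory Filter Topology Set ArithmeticFunction

namespace Pool.Agent.NH13.LV.Ps

/-- the average up to `U` -/
noncomputable def MM (T U : ℝ) : ℝ :=
  T / Real.sqrt (2 * Real.pi) * ∫ u in (0 : ℝ)..U, Real.exp (u / 2) * WW T u

/-- the bound for the averages -/
def HM : Prop := ∃ C T₁ : ℝ, 0 < C ∧ 10 ≤ T₁ ∧ ∀ T : ℝ, T₁ ≤ T → Continuous (WW T) ∧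
  ∀ U : ℝ, 0 ≤ U → U ≤ 3 * Real.log T →
    |MM T U - Real.exp (1 / (8 * T ^ 2)) * (Real.exp U - 1)| ≤
      C * ((Real.exp (U / 2) + T) * Real.log T ^ 2)

lemma exp_le1 {t : ℝ} (h0 : 0 ≤ t) (h1 : t ≤ 1) : Real.exp t ≤ 1 + 2 * t := by
  have h := Real.abs_exp_sub_one_le (x := t) (by rw [abs_of_nonneg h0]; exact h1)
  rw [abs_of_nonneg h0] at h
  linarith [(abs_le.1 h).2]

theorem psiB_large (h : HM) : ∃ C x₀ : ℝ, 0 < C ∧ 10 ≤ x₀ ∧ ∀ x : ℝ, x₀ ≤ x →
    |Chebyshev.psi x - x| ≤ C * (Real.sqrt x * Real.log x ^ 2) := by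
  obtain ⟨C, T₁, hC, hT₁, hM⟩ := h
  obtain ⟨K, hK, hA2⟩ := A2
  have hev : ∀ᶠ x : ℝ in atTop, 64 * Real.log x ≤ x ∧ T₁ ^ 2 ≤ x ∧ 10 ≤ x := by
    have h1 := Real.isLittleO_log_id_atTop.bound (show (0 : ℝ) < 1 / 64 by norm_num)
    filter_upwards [h1, eventually_ge_atTop (T₁ ^ 2), eventually_ge_atTop 10] with x h1 h2 h3
    rw [Real.norm_eq_abs, id, Real.norm_eq_abs, abs_of_pos (by linarith : (0 : ℝ) < x)] at h1
    have := le_abs_self (Real.log x)
    exact ⟨by linarith, h2, h3⟩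
  obtain ⟨x₁, hx₁⟩ := eventually_atTop.1 hev
  refine ⟨3 * C + K + 80, max x₁ 10, by linarith, le_max_right _ _, fun x hx => ?_⟩
  obtain ⟨h64, hTx, h10⟩ := hx₁ x ((le_max_left _ _).trans hx)
  have hx0 : 0 < x := by linarith
  obtain ⟨L, hL⟩ : ∃ L : ℝ, L = Real.log x := ⟨_, rfl⟩
  rw [← hL] at h64
  have hL2 : 2 ≤ L := by
    rw [hL, Real.le_log_iff_exp_le hx0]
    have h1 : Real.exp 2 = Real.exp 1 * Real.exp 1 := by rw [← Real.exp_add]; norm_num
    have h2 := Real.exp_one_lt_d9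
    have h3 := Real.exp_pos 1
    nlinarith
  obtain ⟨T, hT⟩ : ∃ T : ℝ, T = Real.sqrt x := ⟨_, rfl⟩
  have hT2 : T ^ 2 = x := by rw [hT]; exact Real.sq_sqrt hx0.le
  have hT0 : 0 < T := by rw [hT]; exact Real.sqrt_pos.2 hx0
  have hTT : T₁ ≤ T := by
    rw [hT]
    exact Real.le_sqrt_of_sq_le hTx
  have hT1 : 10 ≤ T := hT₁.trans hTT
  have hlT : Real.log T = L / 2 := by rw [hT, Real.log_sqrt hx0.le, hL]
  obtain ⟨q, hq⟩ : ∃ q : ℝ, q = Real.sqrt L := ⟨_, rfl⟩
  have hq2 : q ^ 2 = L := by rw [hq]; exact Real.sq_sqrt (by linarith)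
  have hq0 : 0 ≤ q := by rw [hq]; exact Real.sqrt_nonneg _
  have hq1 : 1 ≤ q := by nlinarith
  have hqL : q ≤ L := by nlinarith
  obtain ⟨a, ha⟩ : ∃ a : ℝ, a = 4 * q / T := ⟨_, rfl⟩
  have ha0 : 0 ≤ a := by rw [ha]; positivity
  have haT : a * T = 4 * q := by rw [ha]; field_simp
  have hqT : 8 * q ≤ T := by
    have : (8 * q) ^ 2 ≤ T ^ 2 := by rw [hT2, mul_pow, hq2]; linarith
    exact le_of_sq_le_sq this hT0.le
  have ha1 : a ≤ 1 / 2 := by
    rw [ha, div_le_iff₀ hT0]
    linarith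
  have hal2 : a ≤ Real.log 2 := by
    have := Real.log_two_gt_d9
    linarith
  have hTa : T ^ 2 * a ^ 2 = 16 * L := by
    rw [← mul_pow, mul_comm, haT, mul_pow, hq2]
    norm_num
  obtain ⟨hc, hU⟩ := hM T hTT
  -- the two bounds
  have hup := A1 (x := x) (T := T) (a := a) (by linarith) hT0 ha0 hal2 hc
  have hlo := hA2 x T a (by linarith) hT0 (by
    have : T ^ 2 * a = T * (a * T) := by ring
    rw [this, haT]
    nlinarith) ha0 (by rw [← hL]; linarith) hc
  have hm1 := hU (L + a) (by linarith) (by rw [hlT]; linarith)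
  have hm2 := hU (L - a) (by linarith) (by rw [hlT]; linarith)
  rw [← hL] at hup hlo
  rw [hTa] at hup hlo
  change _ ≤ MM T (L + a) at hup
  change MM T (L - a) ≤ _ at hlo
  have hexL : Real.exp L = x := by rw [hL]; exact Real.exp_log hx0
  have hexL2 : Real.exp (L / 2) = T := by
    rw [← hlT]
    exact Real.exp_log hT0
  rw [hlT] at hm1 hm2
  -- small quantities
  obtain ⟨p, hp⟩ : ∃ p : ℝ, p = Chebyshev.psi x := ⟨_, rfl⟩
  rw [← hp] at hup hlo ⊢
  have hp0 : 0 ≤ p := by rw [hp]; exact Chebyshev.psi_nonneg x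
  have hp6 : p ≤ 6 * x := by
    rw [hp]
    refine (Chebyshev.psi_le_const_mul_self hx0.le).trans ?_
    have h4 : Real.log 4 ≤ 2 := by
      have : Real.log 4 = 2 * Real.log 2 := by
        rw [← Real.log_rpow (by norm_num)]
        norm_num
      rw [this]
      linarith [Real.log_two_lt_d9]
    nlinarith
  obtain ⟨z, hz⟩ : ∃ z : ℝ, z = Real.exp (1 / (8 * T ^ 2)) := ⟨_, rfl⟩
  rw [← hz] at hlo hm1 hm2
  have hz1 : 1 ≤ z := by rw [hz]; exact Real.one_le_exp (by positivity)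
  have hz2 : z ≤ 1 + 1 / (4 * x) := by
    rw [hz, hT2]
    refine (exp_le1 (by positivity) ?_).trans ?_
    · rw [div_le_one (by positivity)]
      linarith
    · have : 2 * (1 / (8 * x)) = 1 / (4 * x) := by field_simp; norm_num
      rw [this]
  have hxz : (z - 1) * x ≤ 1 / 4 := by
    have h1 : (z - 1) * x ≤ 1 / (4 * x) * x := mul_le_mul_of_nonneg_right (by linarith) hx0.le
    have h2 : 1 / (4 * x) * x = 1 / 4 := by field_simp
    linarith
  have hw1 : 1 ≤ T * L ^ 2 := by nlinarith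
  have hqw : T * q ≤ T * L ^ 2 / 2 := by
    have : q ≤ L ^ 2 / 2 := by nlinarith
    nlinarith
  rw [← hT, ← hL]
  have hea : Real.exp a ≤ 1 + 2 * a := exp_le1 ha0 (by linarith)
  have hea2 : Real.exp (a / 2) ≤ 2 := (exp_le1 (by linarith) (by linarith)).trans (by linarith)
  have heb : 1 - a ≤ Real.exp (-a) := by linarith [Real.add_one_le_exp (-a)]
  have hxa : x * a = 4 * (T * q) := by
    rw [← hT2, ha]
    field_simp
  rw [abs_le]
  constructor
  · -- the lower bound
    have h1 := (abs_le.1 hm2).1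
    have e1 : Real.exp (L - a) = x * Real.exp (-a) := by rw [sub_eq_add_neg, Real.exp_add, hexL]
    have e2 : Real.exp ((L - a) / 2) ≤ T := by
      rw [← hexL2]
      exact Real.exp_le_exp.2 (by linarith)
    rw [e1] at h1
    have h2 : C * ((Real.exp ((L - a) / 2) + T) * (L / 2) ^ 2) ≤ C * (T * L ^ 2) := by
      apply mul_le_mul_of_nonneg_left _ hC.le
      have : (Real.exp ((L - a) / 2) + T) * (L / 2) ^ 2 ≤ (T + T) * (L / 2) ^ 2 :=
        mul_le_mul_of_nonneg_right (by linarith) (sq_nonneg _)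
      have h0 : 0 ≤ T * L ^ 2 := by positivity
      nlinarith
    have h3 : T * x ^ 3 * Real.exp (-(16 * L / 2)) ≤ 1 := by
      have e3 : Real.exp (-(16 * L / 2)) = (x ^ 8)⁻¹ := by
        rw [Real.exp_neg, ← hexL, ← Real.exp_nat_mul]
        congr 2
        push_cast
        ring
      rw [e3, mul_inv_le_iff₀ (by positivity), one_mul]
      have h5 : T ≤ x := by rw [← hT2]; nlinarith
      have h6 : x ^ 4 ≤ x ^ 8 := pow_le_pow_right₀ (by linarith) (by norm_num)
      calc T * x ^ 3 ≤ x * x ^ 3 := by gcongr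
        _ = x ^ 4 := by ring
        _ ≤ _ := h6
    have h4 : (z - 1) * p ≤ 2 := by
      have := mul_le_mul_of_nonneg_left hp6 (show 0 ≤ z - 1 by linarith)
      nlinarith
    have h5 : x * (1 - a) ≤ z * (x * Real.exp (-a)) := by
      have h6 : x * (1 - a) ≤ x * Real.exp (-a) := mul_le_mul_of_nonneg_left heb hx0.le
      have h7 : 0 ≤ x * Real.exp (-a) := by positivity
      nlinarith
    have h6 : z ≤ 2 := by
      have : 1 / (4 * x) ≤ 1 := by
        rw [div_le_one (by positivity)]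
        linarith
      linarith
    have h7 : K * (T * x ^ 3 * Real.exp (-(16 * L / 2))) ≤ K * 1 :=
      mul_le_mul_of_nonneg_left h3 hK.le
    have h8 : K * 1 ≤ K * (T * L ^ 2) := mul_le_mul_of_nonneg_left hw1 hK.le
    have h9 : 0 ≤ C * (T * L ^ 2) := by positivity
    nlinarith
  · -- the upper bound
    have h1 := (abs_le.1 hm1).2
    have e1 : Real.exp (L + a) = x * Real.exp a := by rw [Real.exp_add, hexL]
    have e2 : Real.exp ((L + a) / 2) ≤ T * 2 := by
      have : (L + a) / 2 = L / 2 + a / 2 := by ring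
      rw [this, Real.exp_add, hexL2]
      exact mul_le_mul_of_nonneg_left hea2 hT0.le
    rw [e1] at h1
    have h2 : C * ((Real.exp ((L + a) / 2) + T) * (L / 2) ^ 2) ≤ C * (T * L ^ 2) := by
      apply mul_le_mul_of_nonneg_left _ hC.le
      have : (Real.exp ((L + a) / 2) + T) * (L / 2) ^ 2 ≤ (T * 2 + T) * (L / 2) ^ 2 :=
        mul_le_mul_of_nonneg_right (by linarith) (sq_nonneg _)
      have h0 : 0 ≤ T * L ^ 2 := by positivity
      nlinarith
    have h3 : 2 * Real.exp (1 / (4 * T ^ 2) - 16 * L / 4) * p ≤ 24 := by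
      have e3 : Real.exp (-(4 * L)) = (x ^ 4)⁻¹ := by
        rw [Real.exp_neg, ← hexL, ← Real.exp_nat_mul]
        congr 2
      have e4 : Real.exp (1 / (4 * T ^ 2) - 16 * L / 4) ≤ 2 * (x ^ 4)⁻¹ := by
        have : 1 / (4 * T ^ 2) - 16 * L / 4 = 1 / (4 * T ^ 2) + -(4 * L) := by ring
        rw [this, Real.exp_add, e3]
        apply mul_le_mul_of_nonneg_right _ (by positivity)
        rw [hT2]
        have h5 : 1 / (4 * x) ≤ 1 / 2 := one_div_le_one_div_of_le (by norm_num) (by linarith)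
        exact (exp_le1 (by positivity) (by linarith)).trans (by linarith)
      calc 2 * Real.exp (1 / (4 * T ^ 2) - 16 * L / 4) * p ≤ 2 * (2 * (x ^ 4)⁻¹) * (6 * x) := by
            gcongr
        _ = 24 * (x ^ 3)⁻¹ := by field_simp; norm_num
        _ ≤ 24 * 1 := by
            apply mul_le_mul_of_nonneg_left _ (by norm_num)
            exact inv_le_one_of_one_le₀ (one_le_pow₀ (by linarith))
        _ = 24 := by norm_num
    have h5 : z * (x * Real.exp a - 1) ≤ x + 2 + 8 * (T * q) := by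
      have h6 : x * Real.exp a ≤ x * (1 + 2 * a) := mul_le_mul_of_nonneg_left hea hx0.le
      have h7 : z * (x * Real.exp a) ≤ z * (x * (1 + 2 * a)) :=
        mul_le_mul_of_nonneg_left h6 (by linarith)
      have h8 : (z - 1) * x * (1 + 2 * a) ≤ 1 / 4 * (1 + 2 * a) :=
        mul_le_mul_of_nonneg_right hxz (by linarith)
      nlinarith
    have h6 : 0 ≤ K * (T * L ^ 2) := by positivity
    have h7 : 0 ≤ C * (T * L ^ 2) := by positivity
    nlinarith

theorem psiB_of (h : HM) : PsiB := by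
  obtain ⟨C, x₀, hC, hx₀, h1⟩ := psiB_large h
  have hl2 := Real.log_two_gt_d9
  refine ⟨C + 30 * x₀, by positivity, fun x hx => ?_⟩
  have hx0 : 0 < x := by linarith
  have hs : 0 ≤ Real.sqrt x * Real.log x ^ 2 := by positivity
  rcases le_or_gt x₀ x with h | h
  · refine (h1 x h).trans (mul_le_mul_of_nonneg_right (by nlinarith) hs)
  · have h2 : Real.log 4 ≤ 2 := by
      have : Real.log 4 = 2 * Real.log 2 := by
        rw [← Real.log_rpow (by norm_num)]
        norm_num
      rw [this]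
      linarith [Real.log_two_lt_d9]
    have h3 : |Chebyshev.psi x - x| ≤ 7 * x₀ := by
      have h4 := Chebyshev.psi_nonneg x
      have h5 := Chebyshev.psi_le_const_mul_self hx0.le
      rw [abs_le]
      constructor <;> nlinarith
    have h6 : 1 ≤ Real.sqrt x := by
      rw [Real.one_le_sqrt]
      linarith
    have h7 : Real.log 2 ≤ Real.log x := Real.log_le_log (by norm_num) hx
    have h8 : 1 / 4 ≤ Real.sqrt x * Real.log x ^ 2 := by
      have : 1 / 4 ≤ Real.log x ^ 2 := by nlinarith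
      nlinarith
    have h9 : 0 ≤ C * (Real.sqrt x * Real.log x ^ 2) := by positivity
    nlinarith

end Pool.Agent.NH13.LV.Ps
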