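import Pool.Agent.NH10.SV.Pd
import Pool.Agent.NH13.LV.PsC

/-!
# The error term of the prime number theorem under RH
-/

set_option autoImplicit false

open MeasureTheory Filter Topology Set ArithmeticFunction

namespace Pool.Agent.NH13.LV.Ps

open Pool.Agent.Y749.Rig (ZZ mm mm_nonneg mem_ZZ ZZ_mono zs_im_pos one_lt_log)
open Pool.Agent.NH10.GM (Zr Vs Vs_cont EFf Zr_cont)

lemma cos_int {g U : ℝ} (hg : 0 < g) (hU : 0 ≤ U) :
    |∫ u in (0 : ℝ)..U, Real.exp (u / 2) * Real.cos (u * g)| ≤ 4 / g * Real.exp (U / 2) := by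
  obtain ⟨F, hF⟩ : ∃ F : ℝ → ℝ, F = fun u => Real.exp (u / 2) *
      (1 / 2 * Real.cos (u * g) + g * Real.sin (u * g)) / (1 / 4 + g ^ 2) := ⟨_, rfl⟩
  have hd : ∀ u ∈ uIcc (0 : ℝ) U, HasDerivAt F (Real.exp (u / 2) * Real.cos (u * g)) u := by
    intro u _
    have h1 : HasDerivAt (fun u : ℝ => Real.exp (u / 2)) (Real.exp (u / 2) * (1 / 2)) u :=
      ((hasDerivAt_id u).div_const 2).exp
    have h2 : HasDerivAt (fun u : ℝ => Real.cos (u * g)) (-Real.sin (u * g) * (1 * g)) u :=
      ((hasDerivAt_id u).mul_const g).cos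
    have h3 : HasDerivAt (fun u : ℝ => Real.sin (u * g)) (Real.cos (u * g) * (1 * g)) u :=
      ((hasDerivAt_id u).mul_const g).sin
    have h4 := (h1.mul ((h2.const_mul (1 / 2)).add (h3.const_mul g))).div_const (1 / 4 + g ^ 2)
    rw [hF]
    refine h4.congr_deriv ?_
    have : (1 / 4 + g ^ 2) ≠ 0 := by positivity
    simp only [Pi.add_apply]
    field_simp
    ring
  have hcont : Continuous fun u : ℝ => Real.exp (u / 2) * Real.cos (u * g) := by fun_prop
  rw [intervalIntegral.integral_eq_sub_of_hasDerivAt hd (hcont.intervalIntegrable _ _)]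
  have hb : ∀ u : ℝ, 0 ≤ u → |F u| ≤ 2 / g * Real.exp (u / 2) := by
    intro u _
    rw [hF]
    simp only
    rw [abs_div, abs_mul, abs_of_pos (Real.exp_pos _),
      abs_of_pos (show (0 : ℝ) < 1 / 4 + g ^ 2 by positivity), div_le_iff₀ (by positivity)]
    have h1 : |1 / 2 * Real.cos (u * g) + g * Real.sin (u * g)| ≤ 1 / 2 + g := by
      refine (abs_add_le _ _).trans ?_
      rw [abs_mul, abs_mul, abs_of_pos (show (0 : ℝ) < 1 / 2 by norm_num), abs_of_pos hg]
      have h2 := Real.abs_cos_le_one (u * g)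
      have h3 := Real.abs_sin_le_one (u * g)
      nlinarith
    have h2 : 1 / 2 + g ≤ 2 / g * (1 / 4 + g ^ 2) := by
      have : 2 / g * (1 / 4 + g ^ 2) = 1 / (2 * g) + 2 * g := by field_simp; ring
      rw [this]
      have h3 : 1 / (2 * g) * (2 * g) = 1 := by field_simp
      have h4 : 0 < 1 / (2 * g) := by positivity
      by_contra hcon
      rw [not_le] at hcon
      have h5 := mul_lt_mul_of_pos_right hcon (show 0 < 2 * g by positivity)
      nlinarith [sq_nonneg (2 * g - 1)]
    calc Real.exp (u / 2) * |1 / 2 * Real.cos (u * g) + g * Real.sin (u * g)| ≤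
        Real.exp (u / 2) * (2 / g * (1 / 4 + g ^ 2)) :=
          mul_le_mul_of_nonneg_left (h1.trans h2) (Real.exp_pos _).le
      _ = _ := by ring
  have h0 := hb 0 le_rfl
  have h1 := hb U hU
  have h2 : Real.exp (0 / 2) ≤ Real.exp (U / 2) := Real.exp_le_exp.2 (by linarith)
  have h3 : 2 / g * Real.exp (0 / 2) ≤ 2 / g * Real.exp (U / 2) :=
    mul_le_mul_of_nonneg_left h2 (by positivity)
  calc |F U - F 0| ≤ |F U| + |F 0| := abs_sub _ _
    _ ≤ 2 / g * Real.exp (U / 2) + 2 / g * Real.exp (U / 2) := add_le_add h1 (h0.trans h3)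
    _ = _ := by ring

lemma inv_le {γ T : ℝ} (hγ : 10 ≤ γ) (hT : 10 ≤ T) : Real.exp (-(γ ^ 2 / (2 * T ^ 2))) / γ ≤
    8 * ∫ P in (10 : ℝ)..(2 * T), Real.exp (-(γ ^ 2 / (2 * P ^ 2))) / P ^ 2 := by
  obtain ⟨m, hm⟩ : ∃ m : ℝ, m = min γ T := ⟨_, rfl⟩
  have hm10 : 10 ≤ m := by rw [hm]; exact le_min hγ hT
  have hmγ : m ≤ γ := by rw [hm]; exact min_le_left _ _
  have hmT : m ≤ T := by rw [hm]; exact min_le_right _ _
  have hm0 : 0 < m := by linarith
  have hγ0 : 0 < γ := by linarith
  have hT0 : 0 < T := by linarith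
  have hci : ∀ x y : ℝ, 10 ≤ x → 10 ≤ y → IntervalIntegrable
      (fun P : ℝ => Real.exp (-(γ ^ 2 / (2 * P ^ 2))) / P ^ 2) volume x y := by
    intro x y hx hy
    apply ContinuousOn.intervalIntegrable
    have h0 : ∀ P ∈ uIcc x y, P ≠ 0 := by
      intro P hP
      have : 10 ≤ P := (le_min hx hy).trans hP.1
      linarith
    apply ContinuousOn.div
    · apply Real.continuous_exp.comp_continuousOn
      apply ContinuousOn.neg
      apply ContinuousOn.div continuousOn_const (by fun_prop)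
      intro P hP
      have := h0 P hP
      positivity
    · fun_prop
    · intro P hP
      exact pow_ne_zero 2 (h0 P hP)
  have h1 : ∫ P in m..(2 * m), Real.exp (-(γ ^ 2 / (2 * m ^ 2))) / (4 * m ^ 2) ≤
      ∫ P in m..(2 * m), Real.exp (-(γ ^ 2 / (2 * P ^ 2))) / P ^ 2 := by
    refine intervalIntegral.integral_mono_on (by linarith) intervalIntegrable_const
      (hci _ _ hm10 (by linarith)) fun P hP => ?_
    have hP0 : 0 < P := by linarith [hP.1]
    have hP2 : P ^ 2 ≤ 4 * m ^ 2 := by nlinarith [hP.2, hP.1]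
    have hP1 : m ^ 2 ≤ P ^ 2 := by nlinarith [hP.1]
    have h3 : γ ^ 2 / (2 * P ^ 2) ≤ γ ^ 2 / (2 * m ^ 2) := by gcongr
    have h4 : Real.exp (-(γ ^ 2 / (2 * m ^ 2))) ≤ Real.exp (-(γ ^ 2 / (2 * P ^ 2))) :=
      Real.exp_le_exp.2 (by linarith)
    gcongr
  rw [intervalIntegral.integral_const, smul_eq_mul] at h1
  have h2 : ∫ P in m..(2 * m), Real.exp (-(γ ^ 2 / (2 * P ^ 2))) / P ^ 2 ≤
      ∫ P in (10 : ℝ)..(2 * T), Real.exp (-(γ ^ 2 / (2 * P ^ 2))) / P ^ 2 := by
    refine intervalIntegral.integral_mono_interval hm10 (by linarith) (by linarith) ?_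
      (hci _ _ le_rfl (by linarith))
    exact Eventually.of_forall fun P => by positivity
  have h3 : Real.exp (-(γ ^ 2 / (2 * T ^ 2))) / γ ≤ 2 * (Real.exp (-(γ ^ 2 / (2 * m ^ 2))) / m) := by
    rcases le_total γ T with h | h
    · have e : m = γ := by rw [hm]; exact min_eq_left h
      rw [e]
      have e2 : γ ^ 2 / (2 * γ ^ 2) = 1 / 2 := by field_simp
      rw [e2]
      have h4 : Real.exp (-(γ ^ 2 / (2 * T ^ 2))) ≤ 1 := by
        rw [Real.exp_le_one_iff]
        have : 0 ≤ γ ^ 2 / (2 * T ^ 2) := by positivity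
        linarith
      have h5 : 1 / 2 ≤ Real.exp (-(1 / 2)) := by
        have := Real.add_one_le_exp (-(1 / 2) : ℝ)
        linarith
      rw [← mul_div_assoc]
      gcongr
      linarith
    · have e : m = T := by rw [hm]; exact min_eq_right h
      rw [e]
      have h4 : Real.exp (-(γ ^ 2 / (2 * T ^ 2))) / γ ≤ Real.exp (-(γ ^ 2 / (2 * T ^ 2))) / T := by
        gcongr
      have h5 : 0 ≤ Real.exp (-(γ ^ 2 / (2 * T ^ 2))) / T := by positivity
      linarith
  have e : (2 * m - m) * (Real.exp (-(γ ^ 2 / (2 * m ^ 2))) / (4 * m ^ 2)) =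
      Real.exp (-(γ ^ 2 / (2 * m ^ 2))) / m / 4 := by
    field_simp
    ring
  rw [e] at h1
  linarith

/-- the sum of the weights over the ordinates -/
lemma sum_inv : ∃ C : ℝ, 0 < C ∧ ∀ T : ℝ, 10 ≤ T → ∀ Y : ℝ,
    ∑ s ∈ ZZ Y, mm s * (Real.exp (-(s.im ^ 2 / (2 * T ^ 2))) / s.im) ≤ C * Real.log T ^ 2 := by
  obtain ⟨C, hC, hz⟩ := Pool.Agent.NH10.SV.zc
  obtain ⟨D, hD⟩ : ∃ D : ℝ, D = ∑ s ∈ ZZ 10, mm s / s.im := ⟨_, rfl⟩
  have him : ∀ (Y : ℝ), ∀ s ∈ ZZ Y, 0 < s.im := fun Y s hs => zs_im_pos (mem_ZZ.1 hs)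
  have hD0 : 0 ≤ D := by
    rw [hD]
    exact Finset.sum_nonneg fun s hs => div_nonneg (mm_nonneg s) (him _ s hs).le
  refine ⟨D + 32 * C, by linarith, fun T hT Y => ?_⟩
  have hT0 : 0 < T := by linarith
  have hL1 : 1 ≤ Real.log T := (one_lt_log (by linarith)).le
  obtain ⟨I, hI⟩ : ∃ I : ℂ → ℝ, I = fun s => ∫ P in (10 : ℝ)..(2 * T),
    Real.exp (-(s.im ^ 2 / (2 * P ^ 2))) / P ^ 2 := ⟨_, rfl⟩
  have hI0 : ∀ s, 0 ≤ I s := by
    intro s
    rw [hI]
    exact intervalIntegral.integral_nonneg (by linarith) fun P _ => by positivity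
  have h1 : ∀ s ∈ ZZ Y, mm s * (Real.exp (-(s.im ^ 2 / (2 * T ^ 2))) / s.im) ≤
      (if s.im ≤ 10 then mm s / s.im else 0) + 8 * (mm s * I s) := by
    intro s hs
    have hs0 := him Y s hs
    split_ifs with h
    · have h2 : Real.exp (-(s.im ^ 2 / (2 * T ^ 2))) ≤ 1 := by
        rw [Real.exp_le_one_iff]
        have : 0 ≤ s.im ^ 2 / (2 * T ^ 2) := by positivity
        linarith
      have h3 : mm s * (Real.exp (-(s.im ^ 2 / (2 * T ^ 2))) / s.im) ≤ mm s / s.im := by
        rw [← mul_div_assoc]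
        gcongr
        calc mm s * _ ≤ mm s * 1 := mul_le_mul_of_nonneg_left h2 (mm_nonneg s)
          _ = mm s := mul_one _
      have h4 : 0 ≤ mm s * I s := mul_nonneg (mm_nonneg s) (hI0 s)
      linarith
    · have h2 := inv_le (not_le.1 h).le hT
      have h3 := mul_le_mul_of_nonneg_left h2 (mm_nonneg s)
      rw [hI]
      simp only
      linarith
  have h2 : ∑ s ∈ ZZ Y, (if s.im ≤ 10 then mm s / s.im else 0) ≤ D := by
    rw [← Finset.sum_filter, hD]
    refine Finset.sum_le_sum_of_subset_of_nonneg ?_ fun s hs _ =>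
      div_nonneg (mm_nonneg s) (him _ s hs).le
    intro s hs
    rw [Finset.mem_filter, mem_ZZ] at hs
    rw [mem_ZZ]
    obtain ⟨⟨a1, a2, a3, a4, a5⟩, a6⟩ := hs
    exact ⟨a1, a2, a3, a4, a6⟩
  have hci : ∀ s : ℂ, IntervalIntegrable
      (fun P : ℝ => mm s * (Real.exp (-(s.im ^ 2 / (2 * P ^ 2))) / P ^ 2)) volume 10 (2 * T) := by
    intro s
    apply ContinuousOn.intervalIntegrable
    have h0 : ∀ P ∈ uIcc 10 (2 * T), P ≠ 0 := by
      intro P hP
      have : (10 : ℝ) ≤ P := (le_min le_rfl (by linarith)).trans hP.1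
      linarith
    apply ContinuousOn.mul continuousOn_const
    apply ContinuousOn.div
    · apply Real.continuous_exp.comp_continuousOn
      apply ContinuousOn.neg
      apply ContinuousOn.div continuousOn_const (by fun_prop)
      intro P hP
      have := h0 P hP
      positivity
    · fun_prop
    · intro P hP
      exact pow_ne_zero 2 (h0 P hP)
  have hci2 : IntervalIntegrable (fun P : ℝ => C * Real.log (2 * T) * P⁻¹) volume 10 (2 * T) := by
    apply IntervalIntegrable.const_mul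
    apply intervalIntegral.intervalIntegrable_inv
    · intro P hP
      have : (10 : ℝ) ≤ P := (le_min le_rfl (by linarith)).trans hP.1
      linarith
    · fun_prop
  have h3 : ∑ s ∈ ZZ Y, mm s * I s ≤ C * Real.log (2 * T) * Real.log (2 * T) := by
    have e1 : ∑ s ∈ ZZ Y, mm s * I s = ∫ P in (10 : ℝ)..(2 * T), ∑ s ∈ ZZ Y,
        mm s * (Real.exp (-(s.im ^ 2 / (2 * P ^ 2))) / P ^ 2) := by
      rw [intervalIntegral.integral_finsetSum fun s _ => hci s]
      refine Finset.sum_congr rfl fun s _ => ?_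
      rw [intervalIntegral.integral_const_mul, hI]
    rw [e1]
    have h4 : ∫ P in (10 : ℝ)..(2 * T), ∑ s ∈ ZZ Y,
        mm s * (Real.exp (-(s.im ^ 2 / (2 * P ^ 2))) / P ^ 2) ≤
        ∫ P in (10 : ℝ)..(2 * T), C * Real.log (2 * T) * P⁻¹ := by
      refine intervalIntegral.integral_mono_on (by linarith) ?_ hci2 fun P hP => ?_
      · have := IntervalIntegrable.sum (ZZ Y) (f := fun s (P : ℝ) =>
          mm s * (Real.exp (-(s.im ^ 2 / (2 * P ^ 2))) / P ^ 2)) fun s _ => hci s
        refine this.congr fun P _ => ?_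
        simp only [Finset.sum_apply]
      · have hP0 : 0 < P := by linarith [hP.1]
        have h5 := hz P hP.1 Y
        have h6 : Real.log P ≤ Real.log (2 * T) := Real.log_le_log hP0 hP.2
        have e2 : ∑ s ∈ ZZ Y, mm s * (Real.exp (-(s.im ^ 2 / (2 * P ^ 2))) / P ^ 2) =
            (∑ s ∈ ZZ Y, mm s * Real.exp (-(s.im ^ 2 / (2 * P ^ 2)))) / P ^ 2 := by
          rw [Finset.sum_div]
          refine Finset.sum_congr rfl fun s _ => ?_
          rw [mul_div_assoc]
        rw [e2, div_le_iff₀ (by positivity)]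
        calc _ ≤ C * (P * Real.log P) := h5
          _ ≤ C * (P * Real.log (2 * T)) := by gcongr
          _ = C * Real.log (2 * T) * P⁻¹ * P ^ 2 := by field_simp
    refine h4.trans ?_
    rw [intervalIntegral.integral_const_mul, integral_inv_of_pos (by norm_num) (by linarith)]
    apply mul_le_mul_of_nonneg_left _ (by
      have := Real.log_nonneg (show 1 ≤ 2 * T by linarith)
      positivity)
    apply Real.log_le_log (by positivity)
    rw [div_le_iff₀ (by norm_num)]
    linarith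
  have h5 : Real.log (2 * T) ≤ 2 * Real.log T := by
    rw [Real.log_mul (by norm_num) hT0.ne']
    have := Real.log_two_lt_d9
    linarith
  have h6 : 0 ≤ Real.log (2 * T) := Real.log_nonneg (by linarith)
  calc ∑ s ∈ ZZ Y, mm s * (Real.exp (-(s.im ^ 2 / (2 * T ^ 2))) / s.im) ≤
      ∑ s ∈ ZZ Y, ((if s.im ≤ 10 then mm s / s.im else 0) + 8 * (mm s * I s)) :=
        Finset.sum_le_sum h1
    _ = ∑ s ∈ ZZ Y, (if s.im ≤ 10 then mm s / s.im else 0) + 8 * ∑ s ∈ ZZ Y, mm s * I s := by
        rw [Finset.sum_add_distrib, Finset.mul_sum]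
    _ ≤ D + 8 * (C * Real.log (2 * T) * Real.log (2 * T)) := by linarith
    _ ≤ D + 8 * (C * (2 * Real.log T) * (2 * Real.log T)) := by gcongr
    _ ≤ (D + 32 * C) * Real.log T ^ 2 := by
        have h7 : D * 1 ≤ D * Real.log T ^ 2 := mul_le_mul_of_nonneg_left (by nlinarith) hD0
        nlinarith

/-- the averages under RH -/
theorem hm (RH : RiemannHypothesis) : HM := by
  obtain ⟨Y, _, hE⟩ := EFf RH
  obtain ⟨C, T₀, hC, hT₀, hE⟩ := hE 3 (by norm_num)
  obtain ⟨D, hD, hS⟩ := sum_inv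
  refine ⟨4 * C + 8 * D, T₀, by positivity, hT₀, fun T hT => ?_⟩
  have hT10 : 10 ≤ T := hT₀.trans hT
  have hT0 : 0 < T := by linarith
  have hL1 : 1 ≤ Real.log T := (one_lt_log (by linarith)).le
  have hVc : Continuous (Vs T) := Vs_cont hT0
  have hZc : Continuous (Zr T (Y T)) := Zr_cont _ _
  have hW : WW T = fun u => Vs T u + Real.sqrt (2 * Real.pi) / T *
      Real.exp (u / 2 + 1 / (8 * T ^ 2)) := by
    funext u
    unfold WW Vs
    ring
  have hWc : Continuous (WW T) := by
    rw [hW]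
    exact hVc.add (by fun_prop)
  refine ⟨hWc, fun U hU hU3 => ?_⟩
  have hs : 0 < Real.sqrt (2 * Real.pi) := Real.sqrt_pos.2 (by positivity)
  have e1 : MM T U - Real.exp (1 / (8 * T ^ 2)) * (Real.exp U - 1) =
      (∫ u in (0 : ℝ)..U, Real.exp (u / 2) * (Zr T (Y T) u +
        T / Real.sqrt (2 * Real.pi) * Vs T u)) -
      ∫ u in (0 : ℝ)..U, Real.exp (u / 2) * Zr T (Y T) u := by
    have c1 : Continuous fun u : ℝ => Real.exp (u / 2) * Zr T (Y T) u := by fun_prop
    have c2 : Continuous fun u : ℝ => Real.exp (u / 2) * (T / Real.sqrt (2 * Real.pi) * Vs T u) := by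
      fun_prop
    have e2 : (∫ u in (0 : ℝ)..U, Real.exp (u / 2) * (Zr T (Y T) u +
        T / Real.sqrt (2 * Real.pi) * Vs T u)) =
        (∫ u in (0 : ℝ)..U, Real.exp (u / 2) * Zr T (Y T) u) +
        ∫ u in (0 : ℝ)..U, Real.exp (u / 2) * (T / Real.sqrt (2 * Real.pi) * Vs T u) := by
      rw [← intervalIntegral.integral_add (c1.intervalIntegrable _ _) (c2.intervalIntegrable _ _)]
      refine intervalIntegral.integral_congr fun u _ => ?_
      show Real.exp (u / 2) * (Zr T (Y T) u + T / Real.sqrt (2 * Real.pi) * Vs T u) =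
        Real.exp (u / 2) * Zr T (Y T) u + Real.exp (u / 2) * (T / Real.sqrt (2 * Real.pi) * Vs T u)
      ring
    have e3 : MM T U = (∫ u in (0 : ℝ)..U, Real.exp (u / 2) *
        (T / Real.sqrt (2 * Real.pi) * Vs T u)) +
        ∫ u in (0 : ℝ)..U, Real.exp (1 / (8 * T ^ 2)) * Real.exp u := by
      unfold MM
      rw [← intervalIntegral.integral_const_mul, ← intervalIntegral.integral_add
        (c2.intervalIntegrable _ _) ((by fun_prop : Continuous fun u : ℝ =>
          Real.exp (1 / (8 * T ^ 2)) * Real.exp u).intervalIntegrable _ _)]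
      refine intervalIntegral.integral_congr fun u _ => ?_
      show T / Real.sqrt (2 * Real.pi) * (Real.exp (u / 2) * WW T u) =
        Real.exp (u / 2) * (T / Real.sqrt (2 * Real.pi) * Vs T u) +
          Real.exp (1 / (8 * T ^ 2)) * Real.exp u
      rw [hW]
      simp only
      have e4 : Real.exp (u / 2 + 1 / (8 * T ^ 2)) = Real.exp (u / 2) *
          Real.exp (1 / (8 * T ^ 2)) := Real.exp_add _ _
      have e5 : Real.exp u = Real.exp (u / 2) * Real.exp (u / 2) := by
        rw [← Real.exp_add]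
        congr 1
        ring
      rw [e4, e5]
      field_simp
    rw [e2, e3, intervalIntegral.integral_const_mul, integral_exp, Real.exp_zero]
    ring
  have hexp : ∫ u in (0 : ℝ)..U, Real.exp (u / 2) ≤ 2 * Real.exp (U / 2) := by
    have e : ∫ u in (0 : ℝ)..U, Real.exp (u / 2) = 2 * (Real.exp (U / 2) - Real.exp (0 / 2)) := by
      rw [intervalIntegral.integral_comp_div (fun u => Real.exp u) two_ne_zero, integral_exp]
      simp
    rw [e]
    have := Real.exp_pos (0 / 2 : ℝ)
    linarith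
  have hexn : ∫ u in (0 : ℝ)..U, Real.exp (-u / 2) ≤ 2 := by
    have e : ∫ u in (0 : ℝ)..U, Real.exp (-u / 2) = 2 * (Real.exp (-0 / 2) - Real.exp (-U / 2)) := by
      have h := intervalIntegral.integral_comp_div (a := 0) (b := U) (fun u => Real.exp u)
        (show (-2 : ℝ) ≠ 0 by norm_num)
      rw [integral_exp] at h
      have h2 : ∀ u : ℝ, u / (-2) = -u / 2 := fun u => by ring
      simp only [h2, smul_eq_mul] at h
      rw [h]
      ring
    rw [e]
    have := Real.exp_pos (-U / 2 : ℝ)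
    have h2 : Real.exp (-0 / 2 : ℝ) = 1 := by norm_num
    rw [h2]
    linarith
  have p1 : |∫ u in (0 : ℝ)..U, Real.exp (u / 2) * (Zr T (Y T) u +
      T / Real.sqrt (2 * Real.pi) * Vs T u)| ≤
      C * (2 * (T * Real.log T) + 2 * Real.exp (U / 2)) := by
    have h1 : |∫ u in (0 : ℝ)..U, Real.exp (u / 2) * (Zr T (Y T) u +
        T / Real.sqrt (2 * Real.pi) * Vs T u)| ≤ ∫ u in (0 : ℝ)..U,
        (C * (T * Real.log T) * Real.exp (-u / 2) + C * Real.exp (u / 2)) := by
      refine (intervalIntegral.abs_integral_le_integral_abs hU).trans ?_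
      refine intervalIntegral.integral_mono_on hU ?_ ?_ fun u hu => ?_
      · apply Continuous.intervalIntegrable
        fun_prop
      · apply Continuous.intervalIntegrable
        fun_prop
      · rw [abs_mul, abs_of_pos (Real.exp_pos _)]
        have h2 := hE T hT u hu.1 (hu.2.trans hU3)
        calc _ ≤ Real.exp (u / 2) * (C * (Real.exp (-u) * (T * Real.log T) + 1)) :=
              mul_le_mul_of_nonneg_left h2 (Real.exp_pos _).le
          _ = C * (T * Real.log T) * (Real.exp (u / 2) * Real.exp (-u)) + C * Real.exp (u / 2) := by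
              ring
          _ = _ := by
              rw [← Real.exp_add]
              congr 3
              ring
    rw [intervalIntegral.integral_add ((by fun_prop : Continuous fun u : ℝ =>
        C * (T * Real.log T) * Real.exp (-u / 2)).intervalIntegrable _ _)
        ((by fun_prop : Continuous fun u : ℝ => C * Real.exp (u / 2)).intervalIntegrable _ _),
      intervalIntegral.integral_const_mul, intervalIntegral.integral_const_mul] at h1
    have h3 : C * (T * Real.log T) * ∫ u in (0 : ℝ)..U, Real.exp (-u / 2) ≤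
        C * (T * Real.log T) * 2 := mul_le_mul_of_nonneg_left hexn (by positivity)
    have h4 : C * ∫ u in (0 : ℝ)..U, Real.exp (u / 2) ≤ C * (2 * Real.exp (U / 2)) :=
      mul_le_mul_of_nonneg_left hexp hC.le
    linarith
  have p2 : |∫ u in (0 : ℝ)..U, Real.exp (u / 2) * Zr T (Y T) u| ≤
      8 * Real.exp (U / 2) * (D * Real.log T ^ 2) := by
    have e2 : ∫ u in (0 : ℝ)..U, Real.exp (u / 2) * Zr T (Y T) u = ∑ s ∈ ZZ (Y T),
        mm s * (2 * Real.exp (-(s.im ^ 2 / (2 * T ^ 2)))) *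
          ∫ u in (0 : ℝ)..U, Real.exp (u / 2) * Real.cos (u * s.im) := by
      simp only [← intervalIntegral.integral_const_mul]
      rw [← intervalIntegral.integral_finsetSum fun s _ => by
        apply Continuous.intervalIntegrable
        fun_prop]
      refine intervalIntegral.integral_congr fun u _ => ?_
      show Real.exp (u / 2) * Zr T (Y T) u = _
      unfold Zr
      rw [Finset.mul_sum]
      refine Finset.sum_congr rfl fun s _ => ?_
      ring
    rw [e2]
    refine (Finset.abs_sum_le_sum_abs _ _).trans ?_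
    have h1 : ∀ s ∈ ZZ (Y T), |mm s * (2 * Real.exp (-(s.im ^ 2 / (2 * T ^ 2)))) *
        ∫ u in (0 : ℝ)..U, Real.exp (u / 2) * Real.cos (u * s.im)| ≤
        8 * Real.exp (U / 2) * (mm s * (Real.exp (-(s.im ^ 2 / (2 * T ^ 2))) / s.im)) := by
      intro s hs
      have hs0 : 0 < s.im := zs_im_pos (mem_ZZ.1 hs)
      rw [abs_mul, abs_of_nonneg (by have := mm_nonneg s; positivity)]
      calc _ ≤ mm s * (2 * Real.exp (-(s.im ^ 2 / (2 * T ^ 2)))) * (4 / s.im * Real.exp (U / 2)) :=
            mul_le_mul_of_nonneg_left (cos_int hs0 hU) (by have := mm_nonneg s; positivity)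
        _ = _ := by ring
    refine (Finset.sum_le_sum h1).trans ?_
    rw [← Finset.mul_sum]
    exact mul_le_mul_of_nonneg_left (hS T hT10 _) (by positivity)
  rw [e1]
  have hLL : Real.log T ≤ Real.log T ^ 2 := by nlinarith
  have hLL1 : 1 ≤ Real.log T ^ 2 := by nlinarith
  have he0 := Real.exp_pos (U / 2)
  have q1 : C * (2 * (T * Real.log T) + 2 * Real.exp (U / 2)) ≤
      C * (2 * (T * Real.log T ^ 2) + 2 * (Real.exp (U / 2) * Real.log T ^ 2)) := by
    apply mul_le_mul_of_nonneg_left _ hC.le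
    have : T * Real.log T ≤ T * Real.log T ^ 2 := mul_le_mul_of_nonneg_left hLL hT0.le
    have : Real.exp (U / 2) * 1 ≤ Real.exp (U / 2) * Real.log T ^ 2 :=
      mul_le_mul_of_nonneg_left hLL1 he0.le
    linarith
  calc _ ≤ |∫ u in (0 : ℝ)..U, Real.exp (u / 2) * (Zr T (Y T) u +
      T / Real.sqrt (2 * Real.pi) * Vs T u)| +
      |∫ u in (0 : ℝ)..U, Real.exp (u / 2) * Zr T (Y T) u| := abs_sub _ _
    _ ≤ C * (2 * (T * Real.log T ^ 2) + 2 * (Real.exp (U / 2) * Real.log T ^ 2)) +
      8 * Real.exp (U / 2) * (D * Real.log T ^ 2) := add_le_add (p1.trans q1) p2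
    _ ≤ _ := by
        have h1 : 0 ≤ C * (T * Real.log T ^ 2) := by positivity
        have h2 : 0 ≤ C * (Real.exp (U / 2) * Real.log T ^ 2) := by positivity
        have h3 : 0 ≤ D * (T * Real.log T ^ 2) := by positivity
        nlinarith

end Pool.Agent.NH13.LV.Ps

namespace Pool.Agent.NH13.LV

/-- **the error term of the prime number theorem under RH** -/
theorem t_psi (RH : RiemannHypothesis) : PsiB := Ps.psiB_of (Ps.hm RH)

end Pool.Agent.NH13.LV
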