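import Pool.Agent.NH13.LV.Defs

/-! LV-4 (helper92): the inequality of Saffari and Vaughan. -/

set_option autoImplicit false

open MeasureTheory Filter Topology Set

namespace Pool.Agent.NH13.LV.SV92

theorem meas_psi : Measurable Chebyshev.psi := Chebyshev.psi_mono.measurable

theorem vv_nonneg (x h : ℝ) : 0 ≤ vv x h := sq_nonneg _

theorem vv_le {R x h : ℝ} (hx : 0 ≤ x) (hxR : x ≤ R) (hh : 0 ≤ h) (hhR : h ≤ R) :
    vv x h ≤ (Chebyshev.psi (2 * R) + R) ^ 2 := by
  unfold vv
  have h1 : Chebyshev.psi (x + h) ≤ Chebyshev.psi (2 * R) := Chebyshev.psi_mono (by linarith)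
  have h2 := Chebyshev.psi_nonneg x
  have h3 := Chebyshev.psi_nonneg (2 * R)
  have h4 : Chebyshev.psi x ≤ Chebyshev.psi (x + h) := Chebyshev.psi_mono (by linarith)
  apply sq_le_sq'
  · linarith
  · linarith

theorem meas_vv (p r : ℝ) : Measurable fun H : ℝ => vv (p * H) (r * H) / H ^ 2 := by
  unfold vv
  have h1 : Measurable fun H : ℝ => Chebyshev.psi (p * H + r * H) :=
    meas_psi.comp (by fun_prop)
  have h2 : Measurable fun H : ℝ => Chebyshev.psi (p * H) := meas_psi.comp (by fun_prop)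
  exact (((h1.sub h2).sub (by fun_prop)).pow_const 2).div (by fun_prop)

theorem int_vv {p r A B : ℝ} (hp : 0 ≤ p) (hr : 0 ≤ r) (hA : 0 < A) (hAB : A ≤ B) :
    IntervalIntegrable (fun H : ℝ => vv (p * H) (r * H) / H ^ 2) volume A B := by
  rw [intervalIntegrable_iff_integrableOn_Ioc_of_le hAB]
  refine Measure.integrableOn_of_bounded (M := (Chebyshev.psi (2 * ((p + r) * B)) + (p + r) * B) ^ 2 / A ^ 2)
    (by simp) (meas_vv p r).aestronglyMeasurable ?_
  refine (ae_restrict_iff' measurableSet_Ioc).2 (Eventually.of_forall fun H hH => ?_)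
  have hH0 : 0 < H := hA.trans hH.1
  rw [Real.norm_of_nonneg (div_nonneg (vv_nonneg _ _) (sq_nonneg _))]
  refine div_le_div₀ (sq_nonneg _) (vv_le (by positivity) ?_ (by positivity) ?_) (by positivity) ?_
  · have := mul_le_mul_of_nonneg_left hH.2 hp
    nlinarith [mul_nonneg hr (hA.le.trans hAB)]
  · have := mul_le_mul_of_nonneg_left hH.2 hr
    nlinarith [mul_nonneg hp (hA.le.trans hAB)]
  · exact pow_le_pow_left₀ hA.le hH.1.le 2

theorem vv_split (κ : ℝ) (hκ : 0 < κ) (x H θ : ℝ) :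
    vv x H ≤ (1 + κ) * vv x (θ * H) + (1 + 1 / κ) * vv (x + θ * H) ((1 - θ) * H) := by
  unfold vv
  have e : x + θ * H + (1 - θ) * H = x + H := by ring
  rw [e]
  set E1 := Chebyshev.psi (x + θ * H) - Chebyshev.psi x - θ * H with h1
  set E2 := Chebyshev.psi (x + H) - Chebyshev.psi (x + θ * H) - (1 - θ) * H with h2
  have e2 : Chebyshev.psi (x + H) - Chebyshev.psi x - H = E1 + E2 := by
    rw [h1, h2]
    ring
  rw [e2]
  have h3 : 0 ≤ (κ * E1 - E2) ^ 2 / κ := by positivity
  have h4 : (1 + κ) * E1 ^ 2 + (1 + 1 / κ) * E2 ^ 2 - (E1 + E2) ^ 2 = (κ * E1 - E2) ^ 2 / κ := by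
    field_simp
    ring
  linarith

/-- scaling -/
theorem scale {p θ A B : ℝ} (hθ : 0 < θ) :
    ∫ H in A..B, vv (p * H) (θ * H) / H ^ 2 = θ * Gq (p / θ) (θ * A) (θ * B) := by
  unfold Gq
  have h := intervalIntegral.integral_comp_mul_left (a := A) (b := B)
    (fun g => vv (p / θ * g) g / g ^ 2) hθ.ne'
  have e : ∀ H : ℝ, vv (p / θ * (θ * H)) (θ * H) / (θ * H) ^ 2 =
      (θ ^ 2)⁻¹ * (vv (p * H) (θ * H) / H ^ 2) := by
    intro H
    have e1 : p / θ * (θ * H) = p * H := by field_simp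
    rw [e1, mul_pow, div_mul_eq_div_div, div_right_comm]
    rw [div_eq_mul_inv _ (θ ^ 2), mul_comm]
  simp only [e] at h
  rw [intervalIntegral.integral_const_mul] at h
  have h2 : (θ ^ 2) ≠ 0 := by positivity
  have h3 : ∫ H in A..B, vv (p * H) (θ * H) / H ^ 2 =
      θ ^ 2 * ((θ ^ 2)⁻¹ * ∫ H in A..B, vv (p * H) (θ * H) / H ^ 2) := by
    rw [← mul_assoc, mul_inv_cancel₀ h2, one_mul]
  rw [h3, h, smul_eq_mul, ← mul_assoc]
  congr 1
  field_simp

theorem point {κ T A B θ : ℝ} (hκ : 0 < κ) (hT : 0 ≤ T) (hA : 0 < A) (hAB : A ≤ B) (h0 : 0 < θ)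
    (h1 : θ < 1) : Gq T A B ≤ (1 + κ) * (θ * Gq (T / θ) (θ * A) (θ * B)) +
      (1 + 1 / κ) * ((1 - θ) * Gq ((T + θ) / (1 - θ)) ((1 - θ) * A) ((1 - θ) * B)) := by
  rw [← scale h0, ← scale (sub_pos.2 h1), ← intervalIntegral.integral_const_mul,
    ← intervalIntegral.integral_const_mul, ← intervalIntegral.integral_add]
  · unfold Gq
    have hi := int_vv (p := T) (r := 1) hT zero_le_one hA hAB
    simp only [one_mul] at hi
    refine intervalIntegral.integral_mono_on hAB hi ?_ ?_
    · exact ((int_vv hT h0.le hA hAB).const_mul _).add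
        ((int_vv (add_nonneg hT h0.le) (sub_pos.2 h1).le hA hAB).const_mul _)
    · intro H hH
      have hH0 : 0 < H := hA.trans_le hH.1
      have h := vv_split κ hκ (T * H) H θ
      have e : T * H + θ * H = (T + θ) * H := by ring
      rw [e] at h
      rw [← mul_div_assoc, ← mul_div_assoc, ← add_div]
      exact div_le_div_of_nonneg_right h (by positivity)
  · exact (int_vv hT h0.le hA hAB).const_mul _
  · exact (int_vv (add_nonneg hT h0.le) (sub_pos.2 h1).le hA hAB).const_mul _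

theorem image_div {a b c : ℝ} (ha : 0 < a) (hab : a ≤ b) (hc : 0 < c) :
    (fun s => c / s) '' Icc a b = Icc (c / b) (c / a) := by
  ext u
  rw [mem_image]
  constructor
  · rintro ⟨s, hs, rfl⟩
    exact ⟨div_le_div_of_nonneg_left hc.le (ha.trans_le hs.1) hs.2,
      div_le_div_of_nonneg_left hc.le ha hs.1⟩
  · intro hu
    have hb : 0 < b := ha.trans_le hab
    have hu0 : 0 < u := (div_pos hc hb).trans_le hu.1
    refine ⟨c / u, ⟨?_, ?_⟩, ?_⟩
    · rw [le_div_iff₀ hu0]
      have := (le_div_iff₀ ha).1 hu.2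
      linarith
    · rw [div_le_iff₀ hu0]
      have := (div_le_iff₀ hb).1 hu.1
      linarith
    · show c / (c / u) = u
      field_simp

theorem subst_le {G : ℝ → ℝ} {a b c : ℝ} (ha : 0 < a) (hab : a ≤ b) (hc : 0 < c)
    (hG0 : ∀ u ∈ Icc (c / b) (c / a), 0 ≤ G u) (hGi : IntegrableOn G (Icc (c / b) (c / a))) :
    ∫ s in Icc a b, s * G (c / s) ≤ b ^ 3 / c * ∫ u in Icc (c / b) (c / a), G u := by
  have hb : 0 < b := ha.trans_le hab
  have h := integral_image_eq_integral_abs_deriv_smul (s := Icc a b) (f := fun s => c / s)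
    (f' := fun s => -c / s ^ 2) measurableSet_Icc (fun x hx => by
      have hx0 : x ≠ 0 := (ha.trans_le hx.1).ne'
      have h1 := (hasDerivAt_inv hx0).const_mul c
      have h2 : HasDerivAt (fun s => c / s) (-c / x ^ 2) x := by
        refine (h1.congr_deriv ?_).congr_of_eventuallyEq (Eventually.of_forall fun y => ?_)
        · field_simp
        · show c / y = c * y⁻¹
          rw [div_eq_mul_inv]
      exact h2.hasDerivWithinAt) (fun x hx y hy hxy => by
      have hx0 : 0 < x := ha.trans_le hx.1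
      have hy0 : 0 < y := ha.trans_le hy.1
      have h3 : c / x = c / y := hxy
      rw [div_eq_div_iff hx0.ne' hy0.ne'] at h3
      exact (mul_left_cancel₀ hc.ne' h3).symm) (fun u => c ^ 2 / u ^ 3 * G u)
  rw [image_div ha hab hc] at h
  have h1 : ∫ s in Icc a b, |-c / s ^ 2| • (c ^ 2 / (c / s) ^ 3 * G (c / s)) =
      ∫ s in Icc a b, s * G (c / s) := by
    refine setIntegral_congr_fun measurableSet_Icc fun s hs => ?_
    have hs0 : 0 < s := ha.trans_le hs.1
    show |-c / s ^ 2| • (c ^ 2 / (c / s) ^ 3 * G (c / s)) = s * G (c / s)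
    rw [neg_div, abs_neg, abs_of_pos (by positivity), smul_eq_mul, ← mul_assoc]
    congr 1
    field_simp
  rw [← h1, ← h, ← integral_const_mul]
  refine integral_mono_of_nonneg ?_ (hGi.const_mul _) ?_
  · refine (ae_restrict_iff' measurableSet_Icc).2 (Eventually.of_forall fun u hu => ?_)
    have hu0 : 0 < u := (div_pos hc hb).trans_le hu.1
    exact mul_nonneg (by positivity) (hG0 u hu)
  · refine (ae_restrict_iff' measurableSet_Icc).2 (Eventually.of_forall fun u hu => ?_)
    have hu0 : 0 < u := (div_pos hc hb).trans_le hu.1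
    refine mul_le_mul_of_nonneg_right ?_ (hG0 u hu)
    have h2 : (c / b) ^ 3 ≤ u ^ 3 := pow_le_pow_left₀ (div_pos hc hb).le hu.1 3
    have h3 : c ^ 2 / u ^ 3 ≤ c ^ 2 / (c / b) ^ 3 :=
      div_le_div_of_nonneg_left (by positivity) (by positivity) h2
    refine h3.trans (le_of_eq ?_)
    field_simp

theorem gq_int (h : S_G) {A B p q : ℝ} (hA : 0 < A) (hAB : A ≤ B) (hp : 0 < p) :
    IntegrableOn (fun t => Gq t A B) (Icc p q) := by
  obtain ⟨g1, -, -, g4, g5⟩ := h
  rcases le_or_gt p q with hpq | hpq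
  · obtain ⟨C, hC⟩ := g5 A B hA hAB p q hp hpq
    refine Measure.integrableOn_of_bounded (M := C) (by simp) (g4 A B hA hAB).aestronglyMeasurable ?_
    refine (ae_restrict_iff' measurableSet_Icc).2 (Eventually.of_forall fun t ht => ?_)
    rw [Real.norm_of_nonneg (g1 t A B (hp.trans_le ht.1) hA hAB)]
    exact hC t ht
  · rw [Icc_eq_empty (not_le.2 hpq)]
    exact integrableOn_empty

theorem int_comp (h : S_G) {A B c a b : ℝ} (hA : 0 < A) (hAB : A ≤ B) (ha : 0 < a) (hab : a ≤ b)
    (hc : 0 < c) (d : ℝ) (hd : d < c / b) :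
    IntegrableOn (fun s => s * Gq (c / s - d) A B) (Icc a b) := by
  obtain ⟨g1, -, -, g4, g5⟩ := h
  have hb : 0 < b := ha.trans_le hab
  have hcb : c / b ≤ c / a := div_le_div_of_nonneg_left hc.le ha hab
  obtain ⟨C, hC⟩ := g5 A B hA hAB (c / b - d) (c / a - d) (by linarith) (by linarith)
  have hm : Measurable fun s : ℝ => s * Gq (c / s - d) A B :=
    measurable_id.mul ((g4 A B hA hAB).comp ((measurable_const.div measurable_id).sub_const d))
  refine Measure.integrableOn_of_bounded (M := b * C) (by simp) hm.aestronglyMeasurable ?_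
  refine (ae_restrict_iff' measurableSet_Icc).2 (Eventually.of_forall fun s hs => ?_)
  have hs0 : 0 < s := ha.trans_le hs.1
  have h1 : c / b ≤ c / s := div_le_div_of_nonneg_left hc.le hs0 hs.2
  have h2 : c / s ≤ c / a := div_le_div_of_nonneg_left hc.le ha hs.1
  have h3 := g1 (c / s - d) A B (by linarith) hA hAB
  rw [Real.norm_of_nonneg (mul_nonneg hs0.le h3)]
  exact mul_le_mul hs.2 (hC _ ⟨by linarith, by linarith⟩) h3 hb.le

end Pool.Agent.NH13.LV.SV92

namespace Pool.Agent.NH13.LV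

open SV92

theorem t_SV (h : S_G) : S_SV := by
  intro η κ T A B hη hη4 hκ hT hA hAB
  have hS := h
  obtain ⟨g1, g2, -, g4, g5⟩ := h
  have hT0 : 0 < T := by linarith
  have hB : 0 < B := hA.trans_le hAB
  have ha : 0 < 1 - 2 * η := by linarith
  have hb : 0 < 1 - η := by linarith
  have hab : 1 - 2 * η ≤ 1 - η := by linarith
  have hAA : 0 < (1 - 2 * η) * A := mul_pos ha hA
  have hAB1 : (1 - 2 * η) * A ≤ B := by nlinarith
  have hA2 : 0 < η * A := mul_pos hη hA
  have hAB2 : η * A ≤ 2 * η * B := by nlinarith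
  -- the pointwise inequality
  have hpt : ∀ θ ∈ Icc (1 - 2 * η) (1 - η), Gq T A B ≤
      (1 + κ) * (θ * Gq (T / θ - 0) ((1 - 2 * η) * A) B) +
      (1 + 1 / κ) * ((1 - θ) * Gq ((T + 1) / (1 - θ) - 1) (η * A) (2 * η * B)) := by
    intro θ hθ
    have h0 : 0 < θ := ha.trans_le hθ.1
    have h1 : θ < 1 := by linarith [hθ.2]
    have h1' : 0 < 1 - θ := by linarith
    refine (point hκ hT0.le hA hAB h0 h1).trans ?_
    have e : (T + 1) / (1 - θ) - 1 = (T + θ) / (1 - θ) := by
      field_simp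
      ring
    rw [e, sub_zero]
    have i1 : Gq (T / θ) (θ * A) (θ * B) ≤ Gq (T / θ) ((1 - 2 * η) * A) B :=
      g2 _ _ _ _ _ (by positivity) hAA (mul_le_mul_of_nonneg_right hθ.1 hA.le)
        (mul_le_mul_of_nonneg_left hAB h0.le) (by nlinarith)
    have i2 : Gq ((T + θ) / (1 - θ)) ((1 - θ) * A) ((1 - θ) * B) ≤
        Gq ((T + θ) / (1 - θ)) (η * A) (2 * η * B) :=
      g2 _ _ _ _ _ (by positivity) hA2 (mul_le_mul_of_nonneg_right (by linarith [hθ.2]) hA.le)
        (mul_le_mul_of_nonneg_left hAB h1'.le)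
        (mul_le_mul_of_nonneg_right (by linarith [hθ.1]) hB.le)
    have i3 : 0 ≤ 1 + 1 / κ := by positivity
    gcongr
  -- integrability
  have j1 : IntegrableOn (fun θ => θ * Gq (T / θ - 0) ((1 - 2 * η) * A) B)
      (Icc (1 - 2 * η) (1 - η)) := int_comp hS hAA hAB1 ha hab hT0 0 (by positivity)
  have hT1 : 0 < T + 1 := by linarith
  have hlt : (1 : ℝ) < (T + 1) / (2 * η) := by
    rw [lt_div_iff₀ (by positivity)]
    linarith
  have j2' : IntegrableOn (fun s => s * Gq ((T + 1) / s - 1) (η * A) (2 * η * B))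
      (Icc η (2 * η)) := int_comp hS hA2 hAB2 hη (by linarith) hT1 1 hlt
  have j2i : IntervalIntegrable (fun s => s * Gq ((T + 1) / s - 1) (η * A) (2 * η * B)) volume
      η (2 * η) := by
    rw [intervalIntegrable_iff_integrableOn_Icc_of_le (by linarith)]
    exact j2'
  have j2 : IntegrableOn (fun θ => (1 - θ) * Gq ((T + 1) / (1 - θ) - 1) (η * A) (2 * η * B))
      (Icc (1 - 2 * η) (1 - η)) := by
    have h3 := j2i.comp_sub_left 1
    rw [← intervalIntegrable_iff_integrableOn_Icc_of_le hab]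
    exact h3.symm
  -- integrate over θ
  have hint : η * Gq T A B ≤
      (1 + κ) * (∫ θ in Icc (1 - 2 * η) (1 - η), θ * Gq (T / θ - 0) ((1 - 2 * η) * A) B) +
      (1 + 1 / κ) * (∫ θ in Icc (1 - 2 * η) (1 - η),
        (1 - θ) * Gq ((T + 1) / (1 - θ) - 1) (η * A) (2 * η * B)) := by
    have hc : η * Gq T A B = ∫ θ in Icc (1 - 2 * η) (1 - η), Gq T A B := by
      rw [setIntegral_const, Real.volume_real_Icc_of_le hab, smul_eq_mul]
      congr 1
      ring
    rw [hc, ← integral_const_mul, ← integral_const_mul,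
      ← integral_add (j1.const_mul _) (j2.const_mul _)]
    exact setIntegral_mono_on (by simp) ((j1.const_mul _).add (j2.const_mul _))
      measurableSet_Icc hpt
  have k1 : ∫ θ in Icc (1 - 2 * η) (1 - η), θ * Gq (T / θ - 0) ((1 - 2 * η) * A) B ≤
      1 / T * ∫ t in (T / (1 - η))..(T / (1 - 2 * η)), Gq t ((1 - 2 * η) * A) B := by
    simp only [sub_zero]
    have hle : T / (1 - η) ≤ T / (1 - 2 * η) := div_le_div_of_nonneg_left hT0.le ha hab
    have hp : 0 < T / (1 - η) := by positivity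
    have h3 := subst_le (G := fun t => Gq t ((1 - 2 * η) * A) B) ha hab hT0
      (fun u hu => g1 _ _ _ (hp.trans_le hu.1) hAA hAB1) (gq_int hS hAA hAB1 hp)
    refine h3.trans ?_
    rw [intervalIntegral.integral_of_le hle, ← integral_Icc_eq_integral_Ioc]
    refine mul_le_mul_of_nonneg_right ?_ ?_
    · refine div_le_div_of_nonneg_right ?_ hT0.le
      exact pow_le_one₀ hb.le (by linarith)
    · exact setIntegral_nonneg measurableSet_Icc
        fun u hu => g1 _ _ _ (hp.trans_le hu.1) hAA hAB1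
  have k2 : ∫ θ in Icc (1 - 2 * η) (1 - η),
        (1 - θ) * Gq ((T + 1) / (1 - θ) - 1) (η * A) (2 * η * B) ≤
      8 * η ^ 3 / T * ∫ t in ((T + 1) / (2 * η) - 1)..((T + 1) / η - 1),
        Gq t (η * A) (2 * η * B) := by
    have h2η : η ≤ 2 * η := by linarith
    rw [integral_Icc_eq_integral_Ioc, ← intervalIntegral.integral_of_le hab,
      intervalIntegral.integral_comp_sub_left
        (fun s => s * Gq ((T + 1) / s - 1) (η * A) (2 * η * B)) 1]
    have e1 : (1 : ℝ) - (1 - η) = η := by ring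
    have e2 : (1 : ℝ) - (1 - 2 * η) = 2 * η := by ring
    rw [e1, e2, intervalIntegral.integral_of_le h2η, ← integral_Icc_eq_integral_Ioc]
    have hle : (T + 1) / (2 * η) ≤ (T + 1) / η := div_le_div_of_nonneg_left hT1.le hη h2η
    have hi : IntegrableOn (fun u => Gq (u - 1) (η * A) (2 * η * B))
        (Icc ((T + 1) / (2 * η)) ((T + 1) / η)) := by
      have h4 : IntervalIntegrable (fun t => Gq t (η * A) (2 * η * B)) volume
          ((T + 1) / (2 * η) - 1) ((T + 1) / η - 1) := by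
        rw [intervalIntegrable_iff_integrableOn_Icc_of_le (by linarith)]
        exact gq_int hS hA2 hAB2 (by linarith)
      have h5 := h4.comp_sub_right 1
      rw [← intervalIntegrable_iff_integrableOn_Icc_of_le hle]
      simpa using h5
    have hnn : ∀ u ∈ Icc ((T + 1) / (2 * η)) ((T + 1) / η), 0 ≤ Gq (u - 1) (η * A) (2 * η * B) :=
      fun u hu => g1 _ _ _ (by linarith [hu.1]) hA2 hAB2
    have h3 := subst_le (G := fun u => Gq (u - 1) (η * A) (2 * η * B)) hη h2η hT1 hnn hi
    refine h3.trans ?_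
    have e3 : ∫ u in Icc ((T + 1) / (2 * η)) ((T + 1) / η), Gq (u - 1) (η * A) (2 * η * B) =
        ∫ t in ((T + 1) / (2 * η) - 1)..((T + 1) / η - 1), Gq t (η * A) (2 * η * B) := by
      rw [integral_Icc_eq_integral_Ioc, ← intervalIntegral.integral_of_le hle,
        intervalIntegral.integral_comp_sub_right (fun t => Gq t (η * A) (2 * η * B)) 1]
    have h6 := setIntegral_nonneg (μ := volume) measurableSet_Icc hnn
    rw [e3] at h6 ⊢
    refine mul_le_mul_of_nonneg_right ?_ h6
    have e4 : (2 * η) ^ 3 = 8 * η ^ 3 := by ring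
    rw [e4]
    exact div_le_div_of_nonneg_left (by positivity) hT0 (by linarith)
  set I1 := ∫ t in (T / (1 - η))..(T / (1 - 2 * η)), Gq t ((1 - 2 * η) * A) B with hI1
  set I2 := ∫ t in ((T + 1) / (2 * η) - 1)..((T + 1) / η - 1), Gq t (η * A) (2 * η * B) with hI2
  have hk : 0 ≤ 1 + 1 / κ := by positivity
  have hfin : η * Gq T A B ≤ (1 + κ) * (1 / T * I1) + (1 + 1 / κ) * (8 * η ^ 3 / T * I2) :=
    hint.trans (add_le_add (mul_le_mul_of_nonneg_left k1 (by linarith))
      (mul_le_mul_of_nonneg_left k2 hk))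
  have e5 : (1 + κ) * (1 / (η * T) * I1) + (1 + 1 / κ) * (8 * η ^ 2 / T * I2) =
      ((1 + κ) * (1 / T * I1) + (1 + 1 / κ) * (8 * η ^ 3 / T * I2)) / η := by
    field_simp
  rw [e5, le_div_iff₀ hη]
  linarith

end Pool.Agent.NH13.LV
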