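import Pool.Agent.NH13.LV.Defs

/-!
# LV-3: intervals of length between `c` and `1`
-/

set_option autoImplicit false

open MeasureTheory Filter Topology Set

namespace Pool.Agent.NH13.LV

namespace Sh

/-- one step of `ψ` -/
lemma psi_step (x : ℝ) (hx : 0 ≤ x) :
    Chebyshev.psi (x + 1) - Chebyshev.psi x ≤ Real.log (x + 1) := by
  have hf : ⌊x + 1⌋₊ = ⌊x⌋₊ + 1 := Nat.floor_add_one hx
  have h1 : Chebyshev.psi (x + 1)
      = Chebyshev.psi x + ArithmeticFunction.vonMangoldt (⌊x⌋₊ + 1) := by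
    unfold Chebyshev.psi
    rw [hf, Finset.sum_Ioc_succ_top (Nat.zero_le _)]
  have h2 : ArithmeticFunction.vonMangoldt (⌊x⌋₊ + 1) ≤ Real.log (x + 1) := by
    refine ArithmeticFunction.vonMangoldt_le_log.trans ?_
    refine Real.log_le_log (by positivity) ?_
    have := Nat.floor_le hx
    push_cast
    linarith
  linarith

lemma psi_ii (a b : ℝ) : IntervalIntegrable Chebyshev.psi volume a b :=
  Chebyshev.psi_mono.intervalIntegrable

lemma lin_ii (t s a b : ℝ) (ht : 0 ≤ t) :
    IntervalIntegrable (fun H : ℝ => Chebyshev.psi (t * H + s)) volume a b := by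
  apply Monotone.intervalIntegrable
  intro x y hxy
  exact Chebyshev.psi_mono (by nlinarith [mul_le_mul_of_nonneg_left hxy ht])

lemma int_le (t c : ℝ) (ht : 0 < t) :
    ∫ H in c..1, (Chebyshev.psi (t * H + 1) - Chebyshev.psi (t * H + 0))
      ≤ t⁻¹ * Chebyshev.psi (t + 1) := by
  rw [intervalIntegral.integral_sub (lin_ii t 1 c 1 ht.le) (lin_ii t 0 c 1 ht.le)]
  rw [intervalIntegral.integral_comp_mul_add (fun x => Chebyshev.psi x) ht.ne' 1,
    intervalIntegral.integral_comp_mul_add (fun x => Chebyshev.psi x) ht.ne' 0]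
  simp only [smul_eq_mul, mul_one, add_zero]
  rw [← mul_sub]
  refine mul_le_mul_of_nonneg_left ?_ (inv_nonneg.mpr ht.le)
  rw [intervalIntegral.integral_interval_sub_interval_comm (psi_ii _ _) (psi_ii _ _) (psi_ii _ _)]
  rw [intervalIntegral.integral_symm (t * c) (t * c + 1), intervalIntegral.integral_symm t (t + 1)]
  have h1 : 0 ≤ ∫ x in (t * c)..(t * c + 1), Chebyshev.psi x :=
    intervalIntegral.integral_nonneg (by linarith) (fun x _ => Chebyshev.psi_nonneg x)
  have h2 : ∫ x in t..(t + 1), Chebyshev.psi x ≤ ∫ x in t..(t + 1), Chebyshev.psi (t + 1) := by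
    refine intervalIntegral.integral_mono_on (by linarith) (psi_ii _ _)
      intervalIntegrable_const ?_
    intro x hx
    exact Chebyshev.psi_mono hx.2
  rw [intervalIntegral.integral_const] at h2
  simp only [smul_eq_mul] at h2
  have h3 : (t + 1 - t) * Chebyshev.psi (t + 1) = Chebyshev.psi (t + 1) := by ring
  rw [h3] at h2
  linarith

/-- the pointwise bound -/
lemma pt (t c H : ℝ) (ht : 2 ≤ t) (hc : 0 < c) (h1 : c ≤ H) (h2 : H ≤ 1) :
    vv (t * H) H / H ^ 2 ≤
      2 * Real.log (t + 1) / c ^ 2 *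
        (Chebyshev.psi (t * H + 1) - Chebyshev.psi (t * H + 0)) + 2 := by
  have hH : 0 < H := lt_of_lt_of_le hc h1
  rw [add_zero]
  have hx : 0 ≤ t * H := by positivity
  have hs := psi_step (t * H) hx
  have hlog : Real.log (t * H + 1) ≤ Real.log (t + 1) :=
    Real.log_le_log (by positivity) (by nlinarith)
  have hm1 : Chebyshev.psi (t * H + H) ≤ Chebyshev.psi (t * H + 1) :=
    Chebyshev.psi_mono (by linarith)
  have hm2 : Chebyshev.psi (t * H) ≤ Chebyshev.psi (t * H + H) :=
    Chebyshev.psi_mono (by linarith)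
  set P := Chebyshev.psi (t * H + H) - Chebyshev.psi (t * H) with hP
  set R := Chebyshev.psi (t * H + 1) - Chebyshev.psi (t * H) with hR
  have hP0 : 0 ≤ P := by rw [hP]; linarith
  have hPR : P ≤ R := by rw [hP, hR]; linarith
  have hR0 : 0 ≤ R := hP0.trans hPR
  have hRL : R ≤ Real.log (t + 1) := by linarith
  have hv : vv (t * H) H = (P - H) ^ 2 := by
    unfold vv
    rw [hP]
  rw [hv]
  have e1 : (P - H) ^ 2 ≤ 2 * (Real.log (t + 1) * R) + 2 * H ^ 2 := by
    have a1 : (P - H) ^ 2 ≤ 2 * P ^ 2 + 2 * H ^ 2 := by nlinarith [sq_nonneg (P + H)]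
    have a2 : P ^ 2 ≤ R ^ 2 := by nlinarith
    have a3 : R ^ 2 ≤ Real.log (t + 1) * R := by
      rw [pow_two]
      exact mul_le_mul_of_nonneg_right hRL hR0
    linarith
  have hLR : 0 ≤ Real.log (t + 1) * R := mul_nonneg (hR0.trans hRL) hR0
  calc (P - H) ^ 2 / H ^ 2 ≤ (2 * (Real.log (t + 1) * R) + 2 * H ^ 2) / H ^ 2 := by
        gcongr
    _ = 2 * (Real.log (t + 1) * R) / H ^ 2 + 2 := by
        field_simp
    _ ≤ 2 * (Real.log (t + 1) * R) / c ^ 2 + 2 := by
        gcongr
    _ = _ := by ring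

end Sh

open Sh in
theorem t_sh : S_sh := by
  intro c hc hc1
  have hl4 : 0 ≤ Real.log 4 := Real.log_nonneg (by norm_num)
  refine ⟨8 * (Real.log 4 + 4) / c ^ 2 + 4, ?_⟩
  intro t ht
  have ht0 : 0 < t := by linarith
  have hL : 1 / 2 ≤ Real.log t := by
    have h1 : Real.log 2 ≤ Real.log t := Real.log_le_log (by norm_num) ht
    have h2 := Real.log_two_gt_d9
    linarith
  have hL1 : Real.log (t + 1) ≤ 2 * Real.log t := by
    have : Real.log (t + 1) ≤ Real.log (t ^ 2) :=
      Real.log_le_log (by positivity) (by nlinarith)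
    rw [Real.log_pow] at this
    exact_mod_cast this
  have hL0 : 0 ≤ Real.log (t + 1) := Real.log_nonneg (by linarith)
  by_cases hi : IntervalIntegrable (fun H => vv (t * H) H / H ^ 2) volume c 1
  · have hg : IntervalIntegrable (fun H => 2 * Real.log (t + 1) / c ^ 2 *
        (Chebyshev.psi (t * H + 1) - Chebyshev.psi (t * H + 0)) + 2) volume c 1 :=
      (((lin_ii t 1 c 1 ht0.le).sub (lin_ii t 0 c 1 ht0.le)).const_mul _).add
        intervalIntegrable_const
    have h1 : Gq t c 1 ≤ ∫ H in c..1, (2 * Real.log (t + 1) / c ^ 2 *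
        (Chebyshev.psi (t * H + 1) - Chebyshev.psi (t * H + 0)) + 2) := by
      refine intervalIntegral.integral_mono_on hc1 hi hg ?_
      intro H hH
      exact pt t c H ht hc hH.1 hH.2
    have h2 : ∫ H in c..1, (2 * Real.log (t + 1) / c ^ 2 *
        (Chebyshev.psi (t * H + 1) - Chebyshev.psi (t * H + 0)) + 2)
        = 2 * Real.log (t + 1) / c ^ 2 *
          (∫ H in c..1, (Chebyshev.psi (t * H + 1) - Chebyshev.psi (t * H + 0)))
          + (1 - c) * 2 := by
      rw [intervalIntegral.integral_add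
        (((lin_ii t 1 c 1 ht0.le).sub (lin_ii t 0 c 1 ht0.le)).const_mul _)
        intervalIntegrable_const, intervalIntegral.integral_const_mul,
        intervalIntegral.integral_const]
      simp [smul_eq_mul]
    have h3 := int_le t c ht0
    have h4 : Chebyshev.psi (t + 1) ≤ (Real.log 4 + 4) * (t + 1) :=
      Chebyshev.psi_le_const_mul_self (by linarith)
    have h5 : t⁻¹ * Chebyshev.psi (t + 1) ≤ 2 * (Real.log 4 + 4) := by
      rw [inv_mul_le_iff₀ ht0]
      nlinarith
    have h6 : 2 * Real.log (t + 1) / c ^ 2 *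
          (∫ H in c..1, (Chebyshev.psi (t * H + 1) - Chebyshev.psi (t * H + 0)))
        ≤ 2 * (2 * Real.log t) / c ^ 2 * (2 * (Real.log 4 + 4)) := by
      have b1 : (∫ H in c..1, (Chebyshev.psi (t * H + 1) - Chebyshev.psi (t * H + 0)))
          ≤ 2 * (Real.log 4 + 4) := h3.trans h5
      calc _ ≤ 2 * Real.log (t + 1) / c ^ 2 * (2 * (Real.log 4 + 4)) :=
            mul_le_mul_of_nonneg_left b1 (by positivity)
        _ ≤ _ := by gcongr
    have h7 : 2 * (2 * Real.log t) / c ^ 2 * (2 * (Real.log 4 + 4))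
        = 8 * (Real.log 4 + 4) / c ^ 2 * Real.log t := by ring
    have h8 : (1 - c) * 2 ≤ 4 * Real.log t := by nlinarith
    rw [h2] at h1
    rw [h7] at h6
    rw [add_mul]
    linarith
  · have h0 : Gq t c 1 = 0 := intervalIntegral.integral_undef hi
    rw [h0]
    positivity

end Pool.Agent.NH13.LV
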