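import Pool.Agent.NH13.LV.Defs

/-! # From the local averages to the lines -/

set_option autoImplicit false
set_option maxHeartbeats 4000000

open MeasureTheory Filter Topology Set

namespace Pool.Agent.NH13.LV

namespace Up5

lemma Gii (hG : S_G) {A B p q : ℝ} (hA : 0 < A) (hAB : A ≤ B) (hp : 0 < p) (hpq : p ≤ q) :
    IntervalIntegrable (fun t => Gq t A B) volume p q := by
  obtain ⟨g1, g2, g3, g4, g5⟩ := hG
  obtain ⟨C, hC⟩ := g5 A B hA hAB p q hp hpq
  rw [intervalIntegrable_iff_integrableOn_Icc_of_le hpq]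
  refine Measure.integrableOn_of_bounded (M := C) (by simp)
    (g4 A B hA hAB).aestronglyMeasurable ?_
  refine (ae_restrict_mem measurableSet_Icc).mono fun t ht => ?_
  rw [Real.norm_of_nonneg (g1 t A B (by linarith [ht.1]) hA hAB)]
  exact hC t ht

lemma tlog : Tendsto Real.log atTop atTop := Real.tendsto_log_atTop

/-- the averages over `[T - 1/2, (1 + η) T - 1/2]` -/
lemma FW (hG : S_G) (hK : S_K) (hsh : S_sh) (hU : UpL) {η κ a b δ : ℝ} (hη : 0 < η) (hκ : 0 < κ)
    (hκ1 : κ ≤ 1) (ha : 1 ≤ a) (hab : a < b) (hδ : 0 < δ) :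
    ∀ᶠ T in atTop, ∀ A B : ℝ, κ * (T / 2) ^ (a - 1) ≤ A → A ≤ B → B ≤ T ^ (b - 1) →
      ∫ t in (T - 1 / 2)..((1 + η) * T - 1 / 2), Gq t A B ≤
        η * T * Real.log T ^ 2 * (b - a + δ) := by
  have g1 := hG.1
  have g2 := hG.2.1
  have g3 := hG.2.2.1
  have k2 := hK.2
  rcases eq_or_lt_of_le ha with h1 | h1
  · -- the window that starts at `1`
    obtain ⟨C, hC⟩ := hsh κ hκ hκ1
    have e1 := hU η hη 1 b le_rfl (by linarith) (δ / 2) (by linarith)
    filter_upwards [e1, eventually_ge_atTop 10, eventually_ge_atTop (1 + η),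
      tlog.eventually_ge_atTop (4 * |C| / δ)] with T t1 hT hTη tL A B hA hAB hB
    have hT0 : 0 < T := by linarith
    have hL0 : 0 < Real.log T := Real.log_pos (by linarith)
    rw [← h1, sub_self, Real.rpow_zero, mul_one] at hA
    have hTb : 1 ≤ T ^ (b - 1) := Real.one_le_rpow (by linarith) (by linarith)
    have hq : T - 1 / 2 ≤ (1 + η) * T - 1 / 2 := by nlinarith
    have hp0 : 0 < T - 1 / 2 := by linarith
    have p1 : ∀ t ∈ Icc (T - 1 / 2) ((1 + η) * T - 1 / 2), Gq t A B ≤
        2 * |C| * Real.log T + Gq t 1 (T ^ (b - 1)) := by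
      intro t ht
      have ht0 : 0 < t := by linarith [ht.1]
      have h2 := g2 t A B κ (T ^ (b - 1)) ht0 hκ hA hAB hB
      have h3 := g3 t κ 1 (T ^ (b - 1)) ht0 hκ hκ1 hTb
      have h4 := hC t (by linarith [ht.1])
      have h5 : Real.log t ≤ 2 * Real.log T := by
        have : 2 * Real.log T = Real.log (T ^ 2) := by rw [Real.log_pow]; norm_num
        rw [this]
        apply Real.log_le_log ht0
        have := ht.2
        nlinarith
      have h6 : 0 ≤ Real.log t := Real.log_nonneg (by linarith [ht.1])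
      have h7 : C * Real.log t ≤ |C| * (2 * Real.log T) :=
        (mul_le_mul_of_nonneg_right (le_abs_self C) h6).trans
          (mul_le_mul_of_nonneg_left h5 (abs_nonneg C))
      linarith
    have i1 := Gii hG (show (0 : ℝ) < A by linarith) hAB hp0 hq
    have i2 := Gii hG one_pos hTb hp0 hq
    have h2 := intervalIntegral.integral_mono_on hq i1
      ((show IntervalIntegrable (fun _ => 2 * |C| * Real.log T) volume (T - 1 / 2)
        ((1 + η) * T - 1 / 2) by simp).add i2) p1
    refine h2.trans ?_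
    rw [intervalIntegral.integral_add (by simp) i2, intervalIntegral.integral_const, smul_eq_mul]
    have k3 := k2 η T 1 b hη (by linarith) (by linarith)
    rw [sub_self, Real.rpow_zero] at k3
    have hX : 0 < η * T * Real.log T ^ 2 := by positivity
    have k4 : ∫ t in (T - 1 / 2)..((1 + η) * T - 1 / 2), Gq t 1 (T ^ (b - 1)) =
        η * T * Real.log T ^ 2 * Kl η T 1 b := by
      rw [k3]
      field_simp
    rw [k4]
    have k5 := mul_le_mul_of_nonneg_left t1 hX.le
    have k6 : ((1 + η) * T - 1 / 2 - (T - 1 / 2)) * (2 * |C| * Real.log T) ≤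
        η * T * Real.log T ^ 2 * (δ / 2) := by
      have : (1 + η) * T - 1 / 2 - (T - 1 / 2) = η * T := by ring
      rw [this]
      rw [div_le_iff₀ hδ] at tL
      have h8 : 2 * |C| ≤ Real.log T * (δ / 2) := by linarith
      calc η * T * (2 * |C| * Real.log T) = (2 * |C|) * (η * T * Real.log T) := by ring
        _ ≤ (Real.log T * (δ / 2)) * (η * T * Real.log T) :=
            mul_le_mul_of_nonneg_right h8 (by positivity)
        _ = _ := by ring
    rw [← h1]
    linarith
  · -- the windows that start after `1`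
    obtain ⟨a', ha'⟩ : ∃ a' : ℝ, a' = max 1 (a - δ / 2) := ⟨_, rfl⟩
    have ha1 : 1 ≤ a' := by rw [ha']; exact le_max_left _ _
    have haa : a' < a := by rw [ha']; exact max_lt h1 (by linarith)
    have haδ : a - δ / 2 ≤ a' := by rw [ha']; exact le_max_right _ _
    have e1 := hU η hη a' b ha1 (by linarith) (δ / 2) (by linarith)
    have e2 : ∀ᶠ T : ℝ in atTop, T ^ (a' - 1) ≤ κ * (T / 2) ^ (a - 1) := by
      have h2 : Tendsto (fun T : ℝ => T ^ (a - a')) atTop atTop :=
        tendsto_rpow_atTop (by linarith)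
      filter_upwards [h2.eventually_ge_atTop (2 ^ (a - 1) / κ), eventually_gt_atTop 0] with T t1 t2
      rw [Real.div_rpow t2.le (by norm_num), div_le_iff₀ hκ] at *
      have e : T ^ (a - 1) = T ^ (a' - 1) * T ^ (a - a') := by
        rw [← Real.rpow_add t2]
        congr 1
        ring
      rw [e, ← mul_div_assoc, le_div_iff₀ (by positivity)]
      have h3 : 0 < T ^ (a' - 1) := Real.rpow_pos_of_pos t2 _
      nlinarith
    filter_upwards [e1, e2, eventually_ge_atTop 10] with T t1 t2 hT A B hA hAB hB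
    have hT0 : 0 < T := by linarith
    have hL0 : 0 < Real.log T := Real.log_pos (by linarith)
    have hq : T - 1 / 2 ≤ (1 + η) * T - 1 / 2 := by nlinarith
    have hp0 : 0 < T - 1 / 2 := by linarith
    have hA1 : 0 < T ^ (a' - 1) := Real.rpow_pos_of_pos hT0 _
    have hA0 : 0 < A := by linarith
    have hA1B : T ^ (a' - 1) ≤ T ^ (b - 1) := by linarith
    have i1 := Gii hG hA0 hAB hp0 hq
    have i2 := Gii hG hA1 hA1B hp0 hq
    have h2 := intervalIntegral.integral_mono_on hq i1 i2 fun t ht =>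
      g2 t A B (T ^ (a' - 1)) (T ^ (b - 1)) (by linarith [ht.1]) hA1 (by linarith) hAB hB
    refine h2.trans ?_
    have k3 := k2 η T a' b hη (by linarith) (by linarith)
    have hX : 0 < η * T * Real.log T ^ 2 := by positivity
    have k4 : ∫ t in (T - 1 / 2)..((1 + η) * T - 1 / 2), Gq t (T ^ (a' - 1)) (T ^ (b - 1)) =
        η * T * Real.log T ^ 2 * Kl η T a' b := by
      rw [k3]
      field_simp
    rw [k4]
    refine mul_le_mul_of_nonneg_left ?_ hX.le
    linarith

lemma log_ratio {c ε : ℝ} (hc : 1 ≤ c) (hε : 0 < ε) : ∀ᶠ T : ℝ in atTop,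
    Real.log (c * T) ^ 2 ≤ (1 + ε) * Real.log T ^ 2 := by
  have hq : 0 < Real.log c + 1 := by
    have := Real.log_nonneg hc
    linarith
  filter_upwards [tlog.eventually_ge_atTop (Real.log c * (2 + (Real.log c + 1)) / ε + 1),
    eventually_gt_atTop 0] with T t1 t2
  have h0 := Real.log_nonneg hc
  have h1 : 0 ≤ Real.log c * (2 + (Real.log c + 1)) / ε := by positivity
  have hL : 1 ≤ Real.log T := by linarith
  rw [Real.log_mul (by linarith) t2.ne']
  have h2 : Real.log c * (2 + (Real.log c + 1)) ≤ ε * Real.log T := by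
    have h3 : Real.log c * (2 + (Real.log c + 1)) / ε ≤ Real.log T := by linarith
    rw [div_le_iff₀ hε] at h3
    linarith
  have h4 : Real.log c * (2 + (Real.log c + 1)) * Real.log T ≤ ε * Real.log T * Real.log T :=
    mul_le_mul_of_nonneg_right h2 (by linarith)
  nlinarith [mul_nonneg h0 h0, mul_nonneg (mul_nonneg h0 h0) (show 0 ≤ Real.log T - 1 by linarith)]

end Up5

open Up5 in
/-- **from the local averages to the lines** -/
theorem t_up : S_up := by
  intro hG hK hsh hSV hU a b ha hab ε hε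
  -- the parameters
  obtain ⟨M, hM⟩ : ∃ M : ℝ, M = b - a + 1 := ⟨_, rfl⟩
  have hM1 : 1 ≤ M := by rw [hM]; linarith
  obtain ⟨δ, hδe⟩ : ∃ δ : ℝ, δ = min 1 (ε / 8) := ⟨_, rfl⟩
  have hδ : 0 < δ := by rw [hδe]; exact lt_min one_pos (by linarith)
  have hδ1 : δ ≤ 1 := by rw [hδe]; exact min_le_left _ _
  have hδ2 : δ ≤ ε / 8 := by rw [hδe]; exact min_le_right _ _
  obtain ⟨κ, hκe⟩ : ∃ κ : ℝ, κ = min 1 (ε / (120 * M)) := ⟨_, rfl⟩
  have hκ : 0 < κ := by rw [hκe]; exact lt_min one_pos (by positivity)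
  have hκ1 : κ ≤ 1 := by rw [hκe]; exact min_le_left _ _
  have hκ2 : 15 * κ * M ≤ ε / 8 := by
    have h1 : κ ≤ ε / (120 * M) := by rw [hκe]; exact min_le_right _ _
    rw [le_div_iff₀ (by positivity)] at h1
    linarith
  obtain ⟨η, hηe⟩ : ∃ η : ℝ, η = min (κ / 16) (ε / (128 * (1 + 1 / κ) * (b + 1))) := ⟨_, rfl⟩
  have hb1 : 0 < b + 1 := by linarith
  have hη : 0 < η := by rw [hηe]; exact lt_min (by linarith) (by positivity)
  have hη1 : η ≤ κ / 16 := by rw [hηe]; exact min_le_left _ _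
  have hη2 : (1 + 1 / κ) * (32 * η * (b + 1)) ≤ ε / 4 := by
    have h1 : η ≤ ε / (128 * (1 + 1 / κ) * (b + 1)) := by rw [hηe]; exact min_le_right _ _
    rw [le_div_iff₀ (by positivity)] at h1
    linarith
  have hη4 : η ≤ 1 / 16 := by linarith
  have hp1 : 0 < 1 - η := by linarith
  have hp2 : 0 < 1 - 2 * η := by linarith
  -- the two averages
  obtain ⟨η', hη'e⟩ : ∃ η' : ℝ, η' = η / (1 - 2 * η) := ⟨_, rfl⟩
  have hη' : 0 < η' := by rw [hη'e]; positivity
  have w1 := FW hG hK hsh hU hη' hp2 (show 1 - 2 * η ≤ 1 by linarith) ha hab hδ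
  have w2 := FW hG hK hsh hU (show (0 : ℝ) < 2 by norm_num) hη (show η ≤ 1 by linarith) le_rfl
    (show 1 < b by linarith) one_pos
  have s1 : Tendsto (fun T : ℝ => T / (1 - η) + 1 / 2) atTop atTop :=
    tendsto_atTop_add_const_right _ _ (tendsto_id.atTop_div_const hp1)
  have s2 : Tendsto (fun T : ℝ => (T + 1) / (2 * η) - 1 / 2) atTop atTop :=
    tendsto_atTop_add_const_right _ (-(1 / 2))
      ((tendsto_atTop_add_const_right _ _ tendsto_id).atTop_div_const (by positivity))
  filter_upwards [s1.eventually w1, s2.eventually w2, log_ratio (show (1 : ℝ) ≤ 2 by norm_num) hκ,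
    log_ratio (c := 1 / η) (by rw [le_div_iff₀ hη]; linarith) one_pos,
    eventually_ge_atTop (10 + 8 / κ)] with T t1 t2 t3 t4 hTk
  have hk8 : 0 < 8 / κ := by positivity
  have hT : 10 ≤ T := by linarith
  have hT0 : 0 < T := by linarith
  have hL0 : 0 < Real.log T := Real.log_pos (by linarith)
  have hL2 : 0 < Real.log T ^ 2 := by positivity
  obtain ⟨T₁, hT₁⟩ : ∃ T₁ : ℝ, T₁ = T / (1 - η) + 1 / 2 := ⟨_, rfl⟩
  obtain ⟨T₂, hT₂⟩ : ∃ T₂ : ℝ, T₂ = (T + 1) / (2 * η) - 1 / 2 := ⟨_, rfl⟩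
  rw [← hT₁] at t1
  rw [← hT₂] at t2
  have hTd : T ≤ T / (1 - η) := by
    rw [le_div_iff₀ hp1]
    nlinarith
  have hTd2 : T / (1 - η) ≤ 5 / 4 * T := by
    rw [div_le_iff₀ hp1]
    nlinarith
  have hT₁a : T ≤ T₁ := by linarith
  have hT₁b : T₁ ≤ 2 * T := by linarith
  have hη0 : 0 < 2 * η := by linarith
  have hTe : 8 * (T + 1) ≤ (T + 1) / (2 * η) := by
    rw [le_div_iff₀ hη0]
    nlinarith
  have hT₂a : T ≤ T₂ := by rw [hT₂]; linarith
  obtain ⟨A, hA⟩ : ∃ A : ℝ, A = T ^ (a - 1) := ⟨_, rfl⟩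
  obtain ⟨B, hB⟩ : ∃ B : ℝ, B = T ^ (b - 1) := ⟨_, rfl⟩
  have hA1 : 1 ≤ A := by rw [hA]; exact Real.one_le_rpow (by linarith) (by linarith)
  have hAB : A ≤ B := by
    rw [hA, hB]
    exact Real.rpow_le_rpow_of_exponent_le (by linarith) (by linarith)
  have g1 := hG.1
  -- the first average
  have I1 : ∫ t in (T / (1 - η))..(T / (1 - 2 * η)), Gq t ((1 - 2 * η) * A) B ≤
      η' * T₁ * Real.log T₁ ^ 2 * (b - a + δ) := by
    have hlow : 0 < (1 - 2 * η) * A := by positivity
    have hlB : (1 - 2 * η) * A ≤ B := by nlinarith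
    have h1 := t1 ((1 - 2 * η) * A) B (by
      rw [hA]
      refine mul_le_mul_of_nonneg_left ?_ hp2.le
      exact Real.rpow_le_rpow (by linarith) (by linarith) (by linarith)) hlB (by
      rw [hB]
      exact Real.rpow_le_rpow (by linarith) hT₁a (by linarith))
    refine le_trans ?_ h1
    have e1 : T₁ - 1 / 2 = T / (1 - η) := by rw [hT₁]; ring
    have e2 : T / (1 - 2 * η) ≤ (1 + η') * T₁ - 1 / 2 := by
      have e3 : (1 + η') * T₁ - 1 / 2 = T / (1 - 2 * η) + η / (2 * (1 - 2 * η)) := by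
        have e5 : 1 + η' = (1 - η) / (1 - 2 * η) := by
          rw [hη'e, eq_div_iff hp2.ne', add_mul, div_mul_cancel₀ _ hp2.ne']
          ring
        have e6 : (1 - η) / (1 - 2 * η) * (T / (1 - η)) = T / (1 - 2 * η) := by
          rw [div_mul_div_comm, mul_comm (1 - η) T, mul_div_mul_right _ _ hp1.ne']
        have e7 : (1 - η) / (1 - 2 * η) * (1 / 2) - 1 / 2 = η / (2 * (1 - 2 * η)) := by
          rw [eq_div_iff (by positivity)]
          have e8 : (1 - η) / (1 - 2 * η) * (1 - 2 * η) = 1 - η := div_mul_cancel₀ _ hp2.ne'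
          linear_combination e8
        rw [e5, hT₁, mul_add, e6, ← e7]
        ring
      rw [e3]
      have : 0 < η / (2 * (1 - 2 * η)) := by positivity
      linarith
    have e4 : T / (1 - η) ≤ T / (1 - 2 * η) := by
      apply div_le_div_of_nonneg_left hT0.le hp2
      linarith
    rw [e1]
    refine intervalIntegral.integral_mono_interval le_rfl e4 e2 ?_
      (Gii hG hlow hlB (by linarith) (by linarith))
    refine (ae_restrict_mem measurableSet_Ioc).mono fun t ht => ?_
    exact g1 t _ _ (by linarith [ht.1]) hlow hlB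
  -- the second average
  have I2 : ∫ t in ((T + 1) / (2 * η) - 1)..((T + 1) / η - 1), Gq t (η * A) (2 * η * B) ≤
      2 * T₂ * Real.log T₂ ^ 2 * b := by
    have hlow : 0 < η * A := by positivity
    have hlB : η * A ≤ 2 * η * B := by nlinarith
    have h1 := t2 (η * A) (2 * η * B) (by
      rw [sub_self, Real.rpow_zero]
      nlinarith) hlB (by
      have h3 : B ≤ T₂ ^ (b - 1) := by
        rw [hB]
        exact Real.rpow_le_rpow (by linarith) hT₂a (by linarith)
      nlinarith)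
    have h2 : (2 : ℝ) * T₂ * Real.log T₂ ^ 2 * (b - 1 + 1) = 2 * T₂ * Real.log T₂ ^ 2 * b := by
      ring
    rw [h2] at h1
    refine le_trans ?_ h1
    have e1 : T₂ - 1 / 2 = (T + 1) / (2 * η) - 1 := by rw [hT₂]; ring
    have e3 : (T + 1) / η = 2 * ((T + 1) / (2 * η)) := by field_simp
    have e2 : (T + 1) / η - 1 ≤ (1 + 2) * T₂ - 1 / 2 := by
      rw [e3, hT₂]
      linarith
    have e4 : (T + 1) / (2 * η) - 1 ≤ (T + 1) / η - 1 := by
      rw [e3]
      linarith
    rw [e1]
    refine intervalIntegral.integral_mono_interval le_rfl e4 e2 ?_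
      (Gii hG hlow hlB (by linarith) (by linarith))
    refine (ae_restrict_mem measurableSet_Ioc).mono fun t ht => ?_
    exact g1 t _ _ (by linarith [ht.1]) hlow hlB
  have hsv := hSV η κ T A B hη (by linarith) hκ hT (by linarith) hAB
  -- the sizes
  have hlog1 : Real.log T₁ ^ 2 ≤ (1 + κ) * Real.log T ^ 2 := by
    refine le_trans ?_ t3
    apply pow_le_pow_left₀ (Real.log_nonneg (by linarith))
    exact Real.log_le_log (by linarith) hT₁b
  have hlog2 : Real.log T₂ ^ 2 ≤ 2 * Real.log T ^ 2 := by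
    have h1 : Real.log T₂ ^ 2 ≤ Real.log (1 / η * T) ^ 2 := by
      apply pow_le_pow_left₀ (Real.log_nonneg (by linarith))
      apply Real.log_le_log (by linarith)
      rw [hT₂]
      have h2 : (T + 1) / (2 * η) ≤ 1 / η * T := by
        rw [div_le_iff₀ hη0]
        have : 1 / η * T * (2 * η) = 2 * T := by field_simp
        rw [this]
        linarith
      linarith
    linarith
  have hc1 : η' * T₁ ≤ (1 + κ) * (1 + κ) * (η * T) := by
    have h1 : T₁ ≤ T * ((1 + κ / 8) * (1 + κ / 8)) := by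
      have h2 : T / (1 - η) ≤ T * (1 + κ / 8) := by
        rw [div_le_iff₀ hp1]
        have : 1 ≤ (1 + κ / 8) * (1 - η) := by nlinarith
        nlinarith
      have h3 : 1 / 2 ≤ T * (κ / 8) := by
        have : 8 / κ ≤ T := by linarith
        rw [div_le_iff₀ hκ] at this
        linarith
      rw [hT₁]
      nlinarith
    have h2 : η' ≤ η * (1 + κ / 4) := by
      rw [hη'e, div_le_iff₀ hp2]
      have : 1 ≤ (1 + κ / 4) * (1 - 2 * η) := by nlinarith
      nlinarith
    have h3 : (1 + κ / 4) * ((1 + κ / 8) * (1 + κ / 8)) ≤ (1 + κ) * (1 + κ) := by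
      nlinarith [mul_nonneg hκ.le hκ.le, mul_nonneg (mul_nonneg hκ.le hκ.le) hκ.le]
    calc η' * T₁ ≤ (η * (1 + κ / 4)) * (T * ((1 + κ / 8) * (1 + κ / 8))) :=
          mul_le_mul h2 h1 (by linarith) (by positivity)
      _ = ((1 + κ / 4) * ((1 + κ / 8) * (1 + κ / 8))) * (η * T) := by ring
      _ ≤ _ := mul_le_mul_of_nonneg_right h3 (by positivity)
  have hc2 : η ^ 2 * T₂ ≤ η * T := by
    have h1 : T₂ * (2 * η) ≤ T + 1 := by
      rw [hT₂, sub_mul, div_mul_cancel₀ _ hη0.ne']
      linarith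
    nlinarith
  have hbad : 0 ≤ b - a + δ := by linarith
  have F1 : (1 + κ) * (1 / (η * T) * ∫ t in (T / (1 - η))..(T / (1 - 2 * η)),
      Gq t ((1 - 2 * η) * A) B) ≤ (1 + κ) ^ 4 * (b - a + δ) * Real.log T ^ 2 := by
    have h1 : 1 / (η * T) * (∫ t in (T / (1 - η))..(T / (1 - 2 * η)),
        Gq t ((1 - 2 * η) * A) B) ≤ (1 + κ) ^ 3 * (b - a + δ) * Real.log T ^ 2 := by
      rw [one_div, inv_mul_le_iff₀ (by positivity)]
      refine I1.trans ?_
      calc η' * T₁ * Real.log T₁ ^ 2 * (b - a + δ) ≤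
            ((1 + κ) * (1 + κ) * (η * T)) * ((1 + κ) * Real.log T ^ 2) * (b - a + δ) := by
            gcongr
        _ = _ := by ring
    calc _ ≤ (1 + κ) * ((1 + κ) ^ 3 * (b - a + δ) * Real.log T ^ 2) :=
          mul_le_mul_of_nonneg_left h1 (by linarith)
      _ = _ := by ring
  have F2 : (1 + 1 / κ) * (8 * η ^ 2 / T * ∫ t in ((T + 1) / (2 * η) - 1)..((T + 1) / η - 1),
      Gq t (η * A) (2 * η * B)) ≤ ε / 4 * Real.log T ^ 2 := by
    have h1 : 8 * η ^ 2 / T * (∫ t in ((T + 1) / (2 * η) - 1)..((T + 1) / η - 1),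
        Gq t (η * A) (2 * η * B)) ≤ 32 * η * (b + 1) * Real.log T ^ 2 := by
      have h2 : 8 * η ^ 2 / T * (∫ t in ((T + 1) / (2 * η) - 1)..((T + 1) / η - 1),
        Gq t (η * A) (2 * η * B)) ≤ 8 * η ^ 2 / T * (2 * T₂ * Real.log T₂ ^ 2 * b) :=
        mul_le_mul_of_nonneg_left I2 (by positivity)
      refine h2.trans ?_
      have hb0 : 0 < b := by linarith
      calc 8 * η ^ 2 / T * (2 * T₂ * Real.log T₂ ^ 2 * b) =
            16 * b / T * ((η ^ 2 * T₂) * Real.log T₂ ^ 2) := by ring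
        _ ≤ 16 * b / T * ((η * T) * (2 * Real.log T ^ 2)) := by gcongr
        _ = 32 * η * b * Real.log T ^ 2 := by
            field_simp
            ring
        _ ≤ 32 * η * (b + 1) * Real.log T ^ 2 := by
            gcongr
            linarith
    calc _ ≤ (1 + 1 / κ) * (32 * η * (b + 1) * Real.log T ^ 2) :=
          mul_le_mul_of_nonneg_left h1 (by positivity)
      _ = ((1 + 1 / κ) * (32 * η * (b + 1))) * Real.log T ^ 2 := by ring
      _ ≤ _ := mul_le_mul_of_nonneg_right hη2 hL2.le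
  have hpoly : (1 + κ) ^ 4 * (b - a + δ) ≤ b - a + ε / 4 := by
    have h1 : (1 + κ) ^ 4 ≤ 1 + 15 * κ := by
      nlinarith [mul_nonneg hκ.le (show 0 ≤ 1 - κ by linarith),
        mul_nonneg (mul_nonneg hκ.le hκ.le) (show 0 ≤ 1 - κ by linarith),
        mul_nonneg (mul_nonneg (mul_nonneg hκ.le hκ.le) hκ.le) (show 0 ≤ 1 - κ by linarith)]
    have h2 := mul_le_mul_of_nonneg_right h1 hbad
    have h3 : b - a + δ ≤ M := by rw [hM]; linarith
    have h4 : 15 * κ * (b - a + δ) ≤ 15 * κ * M :=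
      mul_le_mul_of_nonneg_left h3 (by positivity)
    linarith
  have hfin : Gq T A B ≤ (b - a + ε) * Real.log T ^ 2 := by
    have h5 := mul_le_mul_of_nonneg_right hpoly hL2.le
    nlinarith
  unfold Jg
  rw [← hA, ← hB, div_le_iff₀ hL2]
  exact hfin

end Pool.Agent.NH13.LV
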